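import Pool.Agent.H47.RJ.CHB
import Pool.Agent.H44.RG.BLP

/-!
# Module CRC: contraction at a critical point

PROOF. Let `f = Rf v`, `c` critical. Choose `s : ℂ` different from `c` and `f c`, the homeomorphism `φ` with `φ y = 1 / (y - s)`, `φ s = ∞`, `φ ∞ = 0` and the conjugate `g = rat A B` with `A, B` coprime of the same degree, `g (φ y) = φ (f y)` (`exists_mob`, H32/BT/Mob). `u = φ c` and `g u = φ (f c)` are finite. `u` is critical for `g` (`isCrit_conj`), so
`Wr A B` vanishes at `u` (if not, `g` is locally injective at `u`: inverse function theorem, or the lemma in the library: crit_iff / `crit_of_wr` and its converse, H32/BT/Crit, H44/Fatou) and the function `A / B` has derivative `Wr A B u / B u ^ 2 = 0` at `u`. So for every `κ > 0`, `‖A y / B y - A u / B u‖ ≤ κ ‖y - u‖` for `y` near `u`. The chordal distance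
is comparable with the euclidean one near finite points (`chord (some a) (some b) ≤ ‖a - b‖` and `‖a - b‖ ≤ K chord` for bounded `a, b`) and `φ` is bi-Lipschitz for `chord` (`chord_bilip`, H44/RG/BLP): choose `κ` small.
-/

set_option autoImplicit false

open Filter Topology Polynomial Metric Set

namespace Pool.Agent.H47.RJ

open Pool.Agent.H44.Fatou Pool.Agent.H32.BT Pool.Agent.H79.Eul Pool.Agent.H79.Par
open Pool.Agent.H35.EX Pool.Agent.H44.RR Pool.Agent.H56.HR Pool.Agent.H44.RC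

variable {d : ℕ} {v : E d}

private theorem crc_wr {P Q : Polynomial ℂ} {c : ℂ} (hc : IsCrit (rat P Q) (c : OnePoint ℂ)) :
    (Wr P Q).eval c = 0 := by
  by_contra hW
  apply hc
  have h := wr_inj hW
  rw [nhds_prod_eq] at h
  obtain ⟨V, hV, hVV⟩ := Filter.eventually_prod_self_iff'.1 h
  refine ⟨(fun z : ℂ => (z : OnePoint ℂ)) '' V, ?_, ?_⟩
  · rw [← OnePoint.isOpenEmbedding_coe.map_nhds_eq c]
    exact Filter.image_mem_map hV
  · rintro _ ⟨a, ha, rfl⟩ _ ⟨b, hb, rfl⟩ hab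
    have h1 : rat P Q (a : OnePoint ℂ) = rat P Q (b : OnePoint ℂ) := hab
    rw [rat_coe, rat_coe] at h1
    have h3 : a = b := hVV a ha b hb (pt_eq h1)
    show (a : OnePoint ℂ) = (b : OnePoint ℂ)
    rw [h3]

private theorem crc_alg {a b p q r t κ n x : ℝ} (hp : 0 < p) (hr : 0 < r) (hq : p / 2 ≤ q)
    (ht : t ≤ 2 * r) (ht0 : 0 < t) (hκ : κ = p ^ 2 / (8 * r ^ 2)) (hn : 0 ≤ n) (hx : x ≤ κ * n) :
    x / (p * q) ≤ 1 / 2 * (n / (r * t)) := by
  have hq0 : 0 < q := by linarith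
  have h1 : x / (p * q) ≤ κ * n / (p * (p / 2)) := by
    rw [div_le_div_iff₀ (by positivity) (by positivity)]
    have h2 : 0 ≤ κ * n := by rw [hκ]; positivity
    have h3 : p * (p / 2) ≤ p * q := mul_le_mul_of_nonneg_left hq hp.le
    have h4 : 0 ≤ p * (p / 2) := by positivity
    nlinarith [mul_le_mul_of_nonneg_right hx h4, mul_le_mul_of_nonneg_left h3 h2]
  have h2 : κ * n / (p * (p / 2)) = 1 / 2 * (n / (r * (2 * r))) := by
    rw [hκ]
    field_simp
    ring
  have h3 : n / (r * (2 * r)) ≤ n / (r * t) := by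
    rw [div_le_div_iff₀ (by positivity) (by positivity)]
    have h4 : r * t ≤ r * (2 * r) := mul_le_mul_of_nonneg_left ht hr.le
    exact mul_le_mul_of_nonneg_left h4 hn
  linarith

theorem crit_contr (hd : 1 ≤ d) (hcop : IsCoprime (pol v.1) (pol v.2))
    (hdeg : max (pol v.1).natDegree (pol v.2).natDegree = d) {c : OnePoint ℂ}
    (hc : IsCrit (Rf v) c) : ∀ᶠ y in 𝓝 c, chord (Rf v c) (Rf v y) ≤ 1 / 2 * chord c y := by
  obtain ⟨s, hs1, hs2⟩ : ∃ s : ℂ, (s : OnePoint ℂ) ≠ c ∧ (s : OnePoint ℂ) ≠ Rf v c := by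
    have hinf : (Set.range ((↑) : ℂ → OnePoint ℂ)).Infinite :=
      Set.infinite_range_of_injective OnePoint.coe_injective
    obtain ⟨y, ⟨s, rfl⟩, hy⟩ := hinf.exists_notMem_finite (Set.toFinite {c, Rf v c})
    rw [Set.mem_insert_iff, Set.mem_singleton_iff, not_or] at hy
    exact ⟨s, hy.1, hy.2⟩
  obtain ⟨φ, hφ, hφs, hφi, hconj⟩ := exists_mob s
  obtain ⟨hAB, -, hfg⟩ := hconj d (pol v.1) (pol v.2) hcop hdeg hd
  generalize cj1 s d (pol v.1) (pol v.2) = A at hAB hfg
  generalize cj2 s d (pol v.1) (pol v.2) = B at hAB hfg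
  have hne : ∀ x : OnePoint ℂ, (s : OnePoint ℂ) ≠ x → ∃ x' : ℂ, φ x = (x' : OnePoint ℂ) := by
    intro x hx
    have h1 : φ x ≠ OnePoint.infty := by
      rw [← hφs]
      exact fun h => hx (φ.injective h).symm
    obtain ⟨x', hx'⟩ := OnePoint.ne_infty_iff_exists.1 h1
    exact ⟨x', hx'.symm⟩
  obtain ⟨u, hu⟩ := hne c hs1
  obtain ⟨w, hw⟩ := hne (Rf v c) hs2
  have hfgR : ∀ x, rat A B (φ x) = φ (Rf v x) := hfg
  have hguw : rat A B (u : OnePoint ℂ) = (w : OnePoint ℂ) := by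
    rw [← hu, hfgR, hw]
  have hBu : B.eval u ≠ 0 := by
    intro h0
    rw [rat_coe] at hguw
    unfold pt at hguw
    rw [if_pos h0] at hguw
    exact OnePoint.infty_ne_coe _ hguw
  have hw' : A.eval u / B.eval u = w := by
    rw [rat_coe_of_ne hBu] at hguw
    exact OnePoint.coe_eq_coe.1 hguw
  have hcr : IsCrit (rat A B) (u : OnePoint ℂ) := by
    rw [← hu]
    exact (isCrit_conj φ hfgR c).2 hc
  have hWr : (Wr A B).eval u = 0 := crc_wr hcr
  have hder : HasDerivAt (fun y : ℂ => A.eval y / B.eval y) 0 u := by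
    have h1 := (A.hasDerivAt u).div (B.hasDerivAt u) hBu
    have h2 : (eval u (derivative A) * eval u B - eval u A * eval u (derivative B)) /
        eval u B ^ 2 = 0 := by
      unfold Wr at hWr
      rw [eval_sub, eval_mul, eval_mul] at hWr
      rw [hWr, zero_div]
    rw [h2] at h1
    exact h1
  have hp := hs_pos s w
  have hr := hs_pos s u
  set κ : ℝ := hs s w ^ 2 / (8 * hs s u ^ 2) with hκ
  have hκ0 : 0 < κ := by positivity
  have ev1 : ∀ᶠ y in 𝓝 u, ‖A.eval u / B.eval u - A.eval y / B.eval y‖ ≤ κ * ‖u - y‖ := by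
    have h1 := (hasDerivAt_iff_isLittleO.1 hder).def hκ0
    filter_upwards [h1] with y hy
    rw [smul_zero, sub_zero] at hy
    rw [norm_sub_rev, norm_sub_rev u y]
    exact hy
  have ev2 : ∀ᶠ y in 𝓝 u, B.eval y ≠ 0 := B.continuous.continuousAt.eventually_ne hBu
  have ev3 : ∀ᶠ y in 𝓝 u, hs s w / 2 < hs s (A.eval y / B.eval y) := by
    have h1 : ContinuousAt (fun y => hs s (A.eval y / B.eval y)) u :=
      (hs_cont s).continuousAt.comp hder.continuousAt
    refine h1.eventually_const_lt ?_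
    show hs s w / 2 < hs s (A.eval u / B.eval u)
    rw [hw']
    linarith
  have ev4 : ∀ᶠ y in 𝓝 u, hs s y < 2 * hs s u := by
    refine (hs_cont s).continuousAt.eventually_lt_const ?_
    linarith
  have h5 : ∀ᶠ z in 𝓝 (u : OnePoint ℂ), ∃ y : ℂ, z = (y : OnePoint ℂ) ∧
      ‖A.eval u / B.eval u - A.eval y / B.eval y‖ ≤ κ * ‖u - y‖ ∧ B.eval y ≠ 0 ∧
      hs s w / 2 < hs s (A.eval y / B.eval y) ∧ hs s y < 2 * hs s u := by
    rw [OnePoint.nhds_coe_eq, eventually_map]
    filter_upwards [ev1, ev2, ev3, ev4] with y h1 h2 h3 h4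
    exact ⟨y, rfl, h1, h2, h3, h4⟩
  have h6 : Tendsto φ (𝓝 c) (𝓝 (u : OnePoint ℂ)) := by
    rw [← hu]
    exact φ.continuous.tendsto c
  filter_upwards [h6.eventually h5] with x hx
  obtain ⟨y, hy, h1, h2, h3, h4⟩ := hx
  have h7 : φ (Rf v x) = ((A.eval y / B.eval y : ℂ) : OnePoint ℂ) := by
    rw [← hfgR, hy, rat_coe_of_ne h2]
  rw [chord_phi hφs hφ hφi hw h7, chord_phi hφs hφ hφi hu hy]
  rw [hw'] at h1
  exact crc_alg (a := 0) (b := 0) hp hr h3.le h4.le (hs_pos s y) hκ (norm_nonneg _) h1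

end Pool.Agent.H47.RJ
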