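import Pool.Agent.H47.RJ.CHB

/-!
# Module FSI: the Fatou set and the Julia set are completely invariant

PROOFS. `FS f = interior {x | EqAt f x}` is open. `f = Rf v` is continuous (`rat_continuous`) and open (`rat_open`, H32/BT/Crit).
`fs_iff`, backward: if `f x ∈ FS f`, then `f ⁻¹' FS f` is an open neighbourhood of `x`, and for `y` in it `EqAt f y`: given `ε`, by `EqAt f (f y)` there is a neighbourhood `V` of `f y` with `chord (f^[n] (f y)) (f^[n] w) < ε` for `w ∈ V`, all `n`; take `f ⁻¹' V` and a small neighbourhood for `n = 0` (`ch_ball`).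
Forward: if `x ∈ FS f`, `U = FS f` open, `f '' U` is open and contains `f x`; let `y' = f x'`, `x' ∈ U`. `EqAt f y'`: given `ε` there is an open `W ∋ x'` with `chord (f^[n] x') (f^[n] w) < ε` for `w ∈ W`, all `n`; `f '' W` is a neighbourhood of `y'`, and for `f w`, `w ∈ W`: `chord (f^[n] y') (f^[n] (f w)) = chord (f^[n+1] x') (f^[n+1] w) < ε`.
The statements for iterates by induction.
-/

set_option autoImplicit false

open Filter Topology Polynomial Metric Set

namespace Pool.Agent.H47.RJ

open Pool.Agent.H44.Fatou Pool.Agent.H32.BT Pool.Agent.H79.Eul Pool.Agent.H79.Par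
open Pool.Agent.H35.EX Pool.Agent.H44.RR Pool.Agent.H56.HR Pool.Agent.H44.RC

variable {d : ℕ} {v : E d}

theorem fs_open (f : OnePoint ℂ → OnePoint ℂ) : IsOpen (FS f) := isOpen_interior

theorem js_closed (f : OnePoint ℂ → OnePoint ℂ) : IsClosed (JS f) := (fs_open f).isClosed_compl

theorem fs_iff (hd : 1 ≤ d) (hcop : IsCoprime (pol v.1) (pol v.2))
    (hdeg : max (pol v.1).natDegree (pol v.2).natDegree = d) (n : ℕ) (x : OnePoint ℂ) :
    (Rf v)^[n] x ∈ FS (Rf v) ↔ x ∈ FS (Rf v) := by
  have hcont : Continuous (Rf v) := rat_continuous hcop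
  have hopen : IsOpenMap (Rf v) := rat_open hcop (by rw [hdeg]; exact hd)
  have key : ∀ x, Rf v x ∈ FS (Rf v) ↔ x ∈ FS (Rf v) := by
    intro x
    constructor
    · intro hx
      refine mem_interior.2 ⟨Rf v ⁻¹' FS (Rf v), ?_, (fs_open _).preimage hcont, hx⟩
      intro y hy ε hε
      have h1 : EqAt (Rf v) (Rf v y) := interior_subset hy
      filter_upwards [(hcont.tendsto y).eventually (h1 ε hε), ch_ball y hε] with w hw1 hw2
      intro m
      cases m with
      | zero => exact hw2
      | succ m =>
        rw [Function.iterate_succ_apply, Function.iterate_succ_apply]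
        exact hw1 m
    · intro hx
      refine mem_interior.2 ⟨Rf v '' FS (Rf v), ?_, hopen _ (fs_open _), ⟨x, hx, rfl⟩⟩
      rintro _ ⟨y, hy, rfl⟩ ε hε
      have h1 : EqAt (Rf v) y := interior_subset hy
      filter_upwards [hopen.image_mem_nhds (h1 ε hε)] with w hw
      obtain ⟨u, hu, rfl⟩ := hw
      intro m
      rw [← Function.iterate_succ_apply, ← Function.iterate_succ_apply]
      exact hu (m + 1)
  induction n generalizing x with
  | zero => exact Iff.rfl
  | succ n ih =>
    rw [Function.iterate_succ_apply]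
    exact (ih (Rf v x)).trans (key x)

theorem js_iff (hd : 1 ≤ d) (hcop : IsCoprime (pol v.1) (pol v.2))
    (hdeg : max (pol v.1).natDegree (pol v.2).natDegree = d) (n : ℕ) (x : OnePoint ℂ) :
    (Rf v)^[n] x ∈ JS (Rf v) ↔ x ∈ JS (Rf v) := by
  unfold JS
  rw [mem_compl_iff, mem_compl_iff, fs_iff hd hcop hdeg]

end Pool.Agent.H47.RJ
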