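import Pool.Agent.H47.RJ.CNT
import Pool.Agent.H47.RJ.CRC
import Pool.Agent.H47.RJ.FSI

/-!
# Module BWF: finite backward invariant sets

`bwd_fin`. `f = Rf v` is surjective, so there is `s : E → E` with `f (s e) = e` (the preimages are in `E` by `hb`), injective, hence surjective (`E` finite): every `x ∈ E` is `s e`, `f x = e ∈ E`; and `f` is injective on `E` (it is the inverse of the bijection `s`). So `f` maps `E` to `E`, and `f x ∈ E` has the only preimage `x` (a preimage of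
`f x` is in `E`). Let `x ∈ E` and suppose that `x` is not critical: `f` is injective on an open `U ∋ x`. The compact set `Uᶜ` has the compact image `f '' Uᶜ` which does not contain `f x`, so there is a neighbourhood `V` of `f x` with all preimages of its points in `U`: each point of `V` has at most one preimage. `V` is infinite (`ch_nhds`; the sphere has no
isolated points), so `cnt_ge` with `n = 1` gives a point of `V` with at least `d ≥ 2` preimages: contradiction.
`trap_crit`. By `crit_contr` there is `ε' > 0`, `ε' ≤ ε` with `chord (f e) (f y) ≤ 1/2 chord e y` for all `e ∈ T` and `chord e y < ε'` (`ch_nhds`, `T` finite). `N = {y | ∃ e ∈ T, chord e y < ε'}` is open, `f` maps `N` to `N`. `N ⊆ FS f`: for `y ∈ N`, `chord (f^[n] e) (f^[n] y) ≤ (1/2)^n ε'`; so every point of `N` is a point of equicontinuity: given `ε1`,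
for `n ≥ n1` the distance of `f^[n] y` and `f^[n] y'` is `≤ 2 (1/2)^n ε' < ε1` for `y, y'` in the same disc, and the finitely many `n < n1` are continuous.
-/

set_option autoImplicit false

open Filter Topology Polynomial Metric Set

namespace Pool.Agent.H47.RJ

open Pool.Agent.H44.Fatou Pool.Agent.H32.BT Pool.Agent.H79.Eul Pool.Agent.H79.Par
open Pool.Agent.H35.EX Pool.Agent.H44.RR Pool.Agent.H56.HR Pool.Agent.H44.RC

variable {d : ℕ} {v : E d}

private theorem bwf_inf {V : Set (OnePoint ℂ)} {y : OnePoint ℂ} (hV : IsOpen V) (hy : y ∈ V) :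
    V.Infinite := by
  have h1 : Dense (range ((↑) : ℂ → OnePoint ℂ)) := OnePoint.denseRange_coe
  obtain ⟨w, hwV, z, rfl⟩ := h1.inter_open_nonempty V hV ⟨y, hy⟩
  have h2 : ((↑) : ℂ → OnePoint ℂ) ⁻¹' V ∈ 𝓝 z :=
    (hV.preimage OnePoint.continuous_coe).mem_nhds hwV
  have h3 := infinite_of_mem_nhds z h2
  exact (h3.image OnePoint.coe_injective.injOn).mono (image_preimage_subset _ _)

theorem bwd_fin (hd : 2 ≤ d) (hcop : IsCoprime (pol v.1) (pol v.2))
    (hdeg : max (pol v.1).natDegree (pol v.2).natDegree = d) {T : Set (OnePoint ℂ)}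
    (hT : T.Finite) (hb : ∀ x, Rf v x ∈ T → x ∈ T) :
    MapsTo (Rf v) T T ∧ ∀ x ∈ T, IsCrit (Rf v) x := by
  have hsurj := rf_surj (by omega) hcop hdeg
  choose s hs using hsurj
  have hsT : MapsTo s T T := fun e he => hb _ (by rw [hs]; exact he)
  have hsi : InjOn s T := fun a _ b _ hab => by
    have := congrArg (Rf v) hab
    rwa [hs, hs] at this
  have hsb : BijOn s T T := (hT.injOn_iff_bijOn_of_mapsTo hsT).1 hsi
  have hm : MapsTo (Rf v) T T := by
    intro x hx
    obtain ⟨e, he, rfl⟩ := hsb.surjOn hx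
    rw [hs]
    exact he
  have hinj : InjOn (Rf v) T := by
    intro x hx y hy hxy
    obtain ⟨e, he, rfl⟩ := hsb.surjOn hx
    obtain ⟨e', he', rfl⟩ := hsb.surjOn hy
    rw [hs, hs] at hxy
    rw [hxy]
  refine ⟨hm, fun x hx hcrit => ?_⟩
  obtain ⟨U, hU, hUi⟩ := hcrit
  have hcont : Continuous (Rf v) := rat_continuous hcop
  obtain ⟨U', hU'U, hU'o, hxU'⟩ := mem_nhds_iff.1 hU
  have hK : IsCompact (Rf v '' U'ᶜ) := (hU'o.isClosed_compl.isCompact).image hcont
  obtain ⟨V, hV⟩ : ∃ V, V = (Rf v '' U'ᶜ)ᶜ := ⟨_, rfl⟩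
  have hVo : IsOpen V := by
    rw [hV]
    exact hK.isClosed.isOpen_compl
  have hxV : Rf v x ∈ V := by
    rw [hV]
    rintro ⟨z, hz, hzx⟩
    have h1 : z ∈ T := hb z (by rw [hzx]; exact hm hx)
    have h2 := hinj h1 hx hzx
    rw [h2] at hz
    exact hz hxU'
  obtain ⟨y, hyV, hy⟩ := cnt_ge (by omega) hcop hdeg 1 (bwf_inf hVo hxV)
  have h3 : {z | (Rf v)^[1] z = y}.ncard ≤ 1 := by
    rw [Set.ncard_le_one_iff (cnt_le (by omega) hcop hdeg 1 y).1]
    have h4 : ∀ z : OnePoint ℂ, z ∈ {z | (Rf v)^[1] z = y} → z ∈ U' ∧ Rf v z = y := by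
      intro z hz
      have hz' : Rf v z = y := hz
      refine ⟨?_, hz'⟩
      by_contra hzU
      rw [hV] at hyV
      exact hyV ⟨z, hzU, hz'⟩
    intro a b ha hb
    obtain ⟨a1, a2⟩ := h4 a ha
    obtain ⟨b1, b2⟩ := h4 b hb
    exact hUi (hU'U a1) (hU'U b1) (a2.trans b2.symm)
  rw [pow_one] at hy
  omega

theorem trap_crit (hd : 2 ≤ d) (hcop : IsCoprime (pol v.1) (pol v.2))
    (hdeg : max (pol v.1).natDegree (pol v.2).natDegree = d) {T : Set (OnePoint ℂ)}
    (hT : T.Finite) (hm : MapsTo (Rf v) T T) (hc : ∀ x ∈ T, IsCrit (Rf v) x) {ε : ℝ}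
    (hε : 0 < ε) :
    ∃ N : Set (OnePoint ℂ), IsOpen N ∧ T ⊆ N ∧ MapsTo (Rf v) N N ∧ N ⊆ FS (Rf v) ∧
      ∀ x ∈ N, ∃ e ∈ T, chord e x < ε := by
  have hcont : Continuous (Rf v) := rat_continuous hcop
  have h1 : ∀ e ∈ T, ∀ᶠ r in 𝓝[>] (0 : ℝ), ∀ y, chord e y < r →
      chord (Rf v e) (Rf v y) ≤ 1 / 2 * chord e y := by
    intro e he
    obtain ⟨δ, hδ, hδ'⟩ := ch_nhds (crit_contr (by omega) hcop hdeg (hc e he))
    filter_upwards [Ioo_mem_nhdsGT hδ] with r hr y hy
    exact hδ' y (hy.trans hr.2)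
  have h2 := (eventually_all_finite hT).2 h1
  obtain ⟨ε', hε1, hε2⟩ := (h2.and (Ioo_mem_nhdsGT hε)).exists
  have hε0 : 0 < ε' := hε2.1
  obtain ⟨N, hN⟩ : ∃ N, N = {y | ∃ e ∈ T, chord e y < ε'} := ⟨_, rfl⟩
  have hNo : IsOpen N := by
    have : N = ⋃ e ∈ T, {y | chord e y < ε'} := by
      rw [hN]
      ext y
      simp
    rw [this]
    exact isOpen_biUnion fun e _ => ch_open e ε'
  refine ⟨N, hNo, ?_, ?_, ?_, ?_⟩
  · intro e he
    rw [hN]
    exact ⟨e, he, by rw [chord_zero]; exact hε0⟩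
  · intro y hy
    rw [hN] at hy ⊢
    obtain ⟨e, he, hey⟩ := hy
    refine ⟨Rf v e, hm he, (hε1 e he y hey).trans_lt ?_⟩
    linarith
  · rw [FS]
    refine interior_maximal ?_ hNo
    intro y hy ε1 hε1'
    rw [hN] at hy
    obtain ⟨e, he, hey⟩ := hy
    have hit : ∀ n : ℕ, ∀ w, chord e w < ε' →
        (Rf v)^[n] e ∈ T ∧ chord ((Rf v)^[n] e) ((Rf v)^[n] w) < (1 / 2) ^ n * ε' := by
      intro n w hw
      induction n with
      | zero => exact ⟨he, by simpa using hw⟩
      | succ n ih =>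
        rw [Function.iterate_succ_apply', Function.iterate_succ_apply']
        refine ⟨hm ih.1, ?_⟩
        have h5 : (1 / 2 : ℝ) ^ n * ε' ≤ ε' := by
          have := pow_le_one₀ (n := n) (by norm_num : (0 : ℝ) ≤ 1 / 2) (by norm_num)
          nlinarith
        refine (hε1 _ ih.1 _ (ih.2.trans_le h5)).trans_lt ?_
        rw [pow_succ]
        nlinarith [ih.2]
    obtain ⟨n1, hn1⟩ : ∃ n1 : ℕ, (1 / 2 : ℝ) ^ n1 * ε' * 2 < ε1 := by
      obtain ⟨n1, hn1⟩ := exists_pow_lt_of_lt_one (show (0 : ℝ) < ε1 / (2 * ε') by positivity)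
        (show (1 / 2 : ℝ) < 1 by norm_num)
      refine ⟨n1, ?_⟩
      rw [lt_div_iff₀ (by positivity)] at hn1
      linarith
    have hfin : ∀ᶠ w in 𝓝 y, ∀ n ∈ Finset.range n1, chord ((Rf v)^[n] y) ((Rf v)^[n] w) < ε1 := by
      rw [Filter.eventually_all_finset]
      intro n _
      have hc2 : Continuous ((Rf v)^[n]) := hcont.iterate n
      exact hc2.continuousAt (ch_ball _ hε1')
    filter_upwards [hfin, (ch_open e ε').mem_nhds hey] with w hw1 hw2 n
    rcases Nat.lt_or_ge n n1 with hn | hn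
    · exact hw1 n (Finset.mem_range.2 hn)
    · have a1 := (hit n y hey).2
      have a2 := (hit n w hw2).2
      have a3 := ch_tri ((Rf v)^[n] y) ((Rf v)^[n] e) ((Rf v)^[n] w)
      rw [chord_comm ((Rf v)^[n] y) ((Rf v)^[n] e)] at a3
      have a4 : (1 / 2 : ℝ) ^ n * ε' ≤ (1 / 2) ^ n1 * ε' :=
        mul_le_mul_of_nonneg_right
          (pow_le_pow_of_le_one (by norm_num) (by norm_num) hn) hε0.le
      linarith
  · intro x hx
    rw [hN] at hx
    obtain ⟨e, he, hex⟩ := hx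
    exact ⟨e, he, hex.trans hε2.2⟩

end Pool.Agent.H47.RJ
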