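import Pool.Agent.H47.RJ.M3M
import Pool.Agent.H47.RJ.BWF

/-!
# Module COV: the images of a disc centred in the Julia set cover the sphere, apart from a trap

`f = Rf v`. `exc_fin`: let `B` be open and meet `JS f`, `E = {x | ∀ j, x ∉ f^[j] '' B}`. If `E` contained three distinct points, `montel3` with `U = B` would give `B ⊆ FS f`. So `E` is finite (`Set.Finite`: if infinite it has three distinct points), and `f x ∈ E` implies `x ∈ E` (`x = f^[j] b` gives `f x = f^[j+1] b`).
`cover`: the set `JS f` is compact; cover it by finitely many discs `B_i = {z | chord (y_i) z < η / 2}`, `y_i ∈ JS f`. Let `E_i` be as above for `B_i`: `T = ⋃ E_i` is finite, backward invariant, so (`bwd_fin`, `trap_crit`) there is an open `N ⊇ T`, `f N ⊆ N`, `N ⊆ FS f`, contained in the `ε`-neighbourhood of `T`, with `ε` so small that the complement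
of `N` is infinite (`T` finite: choose infinitely many points outside a small closed neighbourhood of `T`: e.g. `ε` such that some disc `{z | chord q z < ε}`, `q ∉ T`, is disjoint from the `ε`-neighbourhood; a disc is infinite). If `JS f` is empty (it is not, but this is not needed) take `N = ∅`, `M = 0`.
For each `i` the compact set `Nᶜ` is contained in the union of the open sets `f^[j] '' B_i` (`rat_open`, iterates), so in finitely many of them; `M` = the largest index used, over all `i`. If `y ∈ JS f` then `y ∈ B_i` for some `i` and `B_i ⊆ {z | chord y z < η}` (`ch_tri`, `chord_comm`).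
-/

set_option autoImplicit false

open Filter Topology Polynomial Metric Set

namespace Pool.Agent.H47.RJ

open Pool.Agent.H44.Fatou Pool.Agent.H32.BT Pool.Agent.H79.Eul Pool.Agent.H79.Par
open Pool.Agent.H35.EX Pool.Agent.H44.RR Pool.Agent.H56.HR Pool.Agent.H44.RC

variable {d : ℕ} {v : E d}

theorem exc_fin (hd : 2 ≤ d) (hcop : IsCoprime (pol v.1) (pol v.2))
    (hdeg : max (pol v.1).natDegree (pol v.2).natDegree = d) {B : Set (OnePoint ℂ)}
    (hB : IsOpen B) (hJ : (B ∩ JS (Rf v)).Nonempty) :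
    {x | ∀ j : ℕ, x ∉ (Rf v)^[j] '' B}.Finite := by
  by_contra hinf
  have hinf' : {x | ∀ j : ℕ, x ∉ (Rf v)^[j] '' B}.Infinite := hinf
  have he : Function.Injective fun i : Fin 3 =>
      ((hinf'.natEmbedding _ i.val : {x | ∀ j : ℕ, x ∉ (Rf v)^[j] '' B}) : OnePoint ℂ) :=
    fun i j h => Fin.ext ((hinf'.natEmbedding _).injective (Subtype.ext h))
  have hsub := montel3 hd hcop hdeg hB he fun x hx n i heq =>
    (hinf'.natEmbedding _ i.val).2 n ⟨x, hx, heq⟩
  obtain ⟨x, hx1, hx2⟩ := hJ
  exact hx2 (hsub hx1)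

private theorem cov_inf {x : OnePoint ℂ} {U : Set (OnePoint ℂ)} (hU : U ∈ 𝓝 x) : U.Infinite := by
  have h : (𝓝[≠] x).NeBot := by
    induction x using OnePoint.rec with
    | infty => infer_instance
    | coe z => infer_instance
  exact infinite_of_mem_nhds x hU

theorem cover (hd : 2 ≤ d) (hcop : IsCoprime (pol v.1) (pol v.2))
    (hdeg : max (pol v.1).natDegree (pol v.2).natDegree = d) {η : ℝ} (hη : 0 < η) :
    ∃ (N : Set (OnePoint ℂ)) (M : ℕ), IsOpen N ∧ MapsTo (Rf v) N N ∧ N ⊆ FS (Rf v) ∧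
      Nᶜ.Infinite ∧ ∀ y ∈ JS (Rf v), ∀ x ∉ N, ∃ j ≤ M, ∃ z, chord y z < η ∧ (Rf v)^[j] z = x := by
  have hop : IsOpenMap (Rf v) := rat_open hcop (by rw [hdeg]; omega)
  have hopj : ∀ j : ℕ, IsOpenMap ((Rf v)^[j]) := by
    intro j
    induction j with
    | zero => exact IsOpenMap.id
    | succ j ih =>
      rw [Function.iterate_succ]
      exact ih.comp hop
  -- the discs
  obtain ⟨t, ht, htc⟩ := (js_closed (Rf v)).isCompact.elim_nhds_subcover
    (fun y => {z | chord y z < η / 2}) fun y _ => ch_ball y (half_pos hη)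
  -- the exceptional set
  set T : Set (OnePoint ℂ) :=
    ⋃ y ∈ t, {x | ∀ j : ℕ, x ∉ (Rf v)^[j] '' {z | chord y z < η / 2}} with hT
  have hTf : T.Finite := by
    refine t.finite_toSet.biUnion fun y hy => exc_fin hd hcop hdeg (ch_open y _) ?_
    refine ⟨y, ?_, ht y hy⟩
    show chord y y < η / 2
    rw [chord_zero]
    exact half_pos hη
  have hTb : ∀ x, Rf v x ∈ T → x ∈ T := by
    intro x hx
    rw [hT, mem_iUnion₂] at hx ⊢
    obtain ⟨y, hy, hx⟩ := hx
    refine ⟨y, hy, fun j hj => ?_⟩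
    obtain ⟨z, hz, rfl⟩ := hj
    refine hx (j + 1) ⟨z, hz, ?_⟩
    rw [Function.iterate_succ_apply']
  obtain ⟨hTm, hTc⟩ := bwd_fin hd hcop hdeg hTf hTb
  have hI : Infinite (OnePoint ℂ) := Infinite.of_injective _ OnePoint.coe_injective
  obtain ⟨q, hq⟩ := hTf.infinite_compl.nonempty
  obtain ⟨ε0, hε0, hq0⟩ := ch_nhds (hTf.isClosed.isOpen_compl.mem_nhds hq)
  obtain ⟨N, hNo, hTN, hNm, hNF, hNe⟩ := trap_crit hd hcop hdeg hTf hTm hTc (half_pos hε0)
  have hM : ∀ y ∈ t, ∃ m : ℕ, ∀ x ∉ N, ∃ j ≤ m, x ∈ (Rf v)^[j] '' {z | chord y z < η / 2} := by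
    intro y hy
    obtain ⟨s, hs⟩ := hNo.isClosed_compl.isCompact.elim_finite_subcover
      (fun j : ℕ => (Rf v)^[j] '' {z | chord y z < η / 2})
      (fun j => hopj j _ (ch_open y _)) (by
        intro x hx
        by_contra hne
        apply hx
        apply hTN
        rw [hT, mem_iUnion₂]
        refine ⟨y, hy, fun j hj => hne ?_⟩
        rw [mem_iUnion]
        exact ⟨j, hj⟩)
    refine ⟨s.sup id, fun x hx => ?_⟩
    have h1 := hs hx
    rw [mem_iUnion₂] at h1
    obtain ⟨j, hj, hxj⟩ := h1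
    exact ⟨j, Finset.le_sup (f := id) hj, hxj⟩
  choose! m hm using hM
  refine ⟨N, t.sup m, hNo, hNm, hNF, ?_, ?_⟩
  · refine (cov_inf (ch_ball q (half_pos hε0))).mono ?_
    intro x hx hxN
    obtain ⟨e, he, hex⟩ := hNe x hxN
    refine hq0 e ?_ he
    have h1 := ch_tri q x e
    have h2 : chord q x < ε0 / 2 := hx
    rw [chord_comm x e] at h1
    linarith
  · intro y hy x hx
    have h1 := htc hy
    rw [mem_iUnion₂] at h1
    obtain ⟨i, hi, hyi⟩ := h1
    obtain ⟨j, hj, z, hz, hzx⟩ := hm i hi x hx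
    refine ⟨j, hj.trans (Finset.le_sup (f := m) hi), z, ?_, hzx⟩
    have h2 : chord i y < η / 2 := hyi
    have h3 : chord i z < η / 2 := hz
    have h4 := ch_tri y i z
    rw [chord_comm y i] at h4
    linarith

end Pool.Agent.H47.RJ
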