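import Pool.Agent.H47.RJ.COV

/-!
# Module JPF: the Julia set has no isolated points

PROOF. Suppose `y ∈ JS f` and `{x ∈ JS f | chord y x < ε}` is finite. Then there is an open disc `B` about `y` with `B ∩ JS f = {y}`. `E = {x | ∀ j, x ∉ f^[j] '' B}` is finite (`exc_fin`) and backward invariant, so `E ⊆ N ⊆ FS f` (`bwd_fin`, `trap_crit`): `JS f ∩ E = ∅`. Hence every `z ∈ JS f` is `f^[j] b`, `b ∈ B`, and `b ∈ JS f` (`js_iff`), so `b = y`:
(1) `JS f` is the set of the `f^[j] y`.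
(2) `y` is periodic: a preimage `z` of `y` (`rf_surj`) is in `JS f` (`js_iff`), `z = f^[j] y`, so `f^[j+1] y = y`. By (1) `JS f` is finite. It is backward invariant (`js_iff`), so by `bwd_fin`, `trap_crit` `JS f ⊆ FS f`: contradiction, as `y ∈ JS f`.
-/

set_option autoImplicit false

open Filter Topology Polynomial Metric Set

namespace Pool.Agent.H47.RJ

open Pool.Agent.H44.Fatou Pool.Agent.H32.BT Pool.Agent.H79.Eul Pool.Agent.H79.Par
open Pool.Agent.H35.EX Pool.Agent.H44.RR Pool.Agent.H56.HR Pool.Agent.H44.RC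

variable {d : ℕ} {v : E d}

theorem js_perfect (hd : 2 ≤ d) (hcop : IsCoprime (pol v.1) (pol v.2))
    (hdeg : max (pol v.1).natDegree (pol v.2).natDegree = d) {y : OnePoint ℂ}
    (hy : y ∈ JS (Rf v)) {ε : ℝ} (hε : 0 < ε) :
    {x | x ∈ JS (Rf v) ∧ chord y x < ε}.Infinite := by
  intro hfin
  have hcont : Continuous (Rf v) := rat_continuous hcop
  have hS : ({x | x ∈ JS (Rf v) ∧ chord y x < ε} \ {y}).Finite := hfin.subset diff_subset
  set B : Set (OnePoint ℂ) := {z | chord y z < ε} \ ({x | x ∈ JS (Rf v) ∧ chord y x < ε} \ {y})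
    with hB
  have hBo : IsOpen B := (ch_open y ε).sdiff hS.isClosed
  have hyB : y ∈ B := by
    refine ⟨?_, fun h => h.2 rfl⟩
    show chord y y < ε
    rw [chord_zero]
    exact hε
  have hBJ : ∀ z ∈ B, z ∈ JS (Rf v) → z = y := by
    rintro z ⟨hz1, hz2⟩ hzJ
    by_contra hne
    exact hz2 ⟨⟨hzJ, hz1⟩, hne⟩
  have hback : ∀ T : Set (OnePoint ℂ), T.Finite → (∀ x, Rf v x ∈ T → x ∈ T) →
      ∀ x ∈ T, x ∉ JS (Rf v) := by
    intro T hT hb x hx hxJ
    obtain ⟨h1, h2⟩ := bwd_fin hd hcop hdeg hT hb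
    obtain ⟨N, -, hTN, -, hNF, -⟩ := trap_crit hd hcop hdeg hT h1 h2 one_pos
    exact hxJ (hNF (hTN hx))
  have hE := hback _ (exc_fin hd hcop hdeg hBo ⟨y, hyB, hy⟩) (by
    intro x hx j hj
    obtain ⟨z, hz, rfl⟩ := hj
    refine hx (j + 1) ⟨z, hz, ?_⟩
    rw [Function.iterate_succ_apply'])
  have horb : ∀ z ∈ JS (Rf v), ∃ j : ℕ, (Rf v)^[j] y = z := by
    intro z hz
    by_contra hcon
    push Not at hcon
    refine hE z ?_ hz
    rintro j ⟨b, hb, hbz⟩
    have h1 : b ∈ JS (Rf v) := by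
      rw [← js_iff (by omega) hcop hdeg j b, hbz]
      exact hz
    rw [hBJ b hb h1] at hbz
    exact hcon j hbz
  obtain ⟨z, hz⟩ := rf_surj (by omega) hcop hdeg y
  have hzJ : z ∈ JS (Rf v) := by
    rw [← js_iff (by omega) hcop hdeg 1 z]
    show Rf v z ∈ JS (Rf v)
    rw [hz]
    exact hy
  obtain ⟨j, hj⟩ := horb z hzJ
  have hper : Function.IsPeriodicPt (Rf v) (j + 1) y := by
    show (Rf v)^[j + 1] y = y
    rw [Function.iterate_succ_apply', hj, hz]
  have hJfin : (JS (Rf v)).Finite := by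
    refine (((Set.finite_Iio (j + 1)).image fun i => (Rf v)^[i] y)).subset ?_
    intro w hw
    obtain ⟨i, rfl⟩ := horb w hw
    exact ⟨i % (j + 1), Nat.mod_lt _ (Nat.succ_pos j), hper.iterate_mod_apply i⟩
  exact hback _ hJfin (fun x hx => (js_iff (by omega) hcop hdeg 1 x).1 hx) y hy hy

end Pool.Agent.H47.RJ
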