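import Pool.Agent.H44.RC.RCD

/-!
# Module LCS: the sphere is locally connected

PROOF. `locallyConnectedSpace_of_connected_bases`, or: every point has a basis of open connected neighbourhoods: for `z : ℂ` the images of the discs `ball z r` (`OnePoint.isOpenEmbedding_coe`, image of a connected set), for infinity the images of the discs `ball 0 r` under `recip` (H56/HR/SDF: `recip w = if w = 0 then ∞ else w⁻¹`;
continuous and open: `OnePoint.continuousAt_infty'`-type lemmas, or transport by the homeomorphism `z ↦ 1 / z` of the sphere, e.g. `exists_mob 0` in H32/BT/Mob, which exchanges 0 and infinity: local connectedness at infinity is local connectedness at 0).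
`cci_open` is then `IsOpen.connectedComponentIn`.
-/

set_option autoImplicit false

open Filter Topology Polynomial Metric Set

namespace Pool.Agent.H47.RJ

open Pool.Agent.H44.Fatou Pool.Agent.H32.BT Pool.Agent.H79.Eul Pool.Agent.H79.Par
open Pool.Agent.H35.EX Pool.Agent.H44.RR Pool.Agent.H56.HR Pool.Agent.H44.RC

private theorem lcs_ext (R : ℝ) (hR : 0 ≤ R) : IsConnected {z : ℂ | R < ‖z‖} := by
  have h1 : IsConnected (sphere (0 : ℂ) 1) :=
    isConnected_sphere (by rw [Complex.rank_real_complex]; norm_num) 0 zero_le_one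
  have h2 : IsConnected (Ioi R ×ˢ sphere (0 : ℂ) 1) := isConnected_Ioi.prod h1
  have h3 : {z : ℂ | R < ‖z‖} = (fun p : ℝ × ℂ => (p.1 : ℂ) * p.2) '' (Ioi R ×ˢ sphere (0 : ℂ) 1) := by
    ext z
    constructor
    · intro hz
      have hz' : R < ‖z‖ := hz
      have hz0 : (‖z‖ : ℂ) ≠ 0 := by
        have : ‖z‖ ≠ 0 := by linarith
        exact_mod_cast this
      refine ⟨(‖z‖, z / ‖z‖), ⟨hz', ?_⟩, ?_⟩
      · rw [mem_sphere_zero_iff_norm]
        simp only [norm_div, Complex.norm_real, norm_norm]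
        exact div_self (by linarith)
      · show (‖z‖ : ℂ) * (z / ‖z‖) = z
        field_simp
    · rintro ⟨⟨t, u⟩, ⟨ht, hu⟩, rfl⟩
      have ht' : R < t := ht
      have hu' : ‖u‖ = 1 := mem_sphere_zero_iff_norm.1 hu
      show R < ‖(t : ℂ) * u‖
      rw [norm_mul, hu', mul_one, Complex.norm_real, Real.norm_of_nonneg (by linarith)]
      exact ht'
  rw [h3]
  exact h2.image _ (by fun_prop)

private theorem lcs_inf (R : ℝ) (hR : 0 ≤ R) :
    IsOpen (((↑) : ℂ → OnePoint ℂ) '' closedBall 0 R)ᶜ ∧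
      IsConnected (((↑) : ℂ → OnePoint ℂ) '' closedBall 0 R)ᶜ := by
  have hc : IsCompact (closedBall (0 : ℂ) R) := isCompact_closedBall 0 R
  refine ⟨OnePoint.isOpen_compl_image_coe.2 ⟨hc.isClosed, hc⟩, ?_⟩
  have h1 : IsConnected (((↑) : ℂ → OnePoint ℂ) '' {z : ℂ | R < ‖z‖}) :=
    (lcs_ext R hR).image _ OnePoint.continuous_coe.continuousOn
  refine h1.subset_closure ?_ ?_
  · rintro _ ⟨z, hz, rfl⟩ ⟨w, hw, hwz⟩
    have h2 : w = z := OnePoint.coe_injective hwz
    rw [h2, mem_closedBall_zero_iff] at hw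
    have hz' : R < ‖z‖ := hz
    linarith
  · intro x hx
    induction x using OnePoint.rec with
    | infty =>
      rw [mem_closure_iff_nhds]
      intro U hU
      obtain ⟨K, ⟨-, hK⟩, hKU⟩ := OnePoint.hasBasis_nhds_infty.mem_iff.1 hU
      obtain ⟨r, hr⟩ := hK.isBounded.subset_closedBall (0 : ℂ)
      obtain ⟨z, hz⟩ : ∃ z : ℂ, ‖z‖ = max R r + 1 :=
        ⟨((max R r + 1 : ℝ) : ℂ), by
          rw [Complex.norm_real, Real.norm_of_nonneg (by linarith [le_max_left R r])]⟩
      refine ⟨(z : OnePoint ℂ), hKU (Or.inl ⟨z, fun hzK => ?_, rfl⟩), z, ?_, rfl⟩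
      · have h3 := hr hzK
        rw [mem_closedBall_zero_iff, hz] at h3
        linarith [le_max_right R r]
      · show R < ‖z‖
        rw [hz]
        linarith [le_max_left R r]
    | coe z =>
      apply subset_closure
      refine ⟨z, ?_, rfl⟩
      show R < ‖z‖
      by_contra hc
      push Not at hc
      exact hx ⟨z, mem_closedBall_zero_iff.2 hc, rfl⟩

theorem lcs : LocallyConnectedSpace (OnePoint ℂ) := by
  rw [locallyConnectedSpace_iff_subsets_isOpen_isConnected]
  intro x U hU
  induction x using OnePoint.rec with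
  | infty =>
    obtain ⟨K, ⟨-, hK⟩, hKU⟩ := OnePoint.hasBasis_nhds_infty.mem_iff.1 hU
    obtain ⟨r, hr⟩ := hK.isBounded.subset_closedBall (0 : ℂ)
    obtain ⟨h1, h2⟩ := lcs_inf (max r 0) (le_max_right _ _)
    refine ⟨_, ?_, h1, ?_, h2⟩
    · intro y hy
      induction y using OnePoint.rec with
      | infty => exact hKU (Or.inr rfl)
      | coe z =>
        refine hKU (Or.inl ⟨z, fun hz => hy ⟨z, ?_, rfl⟩, rfl⟩)
        have h3 := hr hz
        rw [mem_closedBall_zero_iff] at h3 ⊢
        exact h3.trans (le_max_left _ _)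
    · rintro ⟨z, -, hz⟩
      exact OnePoint.coe_ne_infty z hz
  | coe z =>
    have h1 : ((↑) : ℂ → OnePoint ℂ) ⁻¹' U ∈ 𝓝 z := OnePoint.continuous_coe.continuousAt.preimage_mem_nhds hU
    obtain ⟨r, hr, hrU⟩ := Metric.mem_nhds_iff.1 h1
    refine ⟨((↑) : ℂ → OnePoint ℂ) '' ball z r, ?_, ?_, ?_, ?_⟩
    · rintro _ ⟨w, hw, rfl⟩
      exact hrU hw
    · exact OnePoint.isOpenEmbedding_coe.isOpenMap _ isOpen_ball
    · exact ⟨z, mem_ball_self hr, rfl⟩
    · exact (isConnected_ball hr).image _ OnePoint.continuous_coe.continuousOn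

theorem cci_open {U : Set (OnePoint ℂ)} (hU : IsOpen U) (x : OnePoint ℂ) :
    IsOpen (connectedComponentIn U x) := by
  haveI := lcs
  exact hU.connectedComponentIn

end Pool.Agent.H47.RJ
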