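import Pool.Agent.H44.RC.RCD

/-!
# Module CHB: the chordal distance is a metric of the sphere

PROOFS. `ch_tri`: `H91/Fatou/Chord` has `chord_pt` (the chordal distance of `pt x y`, `pt x' y'` is `‖x y' - x' y‖ / (√(‖x‖^2+‖y‖^2) √(‖x'‖^2+‖y'‖^2))`), and `H26/SF/BrB.chord_eq'` says that the two definitions of `chord` agree; for unit vectors `u, w, t` of `ℂ × ℂ`
`|u ∧ t| ≤ |u ∧ w| + |w ∧ t|` (`H84/UC/Sphere.chord_triangle` proves exactly this for its copy of the sphere: transfer or copy the proof: with `a = ⟨w, u⟩` one has `u ∧ t = a' (w ∧ t) + (u ∧ w) b'` with `|a'|, |b'| ≤ 1`, the expansion of `u`, `t` in the orthonormal basis `w, w⊥`).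
`ch_open`: `chord_cont` (H44/RR/CHC). `ch_nhds`: otherwise there are `y n ∉ U` with `chord x (y n) < 1 / (n + 1)`; by compactness a cluster point `y ∉ interior U` has `chord x y = 0` (continuity), `y = x` (`chord_eqz`), a contradiction; or the compact set `(interior U)ᶜ` and the continuous
function `chord x`, positive on it. `ch_tend` follows. `ch_uc`: the set `{(x, y) | κ ≤ chord (f x) (f y)}` is compact and `chord x y` is continuous and positive on it (`chord_pos`, `f x ≠ f y`).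
`ch_seq`: `OnePoint ℂ` is compact and first countable (the topology has the countable bases given by `ch_nhds`): a cluster point of `u` (`exists_clusterPt_of_compactSpace`) and `ch_nhds`, choose the indices one after the other. `ch_dense`: images of rational points of `ℂ` (`OnePoint.denseRange_coe`, `TopologicalSpace.exists_countable_dense ℂ`).
-/

set_option autoImplicit false

open Filter Topology Polynomial Metric Set

namespace Pool.Agent.H47.RJ

open Pool.Agent.H44.Fatou Pool.Agent.H32.BT Pool.Agent.H79.Eul Pool.Agent.H79.Par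
open Pool.Agent.H35.EX Pool.Agent.H44.RR Pool.Agent.H56.HR Pool.Agent.H44.RC

/-- unit vectors over the points of the sphere -/
private noncomputable def chb_r : OnePoint ℂ → ℂ × ℂ
  | OnePoint.some z => (z / (√(1 + ‖z‖ ^ 2) : ℝ), 1 / (√(1 + ‖z‖ ^ 2) : ℝ))
  | OnePoint.infty => (1, 0)

private theorem chb_s (z : ℂ) : 0 < √(1 + ‖z‖ ^ 2) := Real.sqrt_pos.2 (by positivity)

private theorem chb_sq (z : ℂ) : √(1 + ‖z‖ ^ 2) ^ 2 = 1 + ‖z‖ ^ 2 := Real.sq_sqrt (by positivity)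

private theorem chb_unit (x : OnePoint ℂ) : ‖(chb_r x).1‖ ^ 2 + ‖(chb_r x).2‖ ^ 2 = 1 := by
  induction x using OnePoint.rec with
  | infty =>
    change ‖(1 : ℂ)‖ ^ 2 + ‖(0 : ℂ)‖ ^ 2 = 1
    simp
  | coe z =>
    change ‖z / ((√(1 + ‖z‖ ^ 2) : ℝ) : ℂ)‖ ^ 2 + ‖1 / ((√(1 + ‖z‖ ^ 2) : ℝ) : ℂ)‖ ^ 2 = 1
    rw [norm_div, norm_div, Complex.norm_real, Real.norm_eq_abs, abs_of_pos (chb_s z), norm_one,
      div_pow, div_pow, chb_sq, ← add_div, one_pow, add_comm, div_self (by positivity)]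

private theorem chb_eq (x y : OnePoint ℂ) :
    chord x y = ‖(chb_r x).1 * (chb_r y).2 - (chb_r y).1 * (chb_r x).2‖ := by
  induction x using OnePoint.rec with
  | infty =>
    induction y using OnePoint.rec with
    | infty =>
      change (0 : ℝ) = ‖(1 : ℂ) * 0 - 1 * 0‖
      simp
    | coe w =>
      change 1 / √(1 + ‖w‖ ^ 2) = ‖(1 : ℂ) * (1 / ((√(1 + ‖w‖ ^ 2) : ℝ) : ℂ)) -
        w / ((√(1 + ‖w‖ ^ 2) : ℝ) : ℂ) * 0‖
      rw [mul_zero, sub_zero, one_mul, norm_div, norm_one, Complex.norm_real, Real.norm_eq_abs,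
        abs_of_pos (chb_s w)]
  | coe z =>
    induction y using OnePoint.rec with
    | infty =>
      change 1 / √(1 + ‖z‖ ^ 2) = ‖z / ((√(1 + ‖z‖ ^ 2) : ℝ) : ℂ) * 0 -
        (1 : ℂ) * (1 / ((√(1 + ‖z‖ ^ 2) : ℝ) : ℂ))‖
      rw [mul_zero, zero_sub, norm_neg, one_mul, norm_div, norm_one, Complex.norm_real,
        Real.norm_eq_abs, abs_of_pos (chb_s z)]
    | coe w =>
      change ‖z - w‖ / (√(1 + ‖z‖ ^ 2) * √(1 + ‖w‖ ^ 2)) =
        ‖z / ((√(1 + ‖z‖ ^ 2) : ℝ) : ℂ) * (1 / ((√(1 + ‖w‖ ^ 2) : ℝ) : ℂ)) -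
        w / ((√(1 + ‖w‖ ^ 2) : ℝ) : ℂ) * (1 / ((√(1 + ‖z‖ ^ 2) : ℝ) : ℂ))‖
      have h1 : z / ((√(1 + ‖z‖ ^ 2) : ℝ) : ℂ) * (1 / ((√(1 + ‖w‖ ^ 2) : ℝ) : ℂ)) -
          w / ((√(1 + ‖w‖ ^ 2) : ℝ) : ℂ) * (1 / ((√(1 + ‖z‖ ^ 2) : ℝ) : ℂ)) =
          (z - w) / (((√(1 + ‖z‖ ^ 2) * √(1 + ‖w‖ ^ 2) : ℝ)) : ℂ) := by
        have h2 : ((√(1 + ‖z‖ ^ 2) : ℝ) : ℂ) ≠ 0 := by exact_mod_cast (chb_s z).ne'
        have h3 : ((√(1 + ‖w‖ ^ 2) : ℝ) : ℂ) ≠ 0 := by exact_mod_cast (chb_s w).ne'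
        rw [Complex.ofReal_mul]
        field_simp
      rw [h1, norm_div, Complex.norm_real, Real.norm_eq_abs,
        abs_of_pos (mul_pos (chb_s z) (chb_s w))]

private theorem chb_inner {v w : ℂ × ℂ} (hv : ‖v.1‖ ^ 2 + ‖v.2‖ ^ 2 = 1)
    (hw : ‖w.1‖ ^ 2 + ‖w.2‖ ^ 2 = 1) :
    ‖v.1 * (starRingEnd ℂ) w.1 + v.2 * (starRingEnd ℂ) w.2‖ ≤ 1 := by
  calc ‖v.1 * (starRingEnd ℂ) w.1 + v.2 * (starRingEnd ℂ) w.2‖ ≤ ‖v.1‖ * ‖w.1‖ + ‖v.2‖ * ‖w.2‖ := by
        refine (norm_add_le _ _).trans ?_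
        rw [norm_mul, norm_mul, RCLike.norm_conj, RCLike.norm_conj]
    _ ≤ 1 := by nlinarith [sq_nonneg (‖v.1‖ - ‖w.1‖), sq_nonneg (‖v.2‖ - ‖w.2‖)]

theorem ch_tri (x y z : OnePoint ℂ) : chord x z ≤ chord x y + chord y z := by
  have hu := chb_unit x
  have hv := chb_unit y
  have hw := chb_unit z
  rw [chb_eq x z, chb_eq x y, chb_eq y z]
  generalize chb_r x = u at hu ⊢
  generalize chb_r y = v at hv ⊢
  generalize chb_r z = w at hw ⊢
  have hvv : v.1 * (starRingEnd ℂ) v.1 + v.2 * (starRingEnd ℂ) v.2 = 1 := by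
    rw [Complex.mul_conj, Complex.mul_conj, Complex.normSq_eq_norm_sq, Complex.normSq_eq_norm_sq]
    exact_mod_cast hv
  have key : u.1 * w.2 - w.1 * u.2 =
      (u.1 * (starRingEnd ℂ) v.1 + u.2 * (starRingEnd ℂ) v.2) * (v.1 * w.2 - w.1 * v.2)
      + (w.1 * (starRingEnd ℂ) v.1 + w.2 * (starRingEnd ℂ) v.2) * (u.1 * v.2 - v.1 * u.2) := by
    linear_combination -(u.1 * w.2 - w.1 * u.2) * hvv
  rw [key]
  calc _ ≤ ‖u.1 * (starRingEnd ℂ) v.1 + u.2 * (starRingEnd ℂ) v.2‖ * ‖v.1 * w.2 - w.1 * v.2‖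
        + ‖w.1 * (starRingEnd ℂ) v.1 + w.2 * (starRingEnd ℂ) v.2‖ * ‖u.1 * v.2 - v.1 * u.2‖ := by
        refine (norm_add_le _ _).trans ?_
        rw [norm_mul, norm_mul]
    _ ≤ 1 * ‖v.1 * w.2 - w.1 * v.2‖ + 1 * ‖u.1 * v.2 - v.1 * u.2‖ := by
        gcongr
        · exact chb_inner hu hv
        · exact chb_inner hw hv
    _ = _ := by ring

private theorem chb_cont (x : OnePoint ℂ) : Continuous fun y => chord x y :=
  chord_cont.comp (Continuous.prodMk continuous_const continuous_id)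

theorem ch_open (x : OnePoint ℂ) (ε : ℝ) : IsOpen {y | chord x y < ε} :=
  isOpen_lt (chb_cont x) continuous_const

theorem ch_ball (x : OnePoint ℂ) {ε : ℝ} (hε : 0 < ε) : {y | chord x y < ε} ∈ 𝓝 x := by
  refine (ch_open x ε).mem_nhds ?_
  show chord x x < ε
  rw [chord_zero]
  exact hε

theorem ch_nhds {x : OnePoint ℂ} {U : Set (OnePoint ℂ)} (hU : U ∈ 𝓝 x) :
    ∃ ε : ℝ, 0 < ε ∧ ∀ y, chord x y < ε → y ∈ U := by
  have hK : IsCompact ((interior U)ᶜ) := isOpen_interior.isClosed_compl.isCompact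
  by_cases hne : ((interior U)ᶜ).Nonempty
  · obtain ⟨y0, hy0, hmin⟩ := hK.exists_isMinOn hne (chb_cont x).continuousOn
    have hx : x ∈ interior U := mem_interior_iff_mem_nhds.2 hU
    have hxy : x ≠ y0 := by
      rintro rfl
      exact hy0 hx
    refine ⟨chord x y0, chord_pos hxy, fun y hy => ?_⟩
    by_contra hyU
    have h1 : y ∈ (interior U)ᶜ := fun h => hyU (interior_subset h)
    have h2 : chord x y0 ≤ chord x y := hmin h1
    linarith
  · refine ⟨1, one_pos, fun y _ => ?_⟩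
    by_contra hyU
    exact hne ⟨y, fun h => hyU (interior_subset h)⟩

theorem ch_tend {α : Type*} {l : Filter α} {u : α → OnePoint ℂ} {x : OnePoint ℂ} :
    Tendsto u l (𝓝 x) ↔ ∀ ε : ℝ, 0 < ε → ∀ᶠ a in l, chord x (u a) < ε := by
  constructor
  · intro h ε hε
    exact h (ch_ball x hε)
  · intro h U hU
    obtain ⟨ε, hε, hεU⟩ := ch_nhds hU
    exact (h ε hε).mono fun a ha => hεU _ ha

theorem ch_uc {f : OnePoint ℂ → OnePoint ℂ} (hf : Continuous f) {κ : ℝ} (hκ : 0 < κ) :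
    ∃ δ : ℝ, 0 < δ ∧ ∀ x y, chord x y < δ → chord (f x) (f y) < κ := by
  have hc : Continuous fun p : OnePoint ℂ × OnePoint ℂ => chord (f p.1) (f p.2) :=
    chord_cont.comp ((hf.comp continuous_fst).prodMk (hf.comp continuous_snd))
  have hK : IsCompact {p : OnePoint ℂ × OnePoint ℂ | κ ≤ chord (f p.1) (f p.2)} :=
    (isClosed_le continuous_const hc).isCompact
  by_cases hne : {p : OnePoint ℂ × OnePoint ℂ | κ ≤ chord (f p.1) (f p.2)}.Nonempty
  · obtain ⟨p0, hp0, hmin⟩ := hK.exists_isMinOn hne chord_cont.continuousOn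
    have hne' : p0.1 ≠ p0.2 := by
      intro h
      have h1 : κ ≤ chord (f p0.1) (f p0.2) := hp0
      rw [h, chord_zero] at h1
      linarith
    refine ⟨chord p0.1 p0.2, chord_pos hne', fun x y hxy => ?_⟩
    by_contra h
    rw [not_lt] at h
    have h2 : chord p0.1 p0.2 ≤ chord x y :=
      hmin (show ((x, y) : OnePoint ℂ × OnePoint ℂ) ∈
        {p : OnePoint ℂ × OnePoint ℂ | κ ≤ chord (f p.1) (f p.2)} from h)
    linarith
  · refine ⟨1, one_pos, fun x y _ => ?_⟩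
    by_contra h
    rw [not_lt] at h
    exact hne ⟨(x, y), h⟩

theorem ch_seq (u : ℕ → OnePoint ℂ) :
    ∃ (x : OnePoint ℂ) (σ : ℕ → ℕ), StrictMono σ ∧ Tendsto (u ∘ σ) atTop (𝓝 x) := by
  obtain ⟨x, hx⟩ := exists_clusterPt_of_compactSpace (map u atTop)
  have hx' : MapClusterPt x atTop u := hx
  have h1 : ∀ k : ℕ, ∃ᶠ n in atTop, chord x (u n) < 1 / ((k : ℝ) + 1) := fun k =>
    hx'.frequently (ch_ball x (by positivity))
  obtain ⟨σ, hσ, hσ'⟩ := extraction_forall_of_frequently h1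
  refine ⟨x, σ, hσ, ch_tend.2 fun ε hε => ?_⟩
  obtain ⟨k, hk⟩ := exists_nat_one_div_lt hε
  filter_upwards [eventually_ge_atTop k] with n hn
  refine (hσ' n).trans (lt_of_le_of_lt ?_ hk)
  have h2 : (k : ℝ) ≤ n := by exact_mod_cast hn
  have h3 : (0 : ℝ) < (k : ℝ) + 1 := by positivity
  exact one_div_le_one_div_of_le h3 (by linarith)

theorem ch_dense : ∃ D : Set (OnePoint ℂ), D.Countable ∧ Dense D := by
  obtain ⟨D, hD, hD'⟩ := TopologicalSpace.exists_countable_dense ℂ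
  exact ⟨(fun z : ℂ => (z : OnePoint ℂ)) '' D, hD.image _,
    OnePoint.denseRange_coe.dense_image OnePoint.continuous_coe hD'⟩

end Pool.Agent.H47.RJ
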