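import Pool.Agent.H47.RJ.FJD
import Pool.Agent.H47.RJ.CHB
import Pool.Agent.H47.NN.FIN

/-!
# Module REP: without neutral cycles every periodic point is attracting or repelling

PROOF. `nneu_cyc` (H47/NN/FIN): `a = x 0` is finite, with the finite orbit `x i`, `Cyc (pol v.1) (pol v.2) p x m`, `‖m‖ ≠ 1`. Near `x 0` all `z` have finite orbits up to time `p` close to the `x i` (`(pol v.2).eval (x i) ≠ 0`): `(Rf v)^[p] z = Φ z` with `Φ = it v p` (`rat_it`, H79/Par/It) analytic near `x 0`, `Φ (x 0) = x 0`, derivative `m` at `x 0` (chain rule: the factors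
are `Wr / (pol v.2)^2` at `x i`; `tr_hasDerivAt`, `trD`, H32/BT/Trap, `wv`).
Chordal distance: `chord (x 0) z = ‖x 0 - z‖ / (√(1 + ‖x 0‖ ^ 2) √(1 + ‖z‖ ^ 2))`, so for `z, z'` tending to `x 0` the quotient of `chord (x 0) z / chord (x 0) z'` and `‖z - x 0‖ / ‖z' - x 0‖` tends to 1.
(1) `‖m‖ < 1`: choose `‖m‖ < κ < 1`: `‖Φ z - x 0‖ ≤ κ ‖z - x 0‖` on `ball (x 0) r`. So `(Rf v)^[p * k] z → a` there: `IsSink (Rf v) a p`. And `a ∈ FS`: for `z` in the ball and `n = p k + i`, `i < p`: `(Rf v)^[n] z = (Rf v)^[i] (point within κ^k r of a)`, so (uniform continuity of the `(Rf v)^[i]`, `ch_uc`) the iterates `(Rf v)^[n] z` and `(Rf v)^[n] z'` are close for all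
large `n`, uniformly in `z, z'` in the ball, and for the finitely many other `n` by continuity: `EqAt` on the ball.
(2) `‖m‖ > 1`: `Φ` has a local inverse (`HasStrictDerivAt.localInverse` / `toOpenPartialHomeomorph`; `Φ` is analytic so strictly differentiable) with derivative `1 / m` at `x 0`; choose `1 / ‖m‖ < κ < 1`; on a small disc `‖g0 z - x 0‖ ≤ κ' ‖z - x 0‖`, `κ' < κ`. Put `g z = g0 z` for finite `z` near `x 0`, `g = id` elsewhere, and `ρ` so small that the chordal disc of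
radius `ρ` about `a` is in a disc where all this holds and `Φ` is injective (`left`: `Φ (g (Φ z)) = Φ z`, both `z` and `g (Φ z)` in the injectivity disc).
-/

set_option autoImplicit false

open Filter Topology Polynomial Metric Set

namespace Pool.Agent.H47.RJ

open Pool.Agent.H44.Fatou Pool.Agent.H32.BT Pool.Agent.H79.Eul Pool.Agent.H79.Par
open Pool.Agent.H35.EX Pool.Agent.H44.RR Pool.Agent.H56.HR Pool.Agent.H44.RC

variable {d : ℕ} {v : E d}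

private theorem rp_cz (z w : ℂ) : chord (z : OnePoint ℂ) (w : OnePoint ℂ) =
    ‖z - w‖ / (√(1 + ‖z‖ ^ 2) * √(1 + ‖w‖ ^ 2)) := rfl

private theorem rp_one (z : ℂ) : 1 ≤ √(1 + ‖z‖ ^ 2) := by
  rw [Real.one_le_sqrt]
  have := sq_nonneg ‖z‖
  linarith

private theorem rp_le (z w : ℂ) : chord (z : OnePoint ℂ) (w : OnePoint ℂ) ≤ ‖z - w‖ := by
  rw [rp_cz]
  apply div_le_self (norm_nonneg _)
  exact one_le_mul_of_one_le_of_one_le (rp_one z) (rp_one w)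

private theorem rp_lip {Φ : ℂ → ℂ} {m x0 : ℂ} (h : HasStrictDerivAt Φ m x0) {κ : ℝ}
    (hκ : ‖m‖ < κ) : ∃ s ∈ 𝓝 x0, (∀ z ∈ s, ‖Φ z - Φ x0‖ ≤ κ * ‖z - x0‖) ∧ ContinuousOn Φ s := by
  have h0 : 0 ≤ κ := (norm_nonneg m).trans hκ.le
  have h1 := h.hasStrictFDerivAt
  have h2 : ‖ContinuousLinearMap.toSpanSingleton ℂ m‖₊ < (⟨κ, h0⟩ : NNReal) := by
    rw [← NNReal.coe_lt_coe, coe_nnnorm, ContinuousLinearMap.norm_toSpanSingleton]
    exact hκ
  obtain ⟨s, hs, hl⟩ := h1.exists_lipschitzOnWith_of_nnnorm_lt _ h2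
  refine ⟨s, hs, fun z hz => ?_, hl.continuousOn⟩
  have h3 := hl.dist_le_mul z hz x0 (mem_of_mem_nhds hs)
  rw [dist_eq_norm, dist_eq_norm] at h3
  exact h3

private theorem rp_uc {f : OnePoint ℂ → OnePoint ℂ} (hf : Continuous f) {ε : ℝ} (hε : 0 < ε) (N : ℕ) :
    ∃ δ : ℝ, 0 < δ ∧ ∀ i < N, ∀ x y, chord x y < δ → chord (f^[i] x) (f^[i] y) < ε := by
  induction N with
  | zero => exact ⟨1, one_pos, fun i hi => absurd hi (Nat.not_lt_zero i)⟩
  | succ N ih =>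
    obtain ⟨δ, hδ, h⟩ := ih
    obtain ⟨δ', hδ', h'⟩ := ch_uc (hf.iterate N) hε
    refine ⟨min δ δ', lt_min hδ hδ', fun i hi x y hxy => ?_⟩
    rcases Nat.lt_succ_iff_lt_or_eq.1 hi with h1 | h1
    · exact h i h1 x y (lt_of_lt_of_le hxy (min_le_left _ _))
    · rw [h1]
      exact h' x y (lt_of_lt_of_le hxy (min_le_right _ _))

private theorem rp_att {f : OnePoint ℂ → OnePoint ℂ} (hf : Continuous f) {p : ℕ} (hp : 0 < p)
    {x0 : ℂ} {Φ : ℂ → ℂ} {κ r : ℝ} (hκ0 : 0 ≤ κ) (hκ1 : κ < 1) (hr : 0 < r)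
    (hΦ : ∀ z ∈ ball x0 r, f^[p] (z : OnePoint ℂ) = (Φ z : OnePoint ℂ))
    (hc : ∀ z ∈ ball x0 r, ‖Φ z - x0‖ ≤ κ * ‖z - x0‖)
    (hfix : f^[p] (x0 : OnePoint ℂ) = (x0 : OnePoint ℂ)) :
    IsSink f (x0 : OnePoint ℂ) p ∧ (x0 : OnePoint ℂ) ∈ FS f := by
  have hit : ∀ (k : ℕ) (z : ℂ), z ∈ ball x0 r →
      ∃ w : ℂ, f^[p * k] (z : OnePoint ℂ) = (w : OnePoint ℂ) ∧ ‖w - x0‖ ≤ κ ^ k * ‖z - x0‖ := by
    intro k z hz
    induction k with
    | zero => exact ⟨z, rfl, by rw [pow_zero, one_mul]⟩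
    | succ k ih =>
      obtain ⟨w, hw, hw'⟩ := ih
      have hwb : w ∈ ball x0 r := by
        rw [mem_ball, dist_eq_norm] at hz ⊢
        have h1 : κ ^ k * ‖z - x0‖ ≤ 1 * ‖z - x0‖ :=
          mul_le_mul_of_nonneg_right (pow_le_one₀ hκ0 hκ1.le) (norm_nonneg _)
        linarith
      refine ⟨Φ w, ?_, ?_⟩
      · rw [Nat.mul_succ, Nat.add_comm, Function.iterate_add_apply, hw, hΦ w hwb]
      · refine (hc w hwb).trans ?_
        rw [pow_succ]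
        have := mul_le_mul_of_nonneg_left hw' hκ0
        linarith
  have hch : ∀ (k : ℕ) (z : ℂ), z ∈ ball x0 r →
      chord (x0 : OnePoint ℂ) (f^[p * k] (z : OnePoint ℂ)) ≤ κ ^ k * r := by
    intro k z hz
    obtain ⟨w, hw, hw'⟩ := hit k z hz
    rw [hw]
    refine (rp_le x0 w).trans ?_
    rw [norm_sub_rev]
    refine hw'.trans ?_
    rw [mem_ball, dist_eq_norm] at hz
    exact mul_le_mul_of_nonneg_left hz.le (pow_nonneg hκ0 k)
  have hlim : Tendsto (fun k : ℕ => κ ^ k * r) atTop (𝓝 0) := by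
    have h1 := (tendsto_pow_atTop_nhds_zero_of_lt_one hκ0 hκ1).mul_const r
    rwa [zero_mul] at h1
  constructor
  · refine ⟨hp, hfix, (fun z : ℂ => (z : OnePoint ℂ)) '' ball x0 r, ?_, ?_⟩
    · rw [OnePoint.nhds_coe_eq]
      exact image_mem_map (ball_mem_nhds x0 hr)
    · rintro _ ⟨z, hz, rfl⟩
      rw [ch_tend]
      intro ε hε
      filter_upwards [hlim.eventually_lt_const hε] with k hk
      exact lt_of_le_of_lt (hch k z hz) hk
  · refine mem_interior.2 ⟨(fun z : ℂ => (z : OnePoint ℂ)) '' ball x0 r, ?_,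
      OnePoint.isOpen_image_coe.2 isOpen_ball, ⟨x0, mem_ball_self hr, rfl⟩⟩
    rintro _ ⟨z, hz, rfl⟩
    intro ε hε
    obtain ⟨δ, hδ, huc⟩ := rp_uc hf hε p
    obtain ⟨k0, hk0⟩ := eventually_atTop.1 (hlim.eventually_lt_const (half_pos hδ))
    have h1 : ∀ᶠ y in 𝓝 (z : OnePoint ℂ), ∀ n ∈ Finset.range (p * k0),
        chord (f^[n] (z : OnePoint ℂ)) (f^[n] y) < ε := by
      rw [Filter.eventually_all_finset]
      intro n _
      exact ch_tend.1 ((hf.iterate n).tendsto (z : OnePoint ℂ)) ε hε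
    have h2 : (fun z : ℂ => (z : OnePoint ℂ)) '' ball x0 r ∈ 𝓝 (z : OnePoint ℂ) := by
      rw [OnePoint.nhds_coe_eq]
      exact image_mem_map (isOpen_ball.mem_nhds hz)
    filter_upwards [h1, h2] with y hy1 hy2 n
    obtain ⟨w, hw, rfl⟩ := hy2
    by_cases hn : n < p * k0
    · exact hy1 n (Finset.mem_range.2 hn)
    · have hn1 : n = n % p + p * (n / p) := (Nat.mod_add_div n p).symm
      have hk : k0 ≤ n / p := by
        rw [Nat.le_div_iff_mul_le hp, Nat.mul_comm]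
        omega
      rw [hn1, Function.iterate_add_apply, Function.iterate_add_apply]
      refine huc (n % p) (Nat.mod_lt n hp) _ _ ?_
      have h3 := hch (n / p) z hz
      have h4 := hch (n / p) w hw
      have h5 := hk0 (n / p) hk
      have h6 := ch_tri (f^[p * (n / p)] (z : OnePoint ℂ)) (x0 : OnePoint ℂ)
        (f^[p * (n / p)] (w : OnePoint ℂ))
      rw [chord_comm (f^[p * (n / p)] (z : OnePoint ℂ)) (x0 : OnePoint ℂ)] at h6
      linarith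

private theorem rp_rep {G : OnePoint ℂ → OnePoint ℂ} {x0 m : ℂ} {Φ : ℂ → ℂ}
    (hG : ∀ᶠ z : ℂ in 𝓝 x0, G (z : OnePoint ℂ) = (Φ z : OnePoint ℂ))
    (hΦ : HasStrictDerivAt Φ m x0) (hfix : Φ x0 = x0) (hm : 1 < ‖m‖) :
    ∃ (ρ κ : ℝ) (g : OnePoint ℂ → OnePoint ℂ), Rep G (x0 : OnePoint ℂ) ρ κ g := by
  have hm0 : m ≠ 0 := by
    intro h
    rw [h, norm_zero] at hm
    linarith
  have hL := hΦ.eventually_left_inverse hm0
  have hR := hΦ.eventually_right_inverse hm0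
  have hD := hΦ.to_localInverse hm0
  rw [hfix] at hR hD
  set g0 : ℂ → ℂ := hΦ.localInverse Φ m x0 hm0 with hg0
  have hg00 : g0 x0 = x0 := by
    have h1 := hL.self_of_nhds
    rwa [hfix] at h1
  have hinv : ‖m⁻¹‖ < 1 := by
    rw [norm_inv]
    exact inv_lt_one_of_one_lt₀ hm
  obtain ⟨κ', hκ1, hκ2⟩ := exists_between hinv
  obtain ⟨κ, hκ3, hκ4⟩ := exists_between hκ2
  have hκ0 : 0 ≤ κ' := (norm_nonneg _).trans hκ1.le
  obtain ⟨s, hs, hs1, hs2⟩ := rp_lip hD hκ1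
  rw [hg00] at hs1
  have hgc : ContinuousAt g0 x0 := hD.hasDerivAt.continuousAt
  have hgt : Tendsto g0 (𝓝 x0) (𝓝 x0) := by
    have := hgc.tendsto
    rwa [hg00] at this
  have hsq : ∀ᶠ z in 𝓝 x0, κ' * √(1 + ‖z‖ ^ 2) < κ * √(1 + ‖g0 z‖ ^ 2) := by
    have h1 : Tendsto (fun z : ℂ => κ' * √(1 + ‖z‖ ^ 2)) (𝓝 x0) (𝓝 (κ' * √(1 + ‖x0‖ ^ 2))) := by
      have : Continuous fun z : ℂ => κ' * √(1 + ‖z‖ ^ 2) := by fun_prop
      exact this.tendsto x0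
    have h2 : Tendsto (fun z : ℂ => κ * √(1 + ‖g0 z‖ ^ 2)) (𝓝 x0) (𝓝 (κ * √(1 + ‖x0‖ ^ 2))) := by
      have : Continuous fun z : ℂ => κ * √(1 + ‖z‖ ^ 2) := by fun_prop
      exact (this.tendsto x0).comp hgt
    have h3 : κ' * √(1 + ‖x0‖ ^ 2) < κ * √(1 + ‖x0‖ ^ 2) :=
      mul_lt_mul_of_pos_right hκ3 (Real.sqrt_pos.2 (by positivity))
    exact h1.eventually_lt h2 h3
  have hsn : ∀ᶠ z in 𝓝 x0, s ∈ 𝓝 z := eventually_mem_nhds_iff.2 hs
  have hall : ∀ᶠ z : ℂ in 𝓝 x0, G (z : OnePoint ℂ) = (Φ z : OnePoint ℂ) ∧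
      G (g0 z : OnePoint ℂ) = (Φ (g0 z) : OnePoint ℂ) ∧ Φ (g0 z) = z ∧ g0 (Φ z) = z ∧
      ‖g0 z - x0‖ ≤ κ' * ‖z - x0‖ ∧ κ' * √(1 + ‖z‖ ^ 2) < κ * √(1 + ‖g0 z‖ ^ 2) ∧
      ContinuousAt g0 z := by
    filter_upwards [hG, hgt.eventually hG, hR, hL, hs, hsq, hsn] with z h1 h2 h3 h4 h5 h6 h7
    exact ⟨h1, h2, h3, h4, hs1 z h5, h6, hs2.continuousAt h7⟩
  have hU : (fun z : ℂ => (z : OnePoint ℂ)) '' {z : ℂ | G (z : OnePoint ℂ) = (Φ z : OnePoint ℂ) ∧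
      G (g0 z : OnePoint ℂ) = (Φ (g0 z) : OnePoint ℂ) ∧ Φ (g0 z) = z ∧ g0 (Φ z) = z ∧
      ‖g0 z - x0‖ ≤ κ' * ‖z - x0‖ ∧ κ' * √(1 + ‖z‖ ^ 2) < κ * √(1 + ‖g0 z‖ ^ 2) ∧
      ContinuousAt g0 z} ∈ 𝓝 (x0 : OnePoint ℂ) := by
    rw [OnePoint.nhds_coe_eq]
    exact image_mem_map hall
  obtain ⟨ρ, hρ, hρU⟩ := ch_nhds hU
  refine ⟨ρ, κ, OnePoint.map g0, ?_⟩
  refine ⟨hρ, by linarith, hκ4, ?_, ?_, ?_, ?_, ?_⟩
  · have h1 := hG.self_of_nhds
    rw [hfix] at h1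
    exact h1
  · intro x hx
    obtain ⟨z, ⟨-, -, -, -, h5, h6, -⟩, rfl⟩ := hρU x hx
    show chord (x0 : OnePoint ℂ) (g0 z : OnePoint ℂ) ≤ κ * chord (x0 : OnePoint ℂ) (z : OnePoint ℂ)
    rw [rp_cz, rp_cz, norm_sub_rev x0 (g0 z), norm_sub_rev x0 z]
    have e0 : 0 < √(1 + ‖x0‖ ^ 2) := by have := rp_one x0; linarith
    have e1 : 0 < √(1 + ‖z‖ ^ 2) := by have := rp_one z; linarith
    have e2 : 0 < √(1 + ‖g0 z‖ ^ 2) := by have := rp_one (g0 z); linarith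
    rw [div_le_iff₀ (mul_pos e0 e2)]
    have e3 : κ * (‖z - x0‖ / (√(1 + ‖x0‖ ^ 2) * √(1 + ‖z‖ ^ 2))) *
        (√(1 + ‖x0‖ ^ 2) * √(1 + ‖g0 z‖ ^ 2)) =
        ‖z - x0‖ * (κ * √(1 + ‖g0 z‖ ^ 2)) / √(1 + ‖z‖ ^ 2) := by
      field_simp
    rw [e3, le_div_iff₀ e1]
    have e4 := mul_le_mul_of_nonneg_left h6.le (norm_nonneg (z - x0))
    have e5 := mul_le_mul_of_nonneg_right h5 e1.le
    nlinarith
  · intro x hx
    obtain ⟨z, ⟨-, h2, h3, -, -, -, -⟩, rfl⟩ := hρU x hx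
    show G (g0 z : OnePoint ℂ) = (z : OnePoint ℂ)
    rw [h2, h3]
  · intro x hx _
    obtain ⟨z, ⟨h1, -, -, h4, -, -, -⟩, rfl⟩ := hρU x hx
    show OnePoint.map g0 (G (z : OnePoint ℂ)) = (z : OnePoint ℂ)
    rw [h1]
    show (g0 (Φ z) : OnePoint ℂ) = (z : OnePoint ℂ)
    rw [h4]
  · intro x hx
    obtain ⟨z, ⟨-, -, -, -, -, -, h7⟩, rfl⟩ := hρU x hx
    apply ContinuousAt.continuousWithinAt
    show ContinuousAt (OnePoint.map g0) (z : OnePoint ℂ)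
    rw [OnePoint.continuousAt_coe]
    exact (OnePoint.continuous_coe.continuousAt).comp h7

theorem att_or_rep_c (hcop : IsCoprime (pol v.1) (pol v.2))
    {p : ℕ} (hp : 0 < p) {a : OnePoint ℂ} (ha : (Rf v)^[p] a = a) {x : ℕ → ℂ} {m : ℂ}
    (hx : ∀ i, (Rf v)^[i] a = (x i : OnePoint ℂ))
    (hc : Pool.Agent.H47.NN.Cyc (pol v.1) (pol v.2) p x m) (hm : ‖m‖ ≠ 1) :
    (IsSink (Rf v) a p ∧ a ∈ FS (Rf v)) ∨
      ∃ (ρ κ : ℝ) (g : OnePoint ℂ → OnePoint ℂ), Rep (Rf v)^[p] a ρ κ g := by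
  have ha0 : a = (x 0 : OnePoint ℂ) := hx 0
  have ho : Orb v x p := by
    intro j hj
    refine ⟨?_, ?_⟩
    · rw [← pol_eval]
      exact hc.ne j hj
    · rw [← pol_eval, ← pol_eval]
      exact hc.step j hj
  have hnear : ∀ᶠ z : ℂ in 𝓝 (x 0), ∀ j < p, ev v.2 (it v j z) ≠ 0 := by
    have h1 : Tendsto (fun z : ℂ => ((v, z) : E d × ℂ)) (𝓝 (x 0)) (𝓝 (v, x 0)) :=
      (Continuous.prodMk continuous_const continuous_id).tendsto (x 0)
    exact h1.eventually (orb_near ho)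
  have hG : ∀ᶠ z : ℂ in 𝓝 (x 0), (Rf v)^[p] (z : OnePoint ℂ) = ((it v p z : ℂ) : OnePoint ℂ) := by
    filter_upwards [hnear] with z hz
    exact rat_it hz
  have hmul : trD v p (x 0) = m := by
    rw [← hc.mul]
    unfold trD
    refine Finset.prod_congr rfl fun i hi => ?_
    rw [orb_it ho i (Finset.mem_range.1 hi).le, pol_eval]
    congr 1
    have h1 := wv_cf (pol_deg v.1) (pol_deg v.2) (x i)
    rw [cf_pol, cf_pol] at h1
    exact h1
  have hder : ∀ᶠ z : ℂ in 𝓝 (x 0), HasDerivAt (fun z => it v p z) (trD v p z) z := by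
    filter_upwards [hnear] with z hz
    exact tr_hasDerivAt v z p hz
  have han : AnalyticAt ℂ (fun z => it v p z) (x 0) :=
    Complex.analyticAt_iff_eventually_differentiableAt.2 (hder.mono fun z hz => hz.differentiableAt)
  have hst : HasStrictDerivAt (fun z => it v p z) m (x 0) := by
    have h1 := han.hasStrictDerivAt
    rwa [hder.self_of_nhds.deriv, hmul] at h1
  have hfix : it v p (x 0) = x 0 := by
    rw [orb_it ho p le_rfl]
    exact hc.per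
  rcases lt_or_gt_of_ne hm with hm1 | hm1
  · left
    obtain ⟨κ, hκ1, hκ2⟩ := exists_between hm1
    obtain ⟨s, hs, hs1, -⟩ := rp_lip hst hκ1
    obtain ⟨r, hr, hr1⟩ := Metric.eventually_nhds_iff_ball.1 (hG.and hs)
    rw [ha0]
    refine rp_att (rat_continuous hcop) hp ((norm_nonneg m).trans hκ1.le) hκ2 hr
      (fun z hz => (hr1 z hz).1) (fun z hz => ?_) ?_
    · have h1 := hs1 z (hr1 z hz).2
      rw [hfix] at h1
      exact h1
    · rw [← ha0]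
      exact ha
  · right
    rw [ha0]
    exact rp_rep hG hst hfix hm1

theorem att_or_rep (hd : 1 ≤ d) (hcop : IsCoprime (pol v.1) (pol v.2))
    (hdeg : max (pol v.1).natDegree (pol v.2).natDegree = d) (hN : Pool.Agent.H47.NN.NNeu v)
    {p : ℕ} (hp : 0 < p) {a : OnePoint ℂ} (ha : (Rf v)^[p] a = a) :
    (IsSink (Rf v) a p ∧ a ∈ FS (Rf v)) ∨
      ∃ (ρ κ : ℝ) (g : OnePoint ℂ → OnePoint ℂ), Rep (Rf v)^[p] a ρ κ g := by
  obtain ⟨x, m, hx, hc, hm⟩ := Pool.Agent.H47.NN.nneu_cyc hN hp ha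
  exact att_or_rep_c hcop hp ha hx hc hm

/-- every cycle is attracting or repelling -/
def AR {d : ℕ} (v : E d) : Prop :=
  ∀ p : ℕ, 0 < p → ∀ a : OnePoint ℂ, (Rf v)^[p] a = a → (IsSink (Rf v) a p ∧ a ∈ FS (Rf v)) ∨
    ∃ (ρ κ : ℝ) (g : OnePoint ℂ → OnePoint ℂ), Rep (Rf v)^[p] a ρ κ g

theorem ar_of_nneu (hd : 1 ≤ d) (hcop : IsCoprime (pol v.1) (pol v.2))
    (hdeg : max (pol v.1).natDegree (pol v.2).natDegree = d) (hN : Pool.Agent.H47.NN.NNeu v) :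
    AR v :=
  fun _ hp _ ha => att_or_rep hd hcop hdeg hN hp ha

/-- a repelling fixed point has no other fixed point near it -/
theorem rep_iso {G g : OnePoint ℂ → OnePoint ℂ} {a x : OnePoint ℂ} {ρ κ : ℝ}
    (h : Rep G a ρ κ g) (hx : chord a x < ρ) (hf : G x = x) : x = a := by
  have h1 : g (G x) = x := h.left x hx (by rw [hf]; exact hx)
  rw [hf] at h1
  have h2 := h.contr x hx
  rw [h1] at h2
  have h3 := chord_nn a x
  have h4 : chord a x = 0 := by nlinarith [h.hκ1]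
  exact (chord_eqz h4).symm

end Pool.Agent.H47.RJ
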