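import Pool.Agent.H44.RC.RCD

/-!
# Module CHI: the chordal distance in the charts `z` and `1 / z`

PROOF. First (private lemma) `chord (io τ a) (io τ b) = ‖a - b‖ / (√(1 + ‖a‖ ^ 2) * √(1 + ‖b‖ ^ 2))` for both `τ`: for `τ = true` this is the definition; for `τ = false`, `io false z = recip z` (`∞` if `z = 0`, `z⁻¹` otherwise): `a = b = 0`: both sides 0; `a = 0 ≠ b`: `chord ∞ b⁻¹ = 1 / √(1 + ‖b‖⁻¹ ^ 2) = ‖b‖ / √(1 + ‖b‖ ^ 2)`; both nonzero:
`‖a⁻¹ - b⁻¹‖ = ‖a - b‖ / (‖a‖ ‖b‖)`, `√(1 + ‖a‖⁻¹ ^ 2) = √(1 + ‖a‖ ^ 2) / ‖a‖`.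
`ch_io_le`: both roots are `≥ 1`. `ch_io_ge`: `√2 * √5 ≤ 4`. `ch_io_ex`: the only point outside the range of `io τ` is the pole (`∞` for `τ = true`, `0` for `τ = false`), at chordal distance `1 / √(1 + ‖a‖ ^ 2) ≥ 1 / √2 > 1 / 10` from `io τ a`; for `y = io τ b` with `‖b‖ > 2`: `‖a - b‖ ≥ ‖b‖ - 1 ≥ ‖b‖ / 2`,
`√(1 + ‖b‖ ^ 2) ≤ 2 ‖b‖`, `√(1 + ‖a‖ ^ 2) ≤ 2`, so the distance is at least `1 / 8 > 1 / 10`.
-/

set_option autoImplicit false

open Filter Topology Polynomial Metric Set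

namespace Pool.Agent.H47.RJ

open Pool.Agent.H44.Fatou Pool.Agent.H32.BT Pool.Agent.H79.Eul Pool.Agent.H79.Par
open Pool.Agent.H35.EX Pool.Agent.H44.RR Pool.Agent.H56.HR Pool.Agent.H44.RC

private theorem chi_pos (z : ℂ) : 0 < √(1 + ‖z‖ ^ 2) := Real.sqrt_pos.2 (by positivity)

private theorem chi_cc (z w : ℂ) : chord (z : OnePoint ℂ) (w : OnePoint ℂ) =
    ‖z - w‖ / (√(1 + ‖z‖ ^ 2) * √(1 + ‖w‖ ^ 2)) := rfl

private theorem chi_ic (w : ℂ) : chord (OnePoint.infty : OnePoint ℂ) (w : OnePoint ℂ) =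
    1 / √(1 + ‖w‖ ^ 2) := rfl

private theorem chi_ci (w : ℂ) : chord (w : OnePoint ℂ) (OnePoint.infty : OnePoint ℂ) =
    1 / √(1 + ‖w‖ ^ 2) := rfl

private theorem chi_ii : chord (OnePoint.infty : OnePoint ℂ) OnePoint.infty = 0 := rfl

private theorem chi_sq {b : ℂ} (hb : b ≠ 0) : √(1 + ‖b⁻¹‖ ^ 2) = √(1 + ‖b‖ ^ 2) / ‖b‖ := by
  have hb' : 0 < ‖b‖ := norm_pos_iff.2 hb
  have h1 : 1 + ‖b⁻¹‖ ^ 2 = (1 + ‖b‖ ^ 2) / ‖b‖ ^ 2 := by
    rw [norm_inv]
    field_simp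
    ring
  rw [h1, Real.sqrt_div (by positivity), Real.sqrt_sq hb'.le]

private theorem chi_r0 : recip 0 = OnePoint.infty := by
  unfold recip
  rw [if_pos rfl]

private theorem chi_r {b : ℂ} (hb : b ≠ 0) : recip b = ((b⁻¹ : ℂ) : OnePoint ℂ) := by
  unfold recip
  rw [if_neg hb]

private theorem chi_f (τ : Bool) (a b : ℂ) : chord (io τ a) (io τ b) =
    ‖a - b‖ / (√(1 + ‖a‖ ^ 2) * √(1 + ‖b‖ ^ 2)) := by
  cases τ with
  | true => rfl
  | false =>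
    show chord (recip a) (recip b) = _
    by_cases ha : a = 0
    · by_cases hb : b = 0
      · rw [ha, hb, chi_r0, chi_ii]
        simp
      · have hb' : 0 < ‖b‖ := norm_pos_iff.2 hb
        rw [ha, chi_r0, chi_r hb, chi_ic, chi_sq hb, zero_sub, norm_neg, norm_zero]
        have h1 : √(1 + (0 : ℝ) ^ 2) = 1 := by norm_num
        rw [h1, one_mul, one_div_div]
    · have ha' : 0 < ‖a‖ := norm_pos_iff.2 ha
      by_cases hb : b = 0
      · rw [hb, chi_r0, chi_r ha, chi_ci, chi_sq ha, sub_zero, norm_zero]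
        have h1 : √(1 + (0 : ℝ) ^ 2) = 1 := by norm_num
        rw [h1, mul_one, one_div_div]
      · have hb' : 0 < ‖b‖ := norm_pos_iff.2 hb
        rw [chi_r ha, chi_r hb, chi_cc, chi_sq ha, chi_sq hb]
        have h1 : a⁻¹ - b⁻¹ = (b - a) / (a * b) := by
          field_simp
        have h2 := chi_pos a
        have h3 := chi_pos b
        rw [h1, norm_div, norm_mul, norm_sub_rev b a]
        field_simp

private theorem chi_one (z : ℂ) : 1 ≤ √(1 + ‖z‖ ^ 2) := by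
  rw [Real.one_le_sqrt]
  have := sq_nonneg ‖z‖
  linarith

private theorem chi_two {z : ℂ} (hz : ‖z‖ ≤ 1) : √(1 + ‖z‖ ^ 2) ≤ 3 / 2 := by
  rw [Real.sqrt_le_left (by norm_num)]
  nlinarith [norm_nonneg z]

theorem ch_io_le (τ : Bool) (a b : ℂ) : chord (io τ a) (io τ b) ≤ ‖a - b‖ := by
  rw [chi_f, div_le_iff₀ (mul_pos (chi_pos a) (chi_pos b))]
  have h1 : 1 ≤ √(1 + ‖a‖ ^ 2) * √(1 + ‖b‖ ^ 2) :=
    one_le_mul_of_one_le_of_one_le (chi_one a) (chi_one b)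
  exact le_mul_of_one_le_right (norm_nonneg _) h1

theorem ch_io_ge (τ : Bool) {a b : ℂ} (ha : ‖a‖ ≤ 1) (hb : ‖b‖ ≤ 2) :
    ‖a - b‖ ≤ 4 * chord (io τ a) (io τ b) := by
  rw [chi_f, ← mul_div_assoc, le_div_iff₀ (mul_pos (chi_pos a) (chi_pos b)), mul_comm 4]
  refine mul_le_mul_of_nonneg_left ?_ (norm_nonneg _)
  have h1 := chi_two ha
  have h2 : √(1 + ‖b‖ ^ 2) ≤ 5 / 2 := by
    rw [Real.sqrt_le_left (by norm_num)]
    nlinarith [norm_nonneg b]
  calc √(1 + ‖a‖ ^ 2) * √(1 + ‖b‖ ^ 2) ≤ 3 / 2 * (5 / 2) :=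
        mul_le_mul h1 h2 (chi_pos b).le (by norm_num)
    _ ≤ 4 := by norm_num

private theorem chi_pole {a : ℂ} (ha : ‖a‖ ≤ 1) : (1 : ℝ) / 10 ≤ 1 / √(1 + ‖a‖ ^ 2) := by
  rw [le_div_iff₀ (chi_pos a)]
  linarith [chi_two ha]

theorem ch_io_ex (τ : Bool) {a : ℂ} (ha : ‖a‖ ≤ 1) {y : OnePoint ℂ}
    (h : chord (io τ a) y < 1 / 10) : ∃ b : ℂ, ‖b‖ ≤ 2 ∧ io τ b = y := by
  have h1 : ∃ b : ℂ, io τ b = y := by
    cases τ with
    | true =>
      induction y using OnePoint.rec with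
      | infty =>
        have h2 : chord (io true a) (OnePoint.infty : OnePoint ℂ) = 1 / √(1 + ‖a‖ ^ 2) := rfl
        rw [h2] at h
        exact absurd (chi_pole ha) (not_le.2 h)
      | coe b => exact ⟨b, rfl⟩
    | false =>
      induction y using OnePoint.rec with
      | infty => exact ⟨0, chi_r0⟩
      | coe b =>
        by_cases hb : b = 0
        · exfalso
          rw [hb] at h
          have h2 : chord (io false a) ((0 : ℂ) : OnePoint ℂ) = 1 / √(1 + ‖a‖ ^ 2) := by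
            show chord (recip a) ((0 : ℂ) : OnePoint ℂ) = _
            by_cases ha0 : a = 0
            · rw [ha0, chi_r0, chi_ic]
            · have ha' : 0 < ‖a‖ := norm_pos_iff.2 ha0
              rw [chi_r ha0, chi_cc, chi_sq ha0, sub_zero, norm_zero, norm_inv]
              have h1 : √(1 + (0 : ℝ) ^ 2) = 1 := by norm_num
              have h3 := chi_pos a
              rw [h1, mul_one]
              field_simp
          rw [h2] at h
          exact absurd (chi_pole ha) (not_le.2 h)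
        · exact ⟨b⁻¹, by
            show recip b⁻¹ = _
            rw [chi_r (inv_ne_zero hb), inv_inv]⟩
  obtain ⟨b, rfl⟩ := h1
  refine ⟨b, ?_, rfl⟩
  by_contra hb
  rw [not_le] at hb
  rw [chi_f, div_lt_iff₀ (mul_pos (chi_pos a) (chi_pos b))] at h
  have h2 : √(1 + ‖b‖ ^ 2) ≤ 5 / 4 * ‖b‖ := by
    rw [Real.sqrt_le_left (by positivity)]
    nlinarith [norm_nonneg b]
  have h3 : ‖b‖ - 1 ≤ ‖a - b‖ := by
    have := norm_sub_norm_le b a
    rw [norm_sub_rev b a] at this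
    linarith
  have h4 : √(1 + ‖a‖ ^ 2) * √(1 + ‖b‖ ^ 2) ≤ 3 / 2 * (5 / 4 * ‖b‖) :=
    mul_le_mul (chi_two ha) h2 (chi_pos b).le (by norm_num)
  linarith

end Pool.Agent.H47.RJ
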