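import Pool.Agent.H47.RJ.CRP
import Pool.Agent.H80.AJ.Distort

/-!
# Module IBR: iterates and inverse branches in charts are holomorphic

PROOF. `it_loc`: `f = (Rf v)^[n]` is continuous and `io σ` is an open embedding (`io_emb`): there is `r > 0` such that `f (io τ z)` is in the range of `io σ` for `z ∈ ball a r`; choose `F` with `f (io τ z) = io σ (F z)` there; `F` is continuous on the ball (`io_emb`). `F` is holomorphic: as in the header of CRP: `f = rat A B` with `A, B` coprime
(`rat_iter`, H79/PJ/RIter). Outside the point `0` (only if `τ = false`) `io τ z` is a finite point `t` (`t = z` or `1 / z`), `rat A B t = pt (A t) (B t)` (`rat_coe`). If `σ = true`: it is finite, so `B t ≠ 0` and `F z = A t / B t`. If `σ = false`: `recip (F z) = pt (A t) (B t)` gives `A t ≠ 0` and `F z = B t / A t`. So `F` is differentiable outside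
the point `0`, and at `0` by continuity (removable singularity: `Complex.differentiableOn_compl_singleton_and_continuousAt_iff`). (Compare the private lemmas of CRP.)
`ibr`: injective: `io σ` is injective. Let `z0` be in the ball, `u0 = G z0`; `it_loc` gives `F` near `u0` with `f (io τ u) = io σ (F u)`, so `F (G z) = z` near `z0` (continuity of `G`, injectivity of `io σ`). `F` is injective near `u0` (`hloc`, `io_emb`), so `deriv F u0 ≠ 0` (`deriv_ne`, H80/AJ/Distort), and `HasDerivAt.of_local_left_inverse` gives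
that `G` is differentiable at `z0` (as at the end of the proof of `br_hol`, H44/RG/PLH).
-/

set_option autoImplicit false

open Filter Topology Polynomial Metric Set

namespace Pool.Agent.H47.RJ

open Pool.Agent.H44.Fatou Pool.Agent.H32.BT Pool.Agent.H79.Eul Pool.Agent.H79.Par
open Pool.Agent.H35.EX Pool.Agent.H44.RR Pool.Agent.H56.HR Pool.Agent.H44.RC

variable {d : ℕ} {v : E d}

private theorem ibr_pt {σ : Bool} {a X Y : ℂ} (h0 : X ≠ 0 ∨ Y ≠ 0) (h : io σ a = pt X Y) :
    (σ = true ∧ Y ≠ 0 ∧ a = X / Y) ∨ (σ = false ∧ X ≠ 0 ∧ a = Y / X) := by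
  cases σ with
  | true =>
    left
    have h1 : ((a : ℂ) : OnePoint ℂ) = pt X Y := h
    unfold pt at h1
    split_ifs at h1 with h2
    · exact absurd h1 (OnePoint.coe_ne_infty a)
    · exact ⟨rfl, h2, OnePoint.coe_injective h1⟩
  | false =>
    right
    have h1 : recip a = pt X Y := h
    unfold pt recip at h1
    split_ifs at h1 with h2 h3 h3
    · refine ⟨rfl, ?_, ?_⟩
      · rcases h0 with h4 | h4
        · exact h4
        · exact absurd h3 h4
      · rw [h2, h3, zero_div]
    · exact absurd h1.symm (OnePoint.coe_ne_infty _)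
    · exact absurd h1 (OnePoint.coe_ne_infty _)
    · have h4 : a⁻¹ = X / Y := OnePoint.coe_injective h1
      refine ⟨rfl, ?_, ?_⟩
      · rintro rfl
        rw [zero_div, inv_eq_zero] at h4
        exact h2 h4
      · rw [← inv_inv a, h4, inv_div]

/-- the finite coordinate in the chart `τ` -/
private noncomputable def ibr_t (τ : Bool) (z : ℂ) : ℂ := if τ then z else z⁻¹

private theorem ibr_io {τ : Bool} {z : ℂ} (hz : z ≠ 0) : io τ z = ((ibr_t τ z : ℂ) : OnePoint ℂ) := by
  cases τ with
  | true => rfl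
  | false =>
    show recip z = _
    unfold recip
    rw [if_neg hz]
    rfl

private theorem ibr_diff {σ τ : Bool} {S : Set ℂ} (hS : IsOpen S) {G : ℂ → ℂ} (A B : Polynomial ℂ)
    (hAB : IsCoprime A B) (hc : ContinuousOn G S)
    (hG : ∀ z ∈ S, io σ (G z) = rat A B (io τ z)) : DifferentiableOn ℂ G S := by
  have ht : DifferentiableOn ℂ (ibr_t τ) (S \ {0}) := by
    cases τ with
    | true =>
      have h1 : ibr_t true = id := rfl
      rw [h1]
      exact differentiableOn_id
    | false =>
      have h1 : ibr_t false = fun z => z⁻¹ := rfl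
      rw [h1]
      intro z hz
      exact (differentiableAt_inv hz.2).differentiableWithinAt
  have hA : DifferentiableOn ℂ (fun z => A.eval (ibr_t τ z)) (S \ {0}) :=
    A.differentiable.comp_differentiableOn ht
  have hB : DifferentiableOn ℂ (fun z => B.eval (ibr_t τ z)) (S \ {0}) :=
    B.differentiable.comp_differentiableOn ht
  have h1 : ∀ z ∈ S \ {0}, (σ = true ∧ B.eval (ibr_t τ z) ≠ 0 ∧
      G z = A.eval (ibr_t τ z) / B.eval (ibr_t τ z)) ∨
      (σ = false ∧ A.eval (ibr_t τ z) ≠ 0 ∧ G z = B.eval (ibr_t τ z) / A.eval (ibr_t τ z)) := by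
    intro z hz
    have h2 := hG z hz.1
    rw [ibr_io hz.2, rat_coe] at h2
    exact ibr_pt (coprime_eval hAB _) h2
  have h2 : DifferentiableOn ℂ G (S \ {0}) := by
    cases σ with
    | true =>
      have h3 : ∀ z ∈ S \ {0}, B.eval (ibr_t τ z) ≠ 0 ∧
          G z = A.eval (ibr_t τ z) / B.eval (ibr_t τ z) := by
        intro z hz
        rcases h1 z hz with h | h
        · exact h.2
        · exact absurd h.1 (by simp)
      exact (hA.div hB fun z hz => (h3 z hz).1).congr fun z hz => (h3 z hz).2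
    | false =>
      have h3 : ∀ z ∈ S \ {0}, A.eval (ibr_t τ z) ≠ 0 ∧
          G z = B.eval (ibr_t τ z) / A.eval (ibr_t τ z) := by
        intro z hz
        rcases h1 z hz with h | h
        · exact absurd h.1 (by simp)
        · exact h.2
      exact (hB.div hA fun z hz => (h3 z hz).1).congr fun z hz => (h3 z hz).2
  by_cases h0 : (0 : ℂ) ∈ S
  · exact (Complex.differentiableOn_compl_singleton_and_continuousAt_iff (hS.mem_nhds h0)).1
      ⟨h2, hc.continuousAt (hS.mem_nhds h0)⟩
  · rwa [sdiff_singleton_eq_self h0] at h2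

theorem it_loc (hd : 1 ≤ d) (hcop : IsCoprime (pol v.1) (pol v.2))
    (hdeg : max (pol v.1).natDegree (pol v.2).natDegree = d) {n : ℕ} {τ σ : Bool} {a b : ℂ}
    (h : (Rf v)^[n] (io τ a) = io σ b) :
    ∃ (r : ℝ) (F : ℂ → ℂ), 0 < r ∧ DifferentiableOn ℂ F (ball a r) ∧
      ∀ z ∈ ball a r, (Rf v)^[n] (io τ z) = io σ (F z) := by
  have hdg : dg (pol v.1) (pol v.2) = d := hdeg
  have hfc : Continuous (Rf v) := rat_continuous hcop
  have hV : io σ '' ball b 1 ∈ 𝓝 ((Rf v)^[n] (io τ a)) := by
    rw [h]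
    exact (io_emb σ).isOpenMap.image_mem_nhds (ball_mem_nhds b one_pos)
  have hct : Continuous fun z => (Rf v)^[n] (io τ z) := (hfc.iterate n).comp (io_emb τ).continuous
  obtain ⟨r, hr, hball⟩ := Metric.eventually_nhds_iff_ball.1 ((hct.tendsto a).eventually hV)
  obtain ⟨j, hj⟩ : ∃ j : OnePoint ℂ → ℂ, ∀ a, j (io σ a) = a :=
    ⟨Function.invFun (io σ), Function.leftInverse_invFun (io_emb σ).injective⟩
  have hF : ∀ z ∈ ball a r, io σ (j ((Rf v)^[n] (io τ z))) = (Rf v)^[n] (io τ z) := by
    intro z hz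
    obtain ⟨c, -, hce⟩ := hball z hz
    rw [← hce, hj]
  have hFc : ContinuousOn (fun z => j ((Rf v)^[n] (io τ z))) (ball a r) := by
    rw [(io_emb σ).toIsEmbedding.toIsInducing.continuousOn_iff]
    exact hct.continuousOn.congr fun z hz => hF z hz
  refine ⟨r, fun z => j ((Rf v)^[n] (io τ z)), hr, ?_, fun z hz => (hF z hz).symm⟩
  obtain ⟨A, B, hAB, -, hrat⟩ := Pool.Agent.H79.PJ.rat_iter hcop (by rw [hdg]; exact hd) n
  refine ibr_diff (σ := σ) (τ := τ) isOpen_ball A B hAB hFc fun z hz => ?_
  rw [hF z hz, hrat]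
  rfl

theorem ibr (hd : 1 ≤ d) (hcop : IsCoprime (pol v.1) (pol v.2))
    (hdeg : max (pol v.1).natDegree (pol v.2).natDegree = d) {n : ℕ} {τ σ : Bool} {w : ℂ} {r : ℝ}
    {G : ℂ → ℂ} (hG : ContinuousOn G (ball w r))
    (hk : ∀ z ∈ ball w r, (Rf v)^[n] (io τ (G z)) = io σ z)
    (hloc : ∀ z ∈ ball w r, ∃ W ∈ 𝓝 (io τ (G z)), InjOn (Rf v)^[n] W) :
    DifferentiableOn ℂ G (ball w r) ∧ InjOn G (ball w r) := by
  constructor
  · intro z0 hz0
    have hGz : ContinuousAt G z0 := hG.continuousAt (isOpen_ball.mem_nhds hz0)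
    obtain ⟨r', F, hr', hFd, hF⟩ := it_loc hd hcop hdeg (hk z0 hz0)
    obtain ⟨W, hW, hWi⟩ := hloc z0 hz0
    have hFan : AnalyticAt ℂ F (G z0) :=
      hFd.analyticAt (isOpen_ball.mem_nhds (mem_ball_self hr'))
    have hne : deriv F (G z0) ≠ 0 := by
      have h1 : io τ ⁻¹' W ∩ ball (G z0) r' ∈ 𝓝 (G z0) :=
        inter_mem ((io_emb τ).continuous.continuousAt hW) (ball_mem_nhds _ hr')
      obtain ⟨ε, hε, hsub⟩ := Metric.mem_nhds_iff.1 h1
      have hinj : InjOn F (ball (G z0) ε) := by
        intro u hu u' hu' huu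
        obtain ⟨hu1, hu2⟩ := hsub hu
        obtain ⟨hu1', hu2'⟩ := hsub hu'
        apply (io_emb τ).injective
        apply hWi hu1 hu1'
        rw [hF u hu2, hF u' hu2', huu]
      exact norm_pos_iff.1 (Pool.Agent.H80.AJ.deriv_ne hε
        (hFd.mono fun u hu => (hsub hu).2) hinj (mem_closedBall_self (by positivity)))
    have hev : ∀ᶠ y in 𝓝 z0, F (G y) = y := by
      filter_upwards [hGz (ball_mem_nhds _ hr'), isOpen_ball.mem_nhds hz0] with y hy1 hy2
      have h1 := hF (G y) hy1
      rw [hk y hy2] at h1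
      exact ((io_emb σ).injective h1).symm
    exact (HasDerivAt.of_local_left_inverse hGz hFan.differentiableAt.hasDerivAt hne
      hev).differentiableAt.differentiableWithinAt
  · intro z hz z' hz' hzz
    apply (io_emb σ).injective
    rw [← hk z hz, ← hk z' hz', hzz]

end Pool.Agent.H47.RJ
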