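import Pool.Agent.H47.RJ.RNR
import Pool.Agent.H44.RR.UNI

/-!
# Module ENR: there are no rotation domains if the Julia set is expanding

PROOF. `two_unif`: let `N, q` be as in `Expd`, `1 < q' < q`. For `x ∈ JS f` `two_pt` (H44/RR/UNI) gives a neighbourhood `U` of `x` with `q' * chord y y' ≤ chord (f^[N] y) (f^[N] y')` for `y, y' ∈ U`. Uniform version: there is `κ > 0` such that this holds for all `y, y'` with `chord y x < κ` for some `x ∈ JS f` and `chord y y' < κ`: otherwise there are `x k ∈ JS f`, `y k`, `y' k` with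
`chord (y k) (x k), chord (y k) (y' k) < 1 / (k + 1)` which violate it; subsequence `x k → x ∈ JS f` (`ch_seq`, `js_closed`), then `y k, y' k → x` are in `U` for large `k`, contradiction.
`exp_norot`: `rot_near` with `κ` gives `η`, `rot_bd` gives `x ∈ Ω = Fc f z0` at distance `< η` from `JS f`, so all `f^[m] x` have distance `< κ` to `JS f`. `x ∈ FS f` (`fc_sub`), so `EqAt f x` (`interior_subset`): for all `y` near `x` and all `m`, `chord (f^[m] x) (f^[m] y) < κ`. Choose such a `y ≠ x` (no isolated points: `io_ex`, `io_emb`; or the lemma used in H44/RR, `nhdsWithin` not bottom). Then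
`q' ^ k * chord x y ≤ chord (f^[N * k] x) (f^[N * k] y) < κ` for all `k` by induction (`two_unif`, `chord_comm`), but `q' ^ k → ∞` and `chord x y > 0` (`chord_pos`). Contradiction.
-/

set_option autoImplicit false

open Filter Topology Polynomial Metric Set

namespace Pool.Agent.H47.RJ

open Pool.Agent.H44.Fatou Pool.Agent.H32.BT Pool.Agent.H79.Eul Pool.Agent.H79.Par
open Pool.Agent.H35.EX Pool.Agent.H44.RR Pool.Agent.H56.HR Pool.Agent.H44.RC

variable {d : ℕ} {v : E d}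

theorem two_unif (hd : 2 ≤ d) (hcop : IsCoprime (pol v.1) (pol v.2))
    (hdeg : max (pol v.1).natDegree (pol v.2).natDegree = d) (hE : Expd (Rf v) (JS (Rf v))) :
    ∃ (N : ℕ) (q κ : ℝ), 1 < q ∧ 0 < κ ∧ ∀ x y y' : OnePoint ℂ, x ∈ JS (Rf v) → chord y x < κ →
      chord y y' < κ → q * chord y y' ≤ chord ((Rf v)^[N] y) ((Rf v)^[N] y') := by
  obtain ⟨-, -, N, q, hq, hE⟩ := hE
  by_contra hcon
  push Not at hcon
  have h1 : ∀ k : ℕ, ∃ x y y' : OnePoint ℂ, x ∈ JS (Rf v) ∧ chord y x < 1 / ((k : ℝ) + 1) ∧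
      chord y y' < 1 / ((k : ℝ) + 1) ∧
      chord ((Rf v)^[N] y) ((Rf v)^[N] y') < (1 + q) / 2 * chord y y' :=
    fun k => hcon N ((1 + q) / 2) (1 / ((k : ℝ) + 1)) (by linarith) (by positivity)
  choose x y y' hx hy hy' hlt using h1
  obtain ⟨x0, σ, hσ, hlim⟩ := ch_seq x
  have hx0 : x0 ∈ JS (Rf v) :=
    (js_closed (Rf v)).mem_of_tendsto hlim (Eventually.of_forall fun k => hx (σ k))
  have hsm : ∀ ε : ℝ, 0 < ε → ∀ᶠ k : ℕ in atTop, 1 / ((σ k : ℝ) + 1) < ε := by
    intro ε hε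
    exact hσ.tendsto_atTop.eventually
      ((tendsto_one_div_add_atTop_nhds_zero_nat (𝕜 := ℝ)).eventually_lt_const hε)
  have ty : Tendsto (y ∘ σ) atTop (𝓝 x0) := by
    rw [ch_tend]
    intro ε hε
    filter_upwards [ch_tend.1 hlim (ε / 2) (by positivity), hsm (ε / 2) (by positivity)]
      with k h2 h3
    calc chord x0 ((y ∘ σ) k) ≤ chord x0 (x (σ k)) + chord (x (σ k)) (y (σ k)) := ch_tri _ _ _
      _ < ε / 2 + ε / 2 := by
        refine add_lt_add h2 ?_
        rw [chord_comm]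
        exact (hy (σ k)).trans h3
      _ = ε := by ring
  have ty' : Tendsto (y' ∘ σ) atTop (𝓝 x0) := by
    rw [ch_tend]
    intro ε hε
    filter_upwards [ch_tend.1 ty (ε / 2) (by positivity), hsm (ε / 2) (by positivity)]
      with k h2 h3
    calc chord x0 ((y' ∘ σ) k) ≤ chord x0 (y (σ k)) + chord (y (σ k)) (y' (σ k)) := ch_tri _ _ _
      _ < ε / 2 + ε / 2 := add_lt_add h2 ((hy' (σ k)).trans h3)
      _ = ε := by ring
  obtain ⟨U, hU, hUU⟩ := two_pt hd hcop hdeg (N := N) (q' := (1 + q) / 2) (by linarith)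
    (by linarith) (hE x0 hx0)
  obtain ⟨k, h2, h3⟩ := ((ty.eventually hU).and (ty'.eventually hU)).exists
  exact absurd (hUU _ h2 _ h3) (not_le.2 (hlt (σ k)))

theorem exp_norot (hd : 2 ≤ d) (hcop : IsCoprime (pol v.1) (pol v.2))
    (hdeg : max (pol v.1).natDegree (pol v.2).natDegree = d) (hF : FJ (Rf v))
    (hE : Expd (Rf v) (JS (Rf v))) {p : ℕ} {z0 : OnePoint ℂ} {b : ℕ → ℕ}
    {ψ : OnePoint ℂ → OnePoint ℂ} (hR : RotD (Rf v) p z0 b ψ) : False := by
  obtain ⟨N, q, κ, hq, hκ, hun⟩ := two_unif hd hcop hdeg hE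
  obtain ⟨η, hη, hnear⟩ := rot_near hd hcop hdeg hF hR κ hκ
  obtain ⟨x, hx, hxJ⟩ := rot_bd hd hcop hdeg hR η hη
  have hxn := hnear x hx hxJ
  have hEq : EqAt (Rf v) x := interior_subset (fc_sub _ _ hx)
  obtain ⟨y, hy, hyx⟩ : ∃ y, (∀ n : ℕ, chord ((Rf v)^[n] x) ((Rf v)^[n] y) < κ) ∧ y ≠ x := by
    have h1 : ∀ᶠ y in 𝓝[≠] x, ∀ n : ℕ, chord ((Rf v)^[n] x) ((Rf v)^[n] y) < κ :=
      (hEq κ hκ).filter_mono nhdsWithin_le_nhds
    have h2 : ∀ᶠ y in 𝓝[≠] x, y ≠ x := eventually_nhdsWithin_of_forall fun y hy => hy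
    exact (h1.and h2).exists
  have hpos : 0 < chord x y := chord_pos (Ne.symm hyx)
  have key : ∀ k : ℕ, q ^ k * chord x y ≤ chord ((Rf v)^[N * k] x) ((Rf v)^[N * k] y) := by
    intro k
    induction k with
    | zero => simp
    | succ k ih =>
      obtain ⟨w, hw, hwd⟩ := hxn (N * k)
      have h1 := hun w _ _ hw hwd (hy (N * k))
      rw [← Function.iterate_add_apply, ← Function.iterate_add_apply] at h1
      have e1 : N * (k + 1) = N + N * k := by ring
      rw [e1]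
      calc q ^ (k + 1) * chord x y = q * (q ^ k * chord x y) := by ring
        _ ≤ q * chord ((Rf v)^[N * k] x) ((Rf v)^[N * k] y) :=
          mul_le_mul_of_nonneg_left ih (by linarith)
        _ ≤ _ := h1
  obtain ⟨k, hk⟩ := pow_unbounded_of_one_lt (κ / chord x y) hq
  have h1 := (key k).trans_lt (hy (N * k))
  rw [div_lt_iff₀ hpos] at hk
  linarith

end Pool.Agent.H47.RJ
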