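import Pool.Agent.H47.RJ.FCO

/-!
# Module FJM: orbits in the Fatou set stay away from the Julia set

`f = Rf v`. Suppose that `FJ f` fails for the compact `Y ⊆ FS f`: for every `k` there are `y k ∈ Y`, `m k`, `x k ∈ JS f` with `chord (f^[m k] (y k)) (x k) < 1 / (k + 1)`. By `ch_seq` pass to a subsequence with `y k → y ∈ Y` (closed), `x k → x' ∈ JS f` (`js_closed`), so `f^[m k] (y k) → x'`.
(1) `m k → ∞` along a subsequence: otherwise `m k = m` infinitely often, `f^[m] y = x'` by continuity, but `f^[m] y ∈ FS f` (`fs_iff`). Pass to a subsequence with `m k` strictly increasing and, by `lf_sub`, `Lim f m h` (compose with `σ`). `h y = x'` by the joint convergence (`y k → y`).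
(2) `NW f` for `y`: `m0 < n0`, `f^[n0] y ∈ Fc f (f^[m0] y)`. Let `z0 = f^[m0] y ∈ FS f`, `p = n0 - m0 > 0`: `f^[p] z0 ∈ Fc f z0`. For large `k`, `m k - m0 = p * b k + i k`, `i k < p`; pass to a subsequence with `i k = i` constant (`b k → ∞`) and by `lf_sub` with `Lim f (fun k => p * b k) h'`. `f^[m k] y = f^[i] (f^[p * b k] z0) → f^[i] (h' z0)`, so `f^[i] (h' z0) = h y = x'`
(the limit of `f^[m k] y` is `h y`), and `h' z0 ∈ JS f` (`js_iff`). `no_js_lim`: contradiction.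
-/

set_option autoImplicit false

open Filter Topology Polynomial Metric Set

namespace Pool.Agent.H47.RJ

open Pool.Agent.H44.Fatou Pool.Agent.H32.BT Pool.Agent.H79.Eul Pool.Agent.H79.Par
open Pool.Agent.H35.EX Pool.Agent.H44.RR Pool.Agent.H56.HR Pool.Agent.H44.RC

variable {d : ℕ} {v : E d}

theorem fj_of_nw_ar (hd : 1 ≤ d) (hcop : IsCoprime (pol v.1) (pol v.2))
    (hdeg : max (pol v.1).natDegree (pol v.2).natDegree = d) (hN : AR v)
    (hW : NW (Rf v)) : FJ (Rf v) := by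
  have hcont : Continuous (Rf v) := rat_continuous hcop
  intro Y hY hYc
  by_contra hcon
  push Not at hcon
  have hpos : ∀ k : ℕ, (0 : ℝ) < 1 / ((k : ℝ) + 1) := fun k => Nat.one_div_pos_of_nat
  have hch : ∀ k : ℕ, ∃ y ∈ Y, ∃ n : ℕ, ∃ x ∈ JS (Rf v),
      chord ((Rf v)^[n] y) x < 1 / ((k : ℝ) + 1) := fun k => hcon _ (hpos k)
  choose y1 hy1 m1 x1 hx1 hm1 using hch
  obtain ⟨y0, σ1, hσ1, hy0⟩ := ch_seq y1
  obtain ⟨x0, σ2, hσ2, hx0⟩ := ch_seq (x1 ∘ σ1)
  -- pass to the subsequence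
  obtain ⟨y, hyd⟩ : ∃ y, y = y1 ∘ σ1 ∘ σ2 := ⟨_, rfl⟩
  obtain ⟨x, hxd⟩ : ∃ x, x = x1 ∘ σ1 ∘ σ2 := ⟨_, rfl⟩
  obtain ⟨m, hmd⟩ : ∃ m, m = m1 ∘ σ1 ∘ σ2 := ⟨_, rfl⟩
  have hyt : Tendsto y atTop (𝓝 y0) := by
    rw [hyd]
    exact hy0.comp hσ2.tendsto_atTop
  have hxt : Tendsto x atTop (𝓝 x0) := by
    rw [hxd]
    exact hx0
  have hyY : ∀ k, y k ∈ Y := by
    intro k
    rw [hyd]
    exact hy1 _
  have hxJ : ∀ k, x k ∈ JS (Rf v) := by
    intro k
    rw [hxd]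
    exact hx1 _
  have hy0Y : y0 ∈ Y := hYc.isClosed.mem_of_tendsto hyt (Eventually.of_forall hyY)
  have hx0J : x0 ∈ JS (Rf v) := (js_closed (Rf v)).mem_of_tendsto hxt (Eventually.of_forall hxJ)
  have hy0F : y0 ∈ FS (Rf v) := hY hy0Y
  have hsm : ∀ k, chord ((Rf v)^[m k] (y k)) (x k) < 1 / ((k : ℝ) + 1) := by
    intro k
    rw [hyd, hxd, hmd]
    have h1 := hm1 (σ1 (σ2 k))
    refine h1.trans_le ?_
    apply one_div_le_one_div_of_le (by positivity)
    have h2 : k ≤ σ1 (σ2 k) := (hσ2.id_le k).trans (hσ1.id_le _)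
    have h3 : (k : ℝ) ≤ (σ1 (σ2 k) : ℝ) := by exact_mod_cast h2
    linarith
  have hconv : Tendsto (fun k => (Rf v)^[m k] (y k)) atTop (𝓝 x0) := by
    rw [ch_tend]
    intro ε hε
    have h1 : Tendsto (fun k : ℕ => 1 / ((k : ℝ) + 1)) atTop (𝓝 0) :=
      tendsto_one_div_add_atTop_nhds_zero_nat
    filter_upwards [h1.eventually (Iio_mem_nhds (half_pos hε)),
      ch_tend.1 hxt (ε / 2) (half_pos hε)] with k hk hk'
    have h2 := ch_tri x0 (x k) ((Rf v)^[m k] (y k))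
    have h3 := hsm k
    rw [chord_comm] at h3
    have h4 : 1 / ((k : ℝ) + 1) < ε / 2 := hk
    linarith
  -- the times tend to infinity
  have hmt : Tendsto m atTop atTop := by
    by_contra hnt
    rw [Filter.tendsto_atTop] at hnt
    push Not at hnt
    obtain ⟨M, hM⟩ := hnt
    have h1 : ∃ᶠ k in atTop, m k ∈ Finset.range M := by
      refine hM.mono fun k hk => ?_
      rw [Finset.mem_range]
      omega
    have h2 : ∃ c ∈ Finset.range M, ∃ᶠ k in atTop, m k = c := by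
      by_contra hcc
      push Not at hcc
      have h3 : ∀ᶠ k in atTop, ∀ c ∈ Finset.range M, m k ≠ c := by
        rw [Filter.eventually_all_finset]
        intro c hc
        exact hcc c hc
      obtain ⟨k, hk1, hk2⟩ := (h1.and_eventually h3).exists
      exact hk2 _ hk1 rfl
    obtain ⟨c, -, hc⟩ := h2
    obtain ⟨τ, hτ, hτc⟩ := extraction_of_frequently_atTop hc
    have h3 : Tendsto (fun k => (Rf v)^[c] (y (τ k))) atTop (𝓝 ((Rf v)^[c] y0)) :=
      ((hcont.iterate c).tendsto y0).comp (hyt.comp hτ.tendsto_atTop)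
    have h4 : Tendsto (fun k => (Rf v)^[c] (y (τ k))) atTop (𝓝 x0) := by
      refine (hconv.comp hτ.tendsto_atTop).congr fun k => ?_
      rw [Function.comp_apply, hτc k]
    have h5 := tendsto_nhds_unique h3 h4
    have h6 : (Rf v)^[c] y0 ∈ FS (Rf v) := (fs_iff hd hcop hdeg c y0).2 hy0F
    rw [h5] at h6
    exact hx0J h6
  obtain ⟨σ, h, hσ, hL⟩ := lf_sub (Rf v) m
  have hhy : h y0 = x0 := by
    refine tendsto_nhds_unique ?_ (hconv.comp hσ.tendsto_atTop)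
    have h1 : Tendsto (fun k : ℕ => (k, y (σ k))) atTop (atTop ×ˢ 𝓝 y0) :=
      tendsto_id.prodMk (hyt.comp hσ.tendsto_atTop)
    exact (hL y0 hy0F).comp h1
  have hpt : Tendsto (fun k => (Rf v)^[m (σ k)] y0) atTop (𝓝 x0) := by
    have h1 : Tendsto (fun k : ℕ => (k, y0)) atTop (atTop ×ˢ 𝓝 y0) :=
      tendsto_id.prodMk tendsto_const_nhds
    rw [← hhy]
    exact (hL y0 hy0F).comp h1
  -- the periodic component
  obtain ⟨m0, n0, hmn, hW0⟩ := hW y0 hy0F
  obtain ⟨z0, hz0⟩ : ∃ z0, z0 = (Rf v)^[m0] y0 := ⟨_, rfl⟩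
  obtain ⟨p, hp⟩ : ∃ p, n0 = m0 + p := ⟨n0 - m0, by omega⟩
  have hp0 : 0 < p := by omega
  have hzF : z0 ∈ FS (Rf v) := by
    rw [hz0]
    exact (fs_iff hd hcop hdeg m0 y0).2 hy0F
  have hzm : (Rf v)^[p] z0 ∈ Fc (Rf v) z0 := by
    rw [hz0, ← Function.iterate_add_apply, Nat.add_comm, ← hp]
    exact hW0
  have hmσ : Tendsto (fun k => m (σ k)) atTop atTop := hmt.comp hσ.tendsto_atTop
  have h2 : ∃ c ∈ Finset.range p, ∃ᶠ k in atTop, (m (σ k) - m0) % p = c := by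
    by_contra hcc
    push Not at hcc
    have h3 : ∀ᶠ k in atTop, ∀ c ∈ Finset.range p, (m (σ k) - m0) % p ≠ c := by
      rw [Filter.eventually_all_finset]
      intro c hc
      exact hcc c hc
    obtain ⟨k, hk⟩ := h3.exists
    exact hk _ (Finset.mem_range.2 (Nat.mod_lt _ hp0)) rfl
  obtain ⟨c, -, hc⟩ := h2
  obtain ⟨τ, hτ, hτc⟩ := extraction_of_frequently_atTop
    (hc.and_eventually (hmσ.eventually_ge_atTop m0))
  obtain ⟨b, hb⟩ : ∃ b : ℕ → ℕ, ∀ k, b k = (m (σ (τ k)) - m0) / p := ⟨_, fun _ => rfl⟩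
  have hmb : ∀ k, m (σ (τ k)) = c + (p * b k + m0) := by
    intro k
    have h3 := Nat.div_add_mod (m (σ (τ k)) - m0) p
    rw [(hτc k).1, ← hb] at h3
    have h4 := (hτc k).2
    omega
  have hbt : Tendsto b atTop atTop := by
    have h3 : Tendsto (fun k => m (σ (τ k))) atTop atTop := hmσ.comp hτ.tendsto_atTop
    rw [Filter.tendsto_atTop]
    intro B
    filter_upwards [h3.eventually_ge_atTop (c + (p * B + m0))] with k hk
    rw [hmb k] at hk
    have h4 : p * B ≤ p * b k := by omega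
    exact Nat.le_of_mul_le_mul_left h4 hp0
  obtain ⟨σ', h', hσ', hL'⟩ := lf_sub (Rf v) (fun k => p * b k)
  have hL'' : Lim (Rf v) (fun k => p * b (σ' k)) h' := hL'
  have hpt' : Tendsto (fun k => (Rf v)^[p * b (σ' k)] z0) atTop (𝓝 (h' z0)) := by
    have h1 : Tendsto (fun k : ℕ => (k, z0)) atTop (atTop ×ˢ 𝓝 z0) :=
      tendsto_id.prodMk tendsto_const_nhds
    exact (hL'' z0 hzF).comp h1
  have h3 : Tendsto (fun k => (Rf v)^[c] ((Rf v)^[p * b (σ' k)] z0)) atTop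
      (𝓝 ((Rf v)^[c] (h' z0))) := ((hcont.iterate c).tendsto _).comp hpt'
  have h4 : Tendsto (fun k => (Rf v)^[c] ((Rf v)^[p * b (σ' k)] z0)) atTop (𝓝 x0) := by
    refine ((hpt.comp hτ.tendsto_atTop).comp hσ'.tendsto_atTop).congr fun k => ?_
    show (Rf v)^[m (σ (τ (σ' k)))] y0 = _
    rw [hmb, hz0, Function.iterate_add_apply, Function.iterate_add_apply]
  have h5 := tendsto_nhds_unique h3 h4
  have h6 : h' z0 ∈ JS (Rf v) := by
    rw [← js_iff hd hcop hdeg c, h5]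
    exact hx0J
  exact no_js_lim_ar hd hcop hdeg hN hp0 hzF hzm (hbt.comp hσ'.tendsto_atTop) hL'' h6

theorem fj_of_nw (hd : 1 ≤ d) (hcop : IsCoprime (pol v.1) (pol v.2))
    (hdeg : max (pol v.1).natDegree (pol v.2).natDegree = d) (hN : Pool.Agent.H47.NN.NNeu v)
    (hW : NW (Rf v)) : FJ (Rf v) :=
  fj_of_nw_ar hd hcop hdeg (ar_of_nneu hd hcop hdeg hN) hW

end Pool.Agent.H47.RJ
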