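import Pool.Agent.H47.RJ.COV

/-!
# Module JT6: the images of a disc centred in the Julia set are never small

PROOF. `N, M` from `cover`. Choose `M + 2` distinct points `q_0, .., q_(M+1)` outside `N` (`Set.Infinite.exists_subset_card_eq`), `κ > 0` the least of their mutual chordal distances (`chord_pos`). By `ch_uc` for `f^[j]`, `j ≤ M`, there is `δ > 0` with: `chord u w < 2 δ` implies `chord (f^[j] u) (f^[j] w) < κ`. Suppose `y ∈ JS f` and
`chord p (f^[n] z) < δ` for all `z` with `chord y z < η`. `f^[n]` is surjective (`rf_surj`): `q_k = f^[n] x_k`. `x_k ∉ N` (otherwise `q_k ∈ N`). By `cover` `x_k = f^[j_k] b_k`, `chord y b_k < η`, `j_k ≤ M`. `M + 2` indices, `M + 1` values `j_k`: `k ≠ l` with `j_k = j_l = j`; `q_k = f^[j] (f^[n] b_k)`, `q_l = f^[j] (f^[n] b_l)` and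
`chord (f^[n] b_k) (f^[n] b_l) < 2 δ` (`ch_tri` through `p`), so `chord q_k q_l < κ`: contradiction.
-/

set_option autoImplicit false

open Filter Topology Polynomial Metric Set

namespace Pool.Agent.H47.RJ

open Pool.Agent.H44.Fatou Pool.Agent.H32.BT Pool.Agent.H79.Eul Pool.Agent.H79.Par
open Pool.Agent.H35.EX Pool.Agent.H44.RR Pool.Agent.H56.HR Pool.Agent.H44.RC

variable {d : ℕ} {v : E d}

theorem jt6 (hd : 2 ≤ d) (hcop : IsCoprime (pol v.1) (pol v.2))
    (hdeg : max (pol v.1).natDegree (pol v.2).natDegree = d) :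
    ∀ η : ℝ, 0 < η → ∃ δ : ℝ, 0 < δ ∧ ∀ y ∈ JS (Rf v), ∀ (n : ℕ) (p : OnePoint ℂ),
      ¬ ∀ z, chord y z < η → chord p ((Rf v)^[n] z) < δ := by
  intro η hη
  obtain ⟨N, M, -, hNm, -, hNi, hcov⟩ := cover hd hcop hdeg hη
  have hcont : Continuous (Rf v) := rat_continuous hcop
  obtain ⟨q, hq, hq'⟩ : ∃ q : ℕ → OnePoint ℂ, Function.Injective q ∧ ∀ k, q k ∉ N :=
    ⟨fun k => ((hNi.natEmbedding _ k : (Nᶜ : Set _)) : OnePoint ℂ),
      fun i j h => (hNi.natEmbedding _).injective (Subtype.ext h),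
      fun k => (hNi.natEmbedding _ k).2⟩
  have hev : ∀ᶠ κ : ℝ in 𝓝[>] 0, ∀ k ∈ Finset.range (M + 2), ∀ l ∈ Finset.range (M + 2),
      k ≠ l → κ < chord (q k) (q l) := by
    rw [Filter.eventually_all_finset]
    intro k _
    rw [Filter.eventually_all_finset]
    intro l _
    rw [Filter.eventually_imp_distrib_left]
    intro hkl
    have h1 : 0 < chord (q k) (q l) := chord_pos fun h => hkl (hq h)
    exact mem_nhdsWithin_of_mem_nhds (Iio_mem_nhds h1)
  obtain ⟨κ, hκ1, hκ⟩ := (hev.and self_mem_nhdsWithin).exists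
  have hκ0 : 0 < κ := hκ
  have hev2 : ∀ᶠ δ : ℝ in 𝓝[>] 0, ∀ j ∈ Finset.range (M + 1), ∀ u w, chord u w < 2 * δ →
      chord ((Rf v)^[j] u) ((Rf v)^[j] w) < κ := by
    rw [Filter.eventually_all_finset]
    intro j _
    obtain ⟨δ, hδ, h1⟩ := ch_uc (hcont.iterate j) hκ0
    have h2 : Iio (δ / 2) ∈ 𝓝 (0 : ℝ) := Iio_mem_nhds (half_pos hδ)
    filter_upwards [mem_nhdsWithin_of_mem_nhds h2] with δ' hδ' u w huw
    refine h1 u w (huw.trans ?_)
    have h3 : δ' < δ / 2 := hδ'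
    linarith
  obtain ⟨δ, hδ1, hδ⟩ := (hev2.and self_mem_nhdsWithin).exists
  refine ⟨δ, hδ, ?_⟩
  intro y hy n p hall
  have hs : Function.Surjective ((Rf v)^[n]) := (rf_surj (by omega) hcop hdeg).iterate n
  choose x hx using fun k => hs (q k)
  have hxN : ∀ k, x k ∉ N := by
    intro k hk
    have h1 : (Rf v)^[n] (x k) ∈ N := hNm.iterate n hk
    rw [hx] at h1
    exact hq' k h1
  choose j hj b hb1 hb2 using fun k => hcov y hy (x k) (hxN k)
  obtain ⟨k, hk, l, hl, hkl, hjkl⟩ := Finset.exists_ne_map_eq_of_card_lt_of_maps_to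
    (s := Finset.range (M + 2)) (t := Finset.range (M + 1)) (f := j)
    (by rw [Finset.card_range, Finset.card_range]; omega)
    (fun k _ => Finset.mem_range.2 (Nat.lt_succ_of_le (hj k)))
  have e1 : ∀ k, q k = (Rf v)^[j k] ((Rf v)^[n] (b k)) := by
    intro k
    rw [← Function.iterate_add_apply, add_comm, Function.iterate_add_apply, hb2, hx]
  have h1 : chord ((Rf v)^[n] (b k)) ((Rf v)^[n] (b l)) < 2 * δ := by
    have h2 := hall (b k) (hb1 k)
    have h3 := hall (b l) (hb1 l)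
    have h4 := ch_tri ((Rf v)^[n] (b k)) p ((Rf v)^[n] (b l))
    rw [chord_comm ((Rf v)^[n] (b k)) p] at h4
    linarith
  have h2 := hδ1 (j k) (Finset.mem_range.2 (Nat.lt_succ_of_le (hj k))) _ _ h1
  rw [← e1 k, hjkl, ← e1 l] at h2
  exact lt_asymm h2 (hκ1 k hk l hl hkl)

end Pool.Agent.H47.RJ
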