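import Pool.Agent.H47.RJ.CHB

/-!
# Module OML: limit sets

`Om f x = {y | ∀ U ∈ 𝓝 y, ∃ᶠ n in atTop, f^[n] x ∈ U}`.
PROOF. `om_closed`: if `y` is in the closure and `U ∈ 𝓝 y`, take an open `U' ⊆ U` with `y ∈ U'`; it contains a point of `Om f x` and is a neighbourhood of it. `om_fwd`: continuity of `f` (`U ∈ 𝓝 (f y)`: `f ⁻¹' U ∈ 𝓝 y`, `f^[n + 1] x ∈ U` frequently). `om_in`: a closed set which contains all `f^[n] x` contains `Om f x` (otherwise its complement is a
neighbourhood). `om_orb`: `Om f (f^[m] x) = Om f x` (shift of the index). `om_sub`: `y ∈ Om f x` implies `Om f y ⊆ Om f x`: all `f^[n] y` are in `Om f x` (`om_fwd`), `om_closed`, `om_in`. `om_attr`: for an open `U ⊇ Om f x` all but finitely many `f^[n] x` are in `U`: otherwise `∃ᶠ n, f^[n] x ∉ U`; `ch_seq` gives a convergent subsequence (`Filter.extraction_of_frequently_atTop`) with limit `y ∉ U`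
(`Uᶜ` is closed), and `y ∈ Om f x`. `om_near`: if `f^[n k] x → y` with `n k` arbitrary numbers (not necessarily tending to infinity) and `x ∈ Om f x`, then `y ∈ Om f x` (all `f^[n] x` are in the closed set `Om f x`).
-/

set_option autoImplicit false

open Filter Topology Polynomial Metric Set

namespace Pool.Agent.H47.RJ

open Pool.Agent.H44.Fatou Pool.Agent.H32.BT Pool.Agent.H79.Eul Pool.Agent.H79.Par
open Pool.Agent.H35.EX Pool.Agent.H44.RR Pool.Agent.H56.HR Pool.Agent.H44.RC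

variable {f : OnePoint ℂ → OnePoint ℂ}

theorem om_closed (x : OnePoint ℂ) : IsClosed (Om f x) := by
  refine isClosed_of_closure_subset fun y hy U hU => ?_
  obtain ⟨V, hVU, hVo, hyV⟩ := mem_nhds_iff.1 hU
  obtain ⟨z, hzV, hz⟩ := mem_closure_iff.1 hy V hVo hyV
  exact (hz V (hVo.mem_nhds hzV)).mono fun n hn => hVU hn

private theorem om_fwd1 (hf : Continuous f) {x y : OnePoint ℂ} (h : y ∈ Om f x) :
    f y ∈ Om f x := by
  intro U hU
  have h1 := h (f ⁻¹' U) (hf.continuousAt.preimage_mem_nhds hU)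
  rw [Filter.frequently_atTop] at h1 ⊢
  intro a
  obtain ⟨b, hb, hb2⟩ := h1 a
  refine ⟨b + 1, by omega, ?_⟩
  rw [Function.iterate_succ_apply']
  exact hb2

theorem om_fwd (hf : Continuous f) {x y : OnePoint ℂ} (h : y ∈ Om f x) (n : ℕ) :
    f^[n] y ∈ Om f x := by
  induction n with
  | zero => exact h
  | succ n ih =>
    rw [Function.iterate_succ_apply']
    exact om_fwd1 hf ih

theorem om_in {x : OnePoint ℂ} {S : Set (OnePoint ℂ)} (hS : IsClosed S)
    (h : ∀ n : ℕ, f^[n] x ∈ S) : Om f x ⊆ S := by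
  intro y hy
  by_contra hyS
  obtain ⟨n, hn⟩ := (hy Sᶜ (hS.isOpen_compl.mem_nhds hyS)).exists
  exact hn (h n)

theorem om_orb (m : ℕ) (x : OnePoint ℂ) : Om f (f^[m] x) = Om f x := by
  ext y
  constructor
  · intro h U hU
    have h1 := h U hU
    rw [Filter.frequently_atTop] at h1 ⊢
    intro a
    obtain ⟨b, hb, hb2⟩ := h1 a
    refine ⟨b + m, by omega, ?_⟩
    rw [Function.iterate_add_apply]
    exact hb2
  · intro h U hU
    have h1 := h U hU
    rw [Filter.frequently_atTop] at h1 ⊢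
    intro a
    obtain ⟨b, hb, hb2⟩ := h1 (a + m)
    refine ⟨b - m, by omega, ?_⟩
    rw [← Function.iterate_add_apply, Nat.sub_add_cancel (by omega)]
    exact hb2

theorem om_sub (hf : Continuous f) {x y : OnePoint ℂ} (h : y ∈ Om f x) : Om f y ⊆ Om f x :=
  om_in (om_closed x) fun n => om_fwd hf h n

theorem om_attr {x : OnePoint ℂ} {U : Set (OnePoint ℂ)} (hU : IsOpen U) (h : Om f x ⊆ U) :
    ∀ᶠ n : ℕ in atTop, f^[n] x ∈ U := by
  by_contra hcon
  rw [Filter.not_eventually] at hcon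
  obtain ⟨σ, hσ, hσU⟩ := Filter.extraction_of_frequently_atTop hcon
  obtain ⟨y, τ, hτ, hy⟩ := ch_seq (fun k => f^[σ k] x)
  have hyU : y ∈ Uᶜ := by
    refine hU.isClosed_compl.mem_of_tendsto hy (Filter.Eventually.of_forall fun k => ?_)
    exact hσU (τ k)
  apply hyU
  apply h
  intro V hV
  have h1 : ∀ᶠ k : ℕ in atTop, f^[σ (τ k)] x ∈ V := hy hV
  have h2 : Tendsto (fun k => σ (τ k)) atTop atTop := hσ.tendsto_atTop.comp hτ.tendsto_atTop
  exact h2.frequently h1.frequently

theorem om_near (hf : Continuous f) {x y : OnePoint ℂ} (hx : x ∈ Om f x) {n : ℕ → ℕ}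
    (h : Tendsto (fun k => f^[n k] x) atTop (𝓝 y)) : y ∈ Om f x :=
  (om_closed x).mem_of_tendsto h (Filter.Eventually.of_forall fun k => om_fwd hf hx (n k))

end Pool.Agent.H47.RJ
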