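import Pool.Agent.H47.RJ.EX7
import Pool.Agent.H47.RJ.OML
import Pool.Agent.H47.RJ.FSI
import Pool.Agent.H44.RR.ACC
import Pool.Agent.H32.BT.Crit

/-!
# Module R2M: limit sets of critical points meet limit sets of recurrent critical points

`ManeC f`: Mañé's theorem for `f` (the theorem of H44/RC).
PROOF. `rl_of`: let `c` be a recurrent critical point. If `c ∈ FS f`: `hF {c}` gives `η` with `η ≤ chord (f^[n] c) x` for all `n` and `x ∈ JS f ⊇ L`. If `c ∈ JS f`: otherwise there are `n k` and `x k ∈ L` with `chord (f^[n k + 1] c) (x k) < 1 / (k + 1)`; subsequence `x k → x ∈ L` (`ch_seq`), `f^[n k + 1] c → x`, so `x ∈ Om f c` (`om_near`), contradiction to the hypothesis `Om f c ∩ L = ∅`.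
`rc2_det`: suppose there is no such `r` (*). Let `S` be the set of the critical `c' ∈ JS f` with `Om f c' ⊆ Om f c`; `c ∈ S`. Let `c0 ∈ S` have the minimal number of critical points in `Om f c'` (`crit_finite`, H32/BT/Crit; the minimum of natural numbers). Claim: `Om f c0` contains no critical point. Let `c'' ∈ Om f c0` be critical. `c'' ∈ JS f` (`om_in`: `JS f` is closed and invariant,
`js_closed`, `js_iff`), `Om f c'' ⊆ Om f c0 ⊆ Om f c` (`om_sub`), so `c'' ∈ S`. `c'' ∉ Om f c''`: otherwise `c'' ∈ Om f c ∩ Om f c''`, contradiction to (*). So the set of the critical points in `Om f c''` is strictly contained in that of `Om f c0` (the point `c''`): contradiction to the minimality (`Set.ncard_lt_ncard`).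
Let `L = Om f c0`: closed, `⊆ JS f`, invariant (`om_fwd` with `n = 1`), without critical points. `RL f L` by `rl_of`: for a recurrent critical `r ∈ JS f` the set `Om f r ∩ L` is empty by (*) (`L ⊆ Om f c`). `hM L ..` and `exp7` give `Expd f L`; `acc_exp` (H44/RR/ACC; `hc` is `om_attr`) gives `K'` with `Expd f K'` and `f^[m] c0 ∈ K'`: contradiction to `hrare c0`.
-/

set_option autoImplicit false

open Filter Topology Polynomial Metric Set

namespace Pool.Agent.H47.RJ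

open Pool.Agent.H44.Fatou Pool.Agent.H32.BT Pool.Agent.H79.Eul Pool.Agent.H79.Par
open Pool.Agent.H35.EX Pool.Agent.H44.RR Pool.Agent.H56.HR Pool.Agent.H44.RC

variable {d : ℕ} {v : E d}

/-- Mañé's theorem for `f` -/
def ManeC (f : OnePoint ℂ → OnePoint ℂ) : Prop :=
  ∀ L : Set (OnePoint ℂ), IsClosed L → L ⊆ JS f → MapsTo f L L → RL f L →
    ∀ ε : ℝ, 0 < ε → ∃ δ : ℝ, 0 < δ ∧ ∀ w ∈ L, ∀ (n : ℕ) (A : Set (OnePoint ℂ)),
      IsPreconnected A → (∀ a ∈ A, chord w (f^[n] a) < δ) → Sm ε A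

theorem rl_of {f : OnePoint ℂ → OnePoint ℂ} (hf : Continuous f) (hF : FJ f)
    {L : Set (OnePoint ℂ)} (hL : IsClosed L) (hLJ : L ⊆ JS f)
    (h : ∀ c, IsCrit f c → c ∈ Om f c → c ∈ JS f → Om f c ∩ L = ∅) : RL f L := by
  intro c hc hrec
  by_cases hJ : c ∈ JS f
  · by_contra hcon
    have h1 : ∀ k : ℕ, ∃ (n : ℕ) (x : OnePoint ℂ), x ∈ L ∧
        chord (f^[n + 1] c) x < 1 / ((k : ℝ) + 1) := by
      intro k
      by_contra h2
      apply hcon
      refine ⟨1 / ((k : ℝ) + 1), by positivity, fun n x hx => ?_⟩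
      by_contra h3
      exact h2 ⟨n, x, hx, not_le.1 h3⟩
    choose n x hx hnx using h1
    obtain ⟨y, σ, hσ, hy⟩ := ch_seq x
    have hyL : y ∈ L := hL.mem_of_tendsto hy (Eventually.of_forall fun k => hx (σ k))
    have h4 : Tendsto (fun k => f^[n (σ k) + 1] c) atTop (𝓝 y) := by
      refine ch_tend.2 fun ε hε => ?_
      have h5 : ∀ᶠ k : ℕ in atTop, 1 / ((σ k : ℝ) + 1) < ε / 2 := by
        obtain ⟨K, hK⟩ := exists_nat_one_div_lt (half_pos hε)
        filter_upwards [eventually_ge_atTop K] with k hk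
        refine lt_of_le_of_lt ?_ hK
        have h6 : (K : ℝ) ≤ σ k := by exact_mod_cast hk.trans (hσ.id_le k)
        have h7 : (0 : ℝ) < (K : ℝ) + 1 := by positivity
        exact one_div_le_one_div_of_le h7 (by linarith)
      filter_upwards [h5, (ch_tend.1 hy) (ε / 2) (half_pos hε)] with k hk1 hk2
      have h8 := ch_tri y (x (σ k)) (f^[n (σ k) + 1] c)
      have h9 := hnx (σ k)
      rw [chord_comm] at h9
      have h10 : chord y (x (σ k)) < ε / 2 := hk2
      linarith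
    have h11 : y ∈ Om f c := om_near hf hrec h4
    have h12 := h c hc hrec hJ
    have h13 : y ∈ Om f c ∩ L := ⟨h11, hyL⟩
    rw [h12] at h13
    exact h13
  · have hFS : c ∈ FS f := by
      by_contra h1
      exact hJ h1
    obtain ⟨η, hη, h2⟩ := hF {c} (singleton_subset_iff.2 hFS) isCompact_singleton
    exact ⟨η, hη, fun n x hx => h2 c (mem_singleton c) (n + 1) x (hLJ hx)⟩

theorem rc2_det (hd : 2 ≤ d) (hcop : IsCoprime (pol v.1) (pol v.2))
    (hdeg : max (pol v.1).natDegree (pol v.2).natDegree = d) (hF : FJ (Rf v))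
    (hM : ManeC (Rf v))
    (hrare : ∀ c, IsCrit (Rf v) c → ¬ ∃ K : Set (OnePoint ℂ), Expd (Rf v) K ∧
      ∃ m : ℕ, (Rf v)^[m] c ∈ K) {c : OnePoint ℂ} (hc : IsCrit (Rf v) c)
    (hJ : c ∈ JS (Rf v)) :
    ∃ r, IsCrit (Rf v) r ∧ r ∈ JS (Rf v) ∧ r ∈ Om (Rf v) r ∧
      (Om (Rf v) c ∩ Om (Rf v) r).Nonempty := by
  by_contra hno
  have hcont : Continuous (Rf v) := rat_continuous hcop
  have hno' : ∀ r, IsCrit (Rf v) r → r ∈ Om (Rf v) r → r ∈ JS (Rf v) →
      Om (Rf v) c ∩ Om (Rf v) r = ∅ := by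
    intro r h1 h2 h3
    by_contra h4
    exact hno ⟨r, h1, h3, h2, nonempty_iff_ne_empty.2 h4⟩
  have hfin : {x | IsCrit (Rf v) x}.Finite := crit_finite hcop (by omega)
  have hOJ : ∀ x ∈ JS (Rf v), Om (Rf v) x ⊆ JS (Rf v) := by
    intro x hx
    exact om_in (js_closed _) fun n => (js_iff (by omega) hcop hdeg n x).2 hx
  obtain ⟨c0, ⟨hc0, hc0J, hc0O⟩, hmin⟩ := Set.exists_min_image
    {x | IsCrit (Rf v) x ∧ x ∈ JS (Rf v) ∧ Om (Rf v) x ⊆ Om (Rf v) c}
    (fun x => {y | IsCrit (Rf v) y ∧ y ∈ Om (Rf v) x}.ncard)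
    (hfin.subset fun x hx => hx.1) ⟨c, hc, hJ, Subset.rfl⟩
  have hcr : ∀ x ∈ Om (Rf v) c0, ¬ IsCrit (Rf v) x := by
    intro x hx hxc
    have h1 : x ∈ JS (Rf v) := hOJ c0 hc0J hx
    have h2 : Om (Rf v) x ⊆ Om (Rf v) c0 := om_sub hcont hx
    have h3 : x ∉ Om (Rf v) x := by
      intro h4
      have h5 := hno' x hxc h4 h1
      have h6 : x ∈ Om (Rf v) c ∩ Om (Rf v) x := ⟨hc0O hx, h4⟩
      rw [h5] at h6
      exact h6
    have h7 : {y | IsCrit (Rf v) y ∧ y ∈ Om (Rf v) c0}.ncard ≤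
        {y | IsCrit (Rf v) y ∧ y ∈ Om (Rf v) x}.ncard := hmin x ⟨hxc, h1, h2.trans hc0O⟩
    have h8 : {y | IsCrit (Rf v) y ∧ y ∈ Om (Rf v) x}.ncard <
        {y | IsCrit (Rf v) y ∧ y ∈ Om (Rf v) c0}.ncard := by
      refine Set.ncard_lt_ncard ?_ (hfin.subset fun y hy => hy.1)
      refine ⟨fun y hy => ⟨hy.1, h2 hy.2⟩, fun h9 => ?_⟩
      exact h3 (h9 ⟨hxc, hx⟩).2
    omega
  have hL := om_closed (f := Rf v) c0
  have hLJ := hOJ c0 hc0J
  have hm : MapsTo (Rf v) (Om (Rf v) c0) (Om (Rf v) c0) := fun x hx => om_fwd hcont hx 1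
  have hRL : RL (Rf v) (Om (Rf v) c0) := by
    refine rl_of hcont hF hL hLJ fun r h1 h2 h3 => ?_
    have h4 := hno' r h1 h2 h3
    rw [Set.eq_empty_iff_forall_notMem] at h4 ⊢
    exact fun y hy => h4 y ⟨hc0O hy.2, hy.1⟩
  have hE : Expd (Rf v) (Om (Rf v) c0) := exp7 hd hcop hdeg hL hLJ hm hcr (hM _ hL hLJ hm hRL)
  obtain ⟨K', hK', hm'⟩ := acc_exp hd hcop hdeg hE (c := c0) fun U hU hKU => om_attr hU hKU
  exact hrare c0 hc0 ⟨K', hK', hm'⟩

end Pool.Agent.H47.RJ
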