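import Pool.Agent.H44.RC.RCD
import Pool.Agent.H79.PJ.RIter

/-!
# Module CNT: the number of preimages

PROOF. By `rat_iter` (H79/PJ/RIter) `(Rf v)^[n] = rat A B` with `A, B` coprime, `max A.natDegree B.natDegree = d ^ n =: e ≥ 1`. So it is enough to count the solutions of `rat A B z = x`.
For `x : ℂ` and `z : ℂ`: `rat A B z = x` iff `A z = x B z` (`rat_coe`, `pt`; `B z = 0` would give `A z = 0`, impossible for coprime polynomials, `coprime_eval`): `z` is a root of `A - C x * B`, not the zero polynomial, of degree `≤ e`, and of degree `< e` if `rat A B ∞ = x`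
(`rat_infty`: then the coefficient of degree `e` vanishes): at most `e` solutions in `OnePoint ℂ`. For `x = ∞`: roots of `B`, and `∞` if `B.coeff e = 0`: at most `e`. This is `cnt_le`. `rf_surj` (`n = 1`): if `A - C x * B` has degree `≥ 1` it has a root; if it is a nonzero constant then `e ≥ 1` gives
`rat A B ∞ = x`; similarly for `x = ∞`. (Or: the image is open, `rat_open`, and compact, the sphere is connected.)
`cnt_ge`: the points `x : ℂ` such that `A - C x * B` has degree `e` and is separable have exactly `e` preimages. The exceptions are finitely many: `x = A.coeff e / B.coeff e`, and the values `A z / B z` at the zeros `z` of `Wr A B` (a double root `z` of `A - x B`: `A z = x B z`, `A' z = x B' z`, so `Wr A B z = 0` and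
`B z ≠ 0`); `Wr A B ≠ 0` since `A / B` is not constant (`e ≥ 1`; compare `wr_ne_zero`-type lemmas in H32/BT or H44/Fatou). An infinite set `S` contains an `x : ℂ` which is none of them. (Roots of a separable polynomial over `ℂ`: `card_rootSet_eq_natDegree`.)
-/

set_option autoImplicit false

open Filter Topology Polynomial Metric Set

namespace Pool.Agent.H47.RJ

open Pool.Agent.H44.Fatou Pool.Agent.H32.BT Pool.Agent.H79.Eul Pool.Agent.H79.Par
open Pool.Agent.H35.EX Pool.Agent.H44.RR Pool.Agent.H56.HR Pool.Agent.H44.RC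

variable {d : ℕ} {v : E d}

private theorem fib_ne {A B : Polynomial ℂ} (h : IsCoprime A B) (he : 1 ≤ dg A B) {a b : ℂ}
    (hab : a ≠ 0 ∨ b ≠ 0) : C b * A - C a * B ≠ 0 := by
  intro h0
  by_cases hb : b = 0
  · have ha : a ≠ 0 := by
      rcases hab with h1 | h1
      · exact h1
      · exact absurd hb h1
    rw [hb, C_0, zero_mul, zero_sub, neg_eq_zero, mul_eq_zero, C_eq_zero] at h0
    rcases h0 with h1 | h1
    · exact ha h1
    · exact den_ne_zero h he h1
  · refine ne_const h he (a / b) ?_
    have h2 : C b⁻¹ * (C b * A - C a * B) = 0 := by rw [h0, mul_zero]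
    rw [mul_sub, ← mul_assoc, ← mul_assoc, ← C_mul, ← C_mul, inv_mul_cancel₀ hb, C_1, one_mul] at h2
    rw [div_eq_inv_mul]
    exact h2

private theorem fib_deg {A B : Polynomial ℂ} (a b : ℂ) :
    (C b * A - C a * B).natDegree ≤ dg A B := by
  refine (natDegree_sub_le _ _).trans (max_le ?_ ?_)
  · exact (natDegree_C_mul_le _ _).trans (le_max_left _ _)
  · exact (natDegree_C_mul_le _ _).trans (le_max_right _ _)

private theorem fib_coe {A B : Polynomial ℂ} (h : IsCoprime A B) {a b : ℂ}
    (hab : a ≠ 0 ∨ b ≠ 0) (z : ℂ) :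
    rat A B (z : OnePoint ℂ) = pt a b ↔ (C b * A - C a * B).eval z = 0 := by
  rw [rat_coe, eval_sub, eval_mul, eval_mul, eval_C, eval_C]
  constructor
  · intro h1
    have h2 := pt_eq h1
    linear_combination h2
  · intro h1
    exact Pool.Agent.H91.Fatou.pt_eq_pt (coprime_eval h z) hab (by linear_combination h1)

private theorem fib_inf {A B : Polynomial ℂ} (h : IsCoprime A B) {a b : ℂ}
    (hab : a ≠ 0 ∨ b ≠ 0) :
    rat A B OnePoint.infty = pt a b ↔ (C b * A - C a * B).coeff (dg A B) = 0 := by
  rw [rat_infty, coeff_sub, coeff_C_mul, coeff_C_mul]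
  constructor
  · intro h1
    have h2 := pt_eq h1
    linear_combination h2
  · intro h1
    exact Pool.Agent.H91.Fatou.pt_eq_pt (coeff_dg h) hab (by linear_combination h1)

private theorem rep (x : OnePoint ℂ) : ∃ a b : ℂ, (a ≠ 0 ∨ b ≠ 0) ∧ pt a b = x := by
  induction x using OnePoint.rec with
  | infty =>
    refine ⟨1, 0, Or.inl one_ne_zero, ?_⟩
    unfold pt
    rw [if_pos rfl]
  | coe z =>
    refine ⟨z, 1, Or.inr one_ne_zero, ?_⟩
    unfold pt
    rw [if_neg one_ne_zero, div_one]

private theorem surj' {A B : Polynomial ℂ} (h : IsCoprime A B) (he : 1 ≤ dg A B) :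
    Function.Surjective (rat A B) := by
  intro x
  obtain ⟨a, b, hab, rfl⟩ := rep x
  by_cases h0 : (C b * A - C a * B).coeff (dg A B) = 0
  · exact ⟨OnePoint.infty, (fib_inf h hab).2 h0⟩
  · have h1 : dg A B ≤ (C b * A - C a * B).natDegree := le_natDegree_of_ne_zero h0
    have h2 : (C b * A - C a * B).degree ≠ 0 := by
      intro h3
      have : (C b * A - C a * B).natDegree = 0 := natDegree_eq_of_degree_eq_some h3
      omega
    obtain ⟨z, hz⟩ := IsAlgClosed.exists_root _ h2
    exact ⟨z, (fib_coe h hab z).2 hz⟩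

private theorem fib_set {A B : Polynomial ℂ} (h : IsCoprime A B) (he : 1 ≤ dg A B) {a b : ℂ}
    (hab : a ≠ 0 ∨ b ≠ 0) :
    {z | rat A B z = pt a b} =
      {z | z = OnePoint.infty ∧ (C b * A - C a * B).coeff (dg A B) = 0} ∪
      (((↑) : ℂ → OnePoint ℂ) '' ((C b * A - C a * B).roots.toFinset : Set ℂ)) := by
  have hne := fib_ne h he hab
  ext z
  induction z using OnePoint.rec with
  | infty =>
    simp only [mem_setOf_eq, mem_union, mem_image, true_and]
    rw [fib_inf h hab]
    constructor
    · intro h1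
      exact Or.inl h1
    · rintro (h1 | ⟨y, _, h1⟩)
      · exact h1
      · exact absurd h1 (OnePoint.coe_ne_infty _)
  | coe z =>
    simp only [mem_setOf_eq, mem_union, mem_image]
    rw [fib_coe h hab]
    constructor
    · intro h1
      refine Or.inr ⟨z, ?_, rfl⟩
      rw [Finset.mem_coe, Multiset.mem_toFinset, mem_roots hne]
      exact h1
    · rintro (⟨h1, _⟩ | ⟨y, h2, h1⟩)
      · exact absurd h1 (OnePoint.coe_ne_infty _)
      · rw [OnePoint.coe_eq_coe] at h1
        rw [Finset.mem_coe, Multiset.mem_toFinset, mem_roots hne, h1] at h2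
        exact h2

private theorem le' {A B : Polynomial ℂ} (h : IsCoprime A B) (he : 1 ≤ dg A B) (x : OnePoint ℂ) :
    {z | rat A B z = x}.Finite ∧ {z | rat A B z = x}.ncard ≤ dg A B := by
  obtain ⟨a, b, hab, rfl⟩ := rep x
  rw [fib_set h he hab]
  set F := C b * A - C a * B with hF
  have hc1 : (((↑) : ℂ → OnePoint ℂ) '' (F.roots.toFinset : Set ℂ)).ncard ≤ F.natDegree := by
    refine (Set.ncard_image_le (Finset.finite_toSet _)).trans ?_
    rw [Set.ncard_coe_finset]
    exact (Multiset.toFinset_card_le _).trans (card_roots' _)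
  have hfin : (((↑) : ℂ → OnePoint ℂ) '' (F.roots.toFinset : Set ℂ)).Finite :=
    (Finset.finite_toSet _).image _
  have hfin2 : {z : OnePoint ℂ | z = OnePoint.infty ∧ F.coeff (dg A B) = 0}.Finite :=
    (Set.finite_singleton (OnePoint.infty : OnePoint ℂ)).subset fun z hz => hz.1
  refine ⟨hfin2.union hfin, (Set.ncard_union_le _ _).trans ?_⟩
  by_cases h0 : F.coeff (dg A B) = 0
  · have h1 : {z : OnePoint ℂ | z = OnePoint.infty ∧ F.coeff (dg A B) = 0}.ncard ≤ 1 := by
      refine (Set.ncard_le_ncard (t := {(OnePoint.infty : OnePoint ℂ)}) (fun z hz => hz.1)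
        (Set.finite_singleton _)).trans ?_
      rw [Set.ncard_singleton]
    have h2 : F.natDegree < dg A B := by
      rcases lt_or_eq_of_le (fib_deg (A := A) (B := B) a b) with h3 | h3
      · exact h3
      · exfalso
        have h4 : F.coeff F.natDegree = 0 := by
          rw [show F.natDegree = dg A B from h3]
          exact h0
        exact fib_ne h he hab (leadingCoeff_eq_zero.1 h4)
    omega
  · have h1 : {z : OnePoint ℂ | z = OnePoint.infty ∧ F.coeff (dg A B) = 0} = ∅ := by
      ext z
      simp only [mem_setOf_eq, mem_empty_iff_false, iff_false, not_and]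
      exact fun _ => h0
    rw [h1, Set.ncard_empty, zero_add]
    exact hc1.trans (fib_deg a b)

private theorem ge' {A B : Polynomial ℂ} (h : IsCoprime A B) (he : 1 ≤ dg A B)
    {S : Set (OnePoint ℂ)} (hS : S.Infinite) :
    ∃ x ∈ S, dg A B ≤ {z | rat A B z = x}.ncard := by
  have hW : Wr A B ≠ 0 := Pool.Agent.H91.Fatou.wr_ne_zero h he
  have hbad : ({rat A B OnePoint.infty} ∪ (fun z : ℂ => rat A B (z : OnePoint ℂ)) '' {z | (Wr A B).IsRoot z}).Finite :=
    (Set.finite_singleton _).union ((Polynomial.finite_setOfPred_isRoot hW).image _)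
  obtain ⟨x, hxS, hx⟩ := (hS.diff hbad).nonempty
  refine ⟨x, hxS, ?_⟩
  obtain ⟨a, b, hab, rfl⟩ := rep x
  have hne := fib_ne h he hab
  have h0 : (C b * A - C a * B).coeff (dg A B) ≠ 0 := by
    intro h0
    exact hx (Or.inl ((fib_inf h hab).2 h0).symm)
  have hdeg : (C b * A - C a * B).natDegree = dg A B :=
    le_antisymm (fib_deg a b) (le_natDegree_of_ne_zero h0)
  have hsep : (C b * A - C a * B).Separable := by
    refine isCoprime_of_roots fun z => ?_
    by_contra hcon
    push Not at hcon
    obtain ⟨h1, h2⟩ := hcon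
    refine hx (Or.inr ⟨z, ?_, (fib_coe h hab z).2 h1⟩)
    show (Wr A B).eval z = 0
    rw [eval_sub, eval_mul, eval_mul, eval_C, eval_C] at h1
    rw [derivative_sub, derivative_C_mul, derivative_C_mul, eval_sub, eval_mul, eval_mul, eval_C,
      eval_C] at h2
    unfold Wr
    rw [eval_sub, eval_mul, eval_mul]
    rcases hab with h3 | h3
    · apply mul_left_cancel₀ h3
      linear_combination (eval z A) * h2 - (eval z (derivative A)) * h1
    · apply mul_left_cancel₀ h3
      linear_combination (eval z B) * h2 - (eval z (derivative B)) * h1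
  have hcard : (C b * A - C a * B).roots.toFinset.card = dg A B := by
    rw [Multiset.toFinset_card_of_nodup (nodup_roots hsep), ← hdeg]
    exact (IsAlgClosed.splits _).natDegree_eq_card_roots.symm
  rw [fib_set h he hab]
  calc dg A B = (((↑) : ℂ → OnePoint ℂ) '' ((C b * A - C a * B).roots.toFinset : Set ℂ)).ncard := by
        rw [Set.ncard_image_of_injective _ OnePoint.coe_injective, Set.ncard_coe_finset, hcard]
    _ ≤ _ := by
        refine Set.ncard_le_ncard Set.subset_union_right ?_
        exact ((Set.finite_singleton (OnePoint.infty : OnePoint ℂ)).subset fun z hz => hz.1).union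
          ((Finset.finite_toSet _).image _)

private theorem one_le {A B : Polynomial ℂ} {n : ℕ} (hd : 1 ≤ d) (h : dg A B = d ^ n) :
    1 ≤ dg A B := by
  rw [h]
  exact Nat.one_le_pow _ _ hd

theorem rf_surj (hd : 1 ≤ d) (hcop : IsCoprime (pol v.1) (pol v.2))
    (hdeg : max (pol v.1).natDegree (pol v.2).natDegree = d) : Function.Surjective (Rf v) :=
  surj' hcop (by rw [show dg (pol v.1) (pol v.2) = d from hdeg]; exact hd)

theorem cnt_le (hd : 1 ≤ d) (hcop : IsCoprime (pol v.1) (pol v.2))
    (hdeg : max (pol v.1).natDegree (pol v.2).natDegree = d) (n : ℕ) (x : OnePoint ℂ) :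
    {z | (Rf v)^[n] z = x}.Finite ∧ {z | (Rf v)^[n] z = x}.ncard ≤ d ^ n := by
  have hdg : dg (pol v.1) (pol v.2) = d := hdeg
  obtain ⟨A, B, h1, h2, h3⟩ := Pool.Agent.H79.PJ.rat_iter hcop (by rw [hdg]; exact hd) n
  rw [hdg] at h2
  have h4 : {z | (Rf v)^[n] z = x} = {z | rat A B z = x} := by
    ext z
    rw [mem_setOf_eq, mem_setOf_eq, h3 z]
    exact Iff.rfl
  rw [h4, ← h2]
  exact le' h1 (one_le hd h2) x

theorem cnt_ge (hd : 1 ≤ d) (hcop : IsCoprime (pol v.1) (pol v.2))
    (hdeg : max (pol v.1).natDegree (pol v.2).natDegree = d) (n : ℕ) {S : Set (OnePoint ℂ)}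
    (hS : S.Infinite) : ∃ x ∈ S, d ^ n ≤ {z | (Rf v)^[n] z = x}.ncard := by
  have hdg : dg (pol v.1) (pol v.2) = d := hdeg
  obtain ⟨A, B, h1, h2, h3⟩ := Pool.Agent.H79.PJ.rat_iter hcop (by rw [hdg]; exact hd) n
  rw [hdg] at h2
  obtain ⟨x, hx, h5⟩ := ge' h1 (one_le hd h2) hS
  refine ⟨x, hx, ?_⟩
  have h4 : {z | (Rf v)^[n] z = x} = {z | rat A B z = x} := by
    ext z
    rw [mem_setOf_eq, mem_setOf_eq, h3 z]
    exact Iff.rfl
  rw [h4, ← h2]
  exact h5

end Pool.Agent.H47.RJ
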