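import Pool.Agent.H47.RJ.CHB
import Pool.Agent.H84.TE.LAN3
import Pool.Agent.H56.HR.EMN
import Pool.Agent.H79.Par.PerFin

/-!
# Module M3M: Montel's theorem: if the iterates omit three values on an open set, the set is in the Fatou set

PROOF. `m3_ch` (finite points): `α i, β i` with `e i = pt (α i) (β i)`, not both 0 (`exists_rep`, H91/Fatou/Hom); `e` injective: `α i β j - α j β i ≠ 0` for `i ≠ j` (`pt_eq`). Put `(R_n, S_n) = perRS (pol v.1) (pol v.2) n` (polynomials): `(Rf v)^[n] z = pt (R_n z) (S_n z)`, not both 0 (`perRS_spec`).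
`(Rf v)^[n] z ≠ e i` is `β i R_n z - α i S_n z ≠ 0`. For `x'` in `ball x (r/2)` the ball of radius `r/2` about `x'` is in `ball x r`; apply `lan3` (H84/TE/LAN3) at the centre 0, radius `r/2`, constant functions `α i, β i`, to the functions `R_n (x' + .)`, `S_n (x' + .)`: there is ONE constant `C` (depending only on `α, β, r`) with
`‖R_n' S_n - R_n S_n'‖ ≤ C (‖R_n‖ ^ 2 + ‖S_n‖ ^ 2)` at every `x'` of `ball x (r/2)`, all `n`. Hence `chord (pt (R_n z) (S_n z)) (pt (R_n w) (S_n w)) ≤ C ‖z - w‖` for `z, w` in this ball: with `u(s) = (R_n, S_n)(z + s (w - z))` the chordal distance is (`chord_pt`) the sine of the angle between the lines of `u(0)` and `u(1)`;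
the function `θ(s) = chord (pt u(0)) (pt u(s))` is continuous and its upper right derivative is at most `C ‖w - z‖` (by `ch_tri` and the derivative at `s' = s` of `chord (pt u(s)) (pt u(s'))`, which is `‖u1' u2 - u1 u2'‖ / ‖u‖ ^ 2 * ‖w - z‖`): `image_le_of_liminf_slope_right_lt_deriv_boundary` or a compactness argument
(local Lipschitz constants `≤ C + ε` along the segment and `ch_tri`). So `EqAt (Rf v) z` for every `z` in `ball x (r/2)`.
`montel3`: let `x ∈ U`. Choose `s` in `ℂ`, `s ≠ x`, and the conjugacy of `chart_ex` (H44/RR/CHT; see the proof of `emn` in H56/HR/EMN) with the homeomorphism `φ`, `g = Rf (Lin s v)`, `g (φ y) = φ (Rf v y)`, `φ x` finite: the iterates of `g` omit the three values `φ (e i)` on `φ '' U`, so `EqAt g` holds near `φ x` by `m3_ch` and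
`EqAt (Rf v)` near `x` by `eq_conj` with `chord_bilip`. [`chart_ex` needs an open set and some conditions; any conjugacy to a map `rat A B` with coprime `A, B` of the same degree by `φ y = 1 / (y - s)` (`exists_mob`, H32/BT/Mob) does; for finite `x` no chart is needed at all (`EqAt` at finite points directly), so only `x = ∞` needs it.]
-/

set_option autoImplicit false

open Filter Topology Polynomial Metric Set

namespace Pool.Agent.H47.RJ

open Pool.Agent.H44.Fatou Pool.Agent.H32.BT Pool.Agent.H79.Eul Pool.Agent.H79.Par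
open Pool.Agent.H35.EX Pool.Agent.H44.RR Pool.Agent.H56.HR Pool.Agent.H44.RC

variable {d : ℕ} {v : E d}

private theorem m3_ce (x y : OnePoint ℂ) : chord x y = Pool.Agent.H91.Fatou.chord x y := by
  induction x using OnePoint.rec with
  | infty =>
    induction y using OnePoint.rec with
    | infty =>
      show (0 : ℝ) = _
      rw [Pool.Agent.H91.Fatou.chord_self]
    | coe w =>
      change 1 / √(1 + ‖w‖ ^ 2) = ‖(1 : ℂ) * 1 - w * 0‖ / (√(‖(1 : ℂ)‖ ^ 2 + ‖(0 : ℂ)‖ ^ 2) * √(‖w‖ ^ 2 + ‖(1 : ℂ)‖ ^ 2))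
      simp [add_comm]
  | coe z =>
    induction y using OnePoint.rec with
    | infty =>
      change 1 / √(1 + ‖z‖ ^ 2) = ‖z * 0 - (1 : ℂ) * 1‖ / (√(‖z‖ ^ 2 + ‖(1 : ℂ)‖ ^ 2) * √(‖(1 : ℂ)‖ ^ 2 + ‖(0 : ℂ)‖ ^ 2))
      simp [add_comm]
    | coe w =>
      change ‖z - w‖ / (√(1 + ‖z‖ ^ 2) * √(1 + ‖w‖ ^ 2)) =
        ‖z * 1 - w * 1‖ / (√(‖z‖ ^ 2 + ‖(1 : ℂ)‖ ^ 2) * √(‖w‖ ^ 2 + ‖(1 : ℂ)‖ ^ 2))
      simp [add_comm]

private theorem m3_pt {x y x' y' : ℂ} (h : x ≠ 0 ∨ y ≠ 0) (h' : x' ≠ 0 ∨ y' ≠ 0) :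
    chord (pt x y) (pt x' y') = ‖x * y' - x' * y‖ /
      (Pool.Agent.H91.Fatou.nn x y * Pool.Agent.H91.Fatou.nn x' y') := by
  rw [m3_ce]
  exact Pool.Agent.H91.Fatou.chord_pt h h'

private theorem m3_eq {x y x' y' : ℂ} (h : x ≠ 0 ∨ y ≠ 0) (h' : x' ≠ 0 ∨ y' ≠ 0)
    (he : x * y' = x' * y) : pt x y = pt x' y' := by
  apply Pool.Agent.H91.Fatou.chord_eq_zero
  rw [Pool.Agent.H91.Fatou.chord_pt h h', he, sub_self, norm_zero, zero_div]

private theorem m3_lip {R S : ℂ → ℂ} {x : ℂ} {ρ C : ℝ} (hR : Differentiable ℂ R)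
    (hS : Differentiable ℂ S) (hne : ∀ z, R z ≠ 0 ∨ S z ≠ 0)
    (hC : ∀ z ∈ ball x ρ, ‖deriv R z * S z - R z * deriv S z‖ ≤ C * (‖R z‖ ^ 2 + ‖S z‖ ^ 2))
    {z w : ℂ} (hz : z ∈ ball x ρ) (hw : w ∈ ball x ρ) :
    chord (pt (R z) (S z)) (pt (R w) (S w)) ≤ C * ‖w - z‖ := by
  obtain ⟨u, hu⟩ : ∃ u : ℝ → ℂ, u = fun s : ℝ => z + (s : ℂ) * (w - z) := ⟨_, rfl⟩
  have hu0 : u 0 = z := by rw [hu]; simp
  have hu1 : u 1 = w := by rw [hu]; simp
  have hub : ∀ s ∈ Icc (0 : ℝ) 1, u s ∈ ball x ρ := by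
    intro s hs
    have h1 := (convex_ball x ρ) hz hw (by linarith [hs.2] : (0 : ℝ) ≤ 1 - s) hs.1 (by ring)
    have h2 : u s = (1 - s) • z + s • w := by
      rw [hu]
      simp only [Complex.real_smul]
      push_cast
      ring
    rw [h2]
    exact h1
  have hud : ∀ s : ℝ, HasDerivAt u (w - z) s := by
    intro s
    rw [hu]
    have h1 : HasDerivAt (fun s : ℝ => (s : ℂ)) 1 s := Complex.ofRealCLM.hasDerivAt
    have h2 := (h1.mul_const (w - z)).const_add z
    rwa [one_mul] at h2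
  obtain ⟨N, hN⟩ : ∃ N : ℝ → ℝ, N = fun s => Pool.Agent.H91.Fatou.nn (R (u s)) (S (u s)) := ⟨_, rfl⟩
  have hNpos : ∀ s, 0 < N s := fun s => by
    rw [hN]
    exact Pool.Agent.H91.Fatou.nn_pos (hne (u s))
  have huc : Continuous u := continuous_iff_continuousAt.2 fun s => (hud s).continuousAt
  have hRc : Continuous fun s => R (u s) := hR.continuous.comp huc
  have hSc : Continuous fun s => S (u s) := hS.continuous.comp huc
  have hNc : Continuous N := by
    rw [hN]
    exact Pool.Agent.H91.Fatou.nn_continuous.comp (hRc.prodMk hSc)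
  have hN2 : ∀ s, N s * N s = ‖R (u s)‖ ^ 2 + ‖S (u s)‖ ^ 2 := by
    intro s
    rw [hN]
    show √(‖R (u s)‖ ^ 2 + ‖S (u s)‖ ^ 2) * √(‖R (u s)‖ ^ 2 + ‖S (u s)‖ ^ 2) = _
    exact Real.mul_self_sqrt (by positivity)
  have hK : ∀ a b : ℝ, chord (pt (R (u a)) (S (u a))) (pt (R (u b)) (S (u b))) =
      ‖R (u a) * S (u b) - R (u b) * S (u a)‖ / (N a * N b) := by
    intro a b
    rw [hN]
    exact m3_pt (hne _) (hne _)
  obtain ⟨θ, hθ⟩ : ∃ θ : ℝ → ℝ, θ = fun s =>
    chord (pt (R (u 0)) (S (u 0))) (pt (R (u s)) (S (u s))) := ⟨_, rfl⟩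
  have hθc : Continuous θ := by
    have h1 : θ = fun s => ‖R (u 0) * S (u s) - R (u s) * S (u 0)‖ / (N 0 * N s) := by
      rw [hθ]
      funext s
      exact hK 0 s
    rw [h1]
    refine Continuous.div ?_ (continuous_const.mul hNc) (fun s => (mul_pos (hNpos 0) (hNpos s)).ne')
    exact ((continuous_const.mul hSc).sub (hRc.mul continuous_const)).norm
  -- the slope
  have hslope : ∀ s ∈ Ico (0 : ℝ) 1, ∀ r, C * ‖w - z‖ < r →
      ∃ᶠ t in 𝓝[>] s, slope θ s t < r := by
    intro s hs r hr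
    have hFd : HasDerivAt (fun t => R (u s) * S (u t) - R (u t) * S (u s))
        (R (u s) * ((w - z) * deriv S (u s)) - (w - z) * deriv R (u s) * S (u s)) s := by
      have h1 : HasDerivAt (fun t => S (u t)) ((w - z) * deriv S (u s)) s :=
        (hS (u s)).hasDerivAt.scomp s (hud s)
      have h2 : HasDerivAt (fun t => R (u t)) ((w - z) * deriv R (u s)) s :=
        (hR (u s)).hasDerivAt.scomp s (hud s)
      exact (h1.const_mul _).sub (h2.mul_const _)
    have h3 := (hasDerivAt_iff_tendsto_slope.1 hFd).mono_left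
      (nhdsWithin_mono s (fun t (ht : s < t) => ht.ne') : 𝓝[>] s ≤ 𝓝[≠] s)
    have h4 : Tendsto (fun t => ‖slope (fun t => R (u s) * S (u t) - R (u t) * S (u s)) s t‖ /
        (N s * N t)) (𝓝[>] s)
        (𝓝 (‖R (u s) * ((w - z) * deriv S (u s)) - (w - z) * deriv R (u s) * S (u s)‖ /
          (N s * N s))) := by
      refine h3.norm.div ?_ (mul_pos (hNpos s) (hNpos s)).ne'
      exact (continuous_const.mul hNc).continuousAt.tendsto.mono_left nhdsWithin_le_nhds
    have h5 : ‖R (u s) * ((w - z) * deriv S (u s)) - (w - z) * deriv R (u s) * S (u s)‖ /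
          (N s * N s) < r := by
      refine lt_of_le_of_lt ?_ hr
      rw [div_le_iff₀ (mul_pos (hNpos s) (hNpos s)), hN2]
      have h6 : R (u s) * ((w - z) * deriv S (u s)) - (w - z) * deriv R (u s) * S (u s) =
          -((w - z) * (deriv R (u s) * S (u s) - R (u s) * deriv S (u s))) := by ring
      rw [h6, norm_neg, norm_mul]
      have h7 := hC (u s) (hub s ⟨hs.1, hs.2.le⟩)
      calc ‖w - z‖ * ‖deriv R (u s) * S (u s) - R (u s) * deriv S (u s)‖
          ≤ ‖w - z‖ * (C * (‖R (u s)‖ ^ 2 + ‖S (u s)‖ ^ 2)) :=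
            mul_le_mul_of_nonneg_left h7 (norm_nonneg _)
        _ = _ := by ring
    have h8 := (h4.eventually_lt_const h5).and self_mem_nhdsWithin
    refine (h8.mono fun t ht => ?_).frequently
    obtain ⟨ht1, ht2⟩ := ht
    have ht3 : 0 < t - s := sub_pos.2 ht2
    refine lt_of_le_of_lt ?_ ht1
    have h9 : ‖slope (fun t => R (u s) * S (u t) - R (u t) * S (u s)) s t‖ =
        ‖R (u s) * S (u t) - R (u t) * S (u s)‖ / (t - s) := by
      rw [slope_def_module, sub_self, sub_zero, norm_smul, norm_inv, Real.norm_eq_abs,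
        abs_of_pos ht3, inv_mul_eq_div]
    have h10 : θ t - θ s ≤ ‖R (u s) * S (u t) - R (u t) * S (u s)‖ / (N s * N t) := by
      rw [← hK s t, hθ]
      have := ch_tri (pt (R (u 0)) (S (u 0))) (pt (R (u s)) (S (u s))) (pt (R (u t)) (S (u t)))
      show chord (pt (R (u 0)) (S (u 0))) (pt (R (u t)) (S (u t))) -
        chord (pt (R (u 0)) (S (u 0))) (pt (R (u s)) (S (u s))) ≤ _
      linarith
    rw [slope_def_field, h9, div_right_comm]
    exact div_le_div_of_nonneg_right h10 ht3.le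
  have hfin : ∀ ε : ℝ, 0 < ε → θ 1 ≤ C * ‖w - z‖ + ε := by
    intro ε hε
    have h1 := image_le_of_liminf_slope_right_lt_deriv_boundary (f := θ)
      (f' := fun _ => C * ‖w - z‖) (a := 0) (b := 1) hθc.continuousOn hslope
      (B := fun s => (C * ‖w - z‖ + ε) * s) (B' := fun _ => C * ‖w - z‖ + ε) ?_ ?_ ?_
      (show (1 : ℝ) ∈ Icc (0 : ℝ) 1 from ⟨zero_le_one, le_rfl⟩)
    · simpa using h1
    · rw [hθ]
      show chord (pt (R (u 0)) (S (u 0))) (pt (R (u 0)) (S (u 0))) ≤ _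
      rw [chord_zero, mul_zero]
    · intro s
      have := (hasDerivAt_id s).const_mul (C * ‖w - z‖ + ε)
      rwa [mul_one] at this
    · intro s _ _
      show C * ‖w - z‖ < C * ‖w - z‖ + ε
      linarith
  have h1 : θ 1 ≤ C * ‖w - z‖ := le_of_forall_pos_le_add hfin
  rw [hθ] at h1
  have h2 : chord (pt (R (u 0)) (S (u 0))) (pt (R (u 1)) (S (u 1))) ≤ C * ‖w - z‖ := h1
  rwa [hu0, hu1] at h2

theorem m3_ch (hd : 1 ≤ d) (hcop : IsCoprime (pol v.1) (pol v.2))
    (hdeg : max (pol v.1).natDegree (pol v.2).natDegree = d) {x : ℂ} {r : ℝ} (hr : 0 < r)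
    {e : Fin 3 → OnePoint ℂ} (he : Function.Injective e)
    (h : ∀ z ∈ ball x r, ∀ (n : ℕ) (i : Fin 3), (Rf v)^[n] (z : OnePoint ℂ) ≠ e i) :
    ∀ z ∈ ball x (r / 2), EqAt (Rf v) (z : OnePoint ℂ) := by
  choose p hps hpe using fun i => Pool.Agent.H91.Fatou.exists_rep (e i)
  have hpne : ∀ i, (p i).1 ≠ 0 ∨ (p i).2 ≠ 0 := fun i => Pool.Agent.H91.Fatou.ne_of_sphere (hps i)
  have hD : ∀ i j, i ≠ j → (p i).1 * (p j).2 - (p j).1 * (p i).2 ≠ 0 := by
    intro i j hij h0
    apply hij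
    apply he
    rw [← hpe i, ← hpe j]
    exact m3_eq (hpne i) (hpne j) (sub_eq_zero.1 h0)
  have hr2 : 0 < r / 2 := by positivity
  obtain ⟨C, hC⟩ := Pool.Agent.H84.TE.lan3 (x := (0 : ℂ)) hr2 (α := fun i _ => (p i).1)
    (β := fun i _ => (p i).2) (fun i => differentiableOn_const _) (fun i => differentiableOn_const _)
    (fun i j hij z _ => hD i j hij)
  -- the iterates
  have hit : ∀ (n : ℕ) (z : ℂ), (Rf v)^[n] (z : OnePoint ℂ) =
      pt ((perRS (pol v.1) (pol v.2) n).1.eval z) ((perRS (pol v.1) (pol v.2) n).2.eval z) :=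
    fun n z => (perRS_spec hcop z n).2
  have hb : ∀ n : ℕ, ∀ z ∈ ball x (r / 2),
      ‖deriv (fun z => (perRS (pol v.1) (pol v.2) n).1.eval z) z *
        (perRS (pol v.1) (pol v.2) n).2.eval z - (perRS (pol v.1) (pol v.2) n).1.eval z *
        deriv (fun z => (perRS (pol v.1) (pol v.2) n).2.eval z) z‖ ≤
      C * (‖(perRS (pol v.1) (pol v.2) n).1.eval z‖ ^ 2 +
        ‖(perRS (pol v.1) (pol v.2) n).2.eval z‖ ^ 2) := by
    intro n z hz
    have h1 := hC (fun t => (perRS (pol v.1) (pol v.2) n).1.eval (z + t))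
      (fun t => (perRS (pol v.1) (pol v.2) n).2.eval (z + t))
      ((Polynomial.differentiable _).comp (differentiable_id.const_add z)).differentiableOn
      ((Polynomial.differentiable _).comp (differentiable_id.const_add z)).differentiableOn
      (by
        intro i t ht h0
        have hzt : z + t ∈ ball x r := by
          rw [mem_ball, dist_eq_norm] at ht hz ⊢
          rw [sub_zero] at ht
          have h2 : z + t - x = (z - x) + t := by ring
          rw [h2]
          refine (norm_add_le _ _).trans_lt ?_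
          linarith
        apply h (z + t) hzt n i
        rw [hit, ← hpe i]
        refine m3_eq (perRS_spec hcop (z + t) n).1 (hpne i) ?_
        linear_combination h0)
    have hdc : ∀ A : Polynomial ℂ, deriv (fun t => A.eval (z + t)) 0 = deriv (fun z => A.eval z) z := by
      intro A
      have h3 := deriv_comp_const_add (f := fun z => A.eval z) z 0
      rwa [add_zero] at h3
    rw [hdc, hdc] at h1
    simpa only [add_zero] using h1
  intro z hz ε hε
  rw [OnePoint.nhds_coe_eq, Filter.eventually_map]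
  have hz' : ball x (r / 2) ∈ 𝓝 z := isOpen_ball.mem_nhds hz
  have hρ : 0 < ε / (|C| + 1) := by positivity
  filter_upwards [hz', ball_mem_nhds z hρ] with w hw1 hw2 n
  rw [hit, hit]
  have h3 := m3_lip (R := fun z => (perRS (pol v.1) (pol v.2) n).1.eval z)
    (S := fun z => (perRS (pol v.1) (pol v.2) n).2.eval z) (Polynomial.differentiable _)
    (Polynomial.differentiable _) (fun z => (perRS_spec hcop z n).1) (hb n) hz hw1
  refine lt_of_le_of_lt h3 ?_
  rw [mem_ball, dist_eq_norm, lt_div_iff₀ (by positivity)] at hw2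
  have h4 : C * ‖w - z‖ ≤ |C| * ‖w - z‖ := mul_le_mul_of_nonneg_right (le_abs_self C) (norm_nonneg _)
  have h5 : 0 ≤ ‖w - z‖ := norm_nonneg _
  by_cases h6 : ‖w - z‖ = 0
  · rw [h6] at h4 ⊢
    simp only [mul_zero] at h4 ⊢
    exact hε
  · have h7 : 0 < ‖w - z‖ := lt_of_le_of_ne h5 (Ne.symm h6)
    nlinarith

theorem montel3 (hd : 2 ≤ d) (hcop : IsCoprime (pol v.1) (pol v.2))
    (hdeg : max (pol v.1).natDegree (pol v.2).natDegree = d) {U : Set (OnePoint ℂ)}
    (hU : IsOpen U) {e : Fin 3 → OnePoint ℂ} (he : Function.Injective e)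
    (h : ∀ x ∈ U, ∀ (n : ℕ) (i : Fin 3), (Rf v)^[n] x ≠ e i) : U ⊆ FS (Rf v) := by
  intro x hx
  have hVo : IsOpen ({x}ᶜ : Set (OnePoint ℂ)) := isOpen_compl_singleton
  have hVn : ({x}ᶜ : Set (OnePoint ℂ)).Nonempty := by
    by_cases hx0 : x = OnePoint.infty
    · exact ⟨((0 : ℂ) : OnePoint ℂ), by rw [hx0]; exact OnePoint.coe_ne_infty _⟩
    · exact ⟨OnePoint.infty, fun h => hx0 h.symm⟩
  obtain ⟨s, φ, hsV, hφs, hφ, hφi, hconj, -⟩ := chart_ex hd hcop hdeg hVo hVn
  obtain ⟨hcop', hdeg', hfg⟩ := hconj v hcop hdeg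
  obtain ⟨L, -, hL⟩ := Pool.Agent.H44.RG.chord_bilip hφs hφ hφi
  have hφx : φ x ≠ OnePoint.infty := by
    intro h0
    rw [← hφs] at h0
    exact hsV (φ.injective h0).symm
  obtain ⟨x', hx'⟩ := OnePoint.ne_infty_iff_exists.1 hφx
  have hUo : IsOpen (φ '' U) := φ.isOpenMap U hU
  have hpre : IsOpen {z : ℂ | (z : OnePoint ℂ) ∈ φ '' U} := hUo.preimage OnePoint.continuous_coe
  obtain ⟨ρ, hρ, hball⟩ := Metric.isOpen_iff.1 hpre x' (by
    show (x' : OnePoint ℂ) ∈ φ '' U
    rw [hx']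
    exact ⟨x, hx, rfl⟩)
  have hm := m3_ch (v := Lin s v) (by omega) hcop' hdeg' hρ (e := fun i => φ (e i))
    (φ.injective.comp he) (by
      intro z hz n i h0
      obtain ⟨y, hy, hyz⟩ := hball hz
      rw [← hyz, iter_conj φ hfg] at h0
      exact h y hy n i (φ.injective h0))
  have hO : IsOpen (φ ⁻¹' ((fun z : ℂ => (z : OnePoint ℂ)) '' ball x' (ρ / 2))) :=
    (OnePoint.isOpenEmbedding_coe.isOpenMap _ isOpen_ball).preimage φ.continuous
  refine interior_maximal ?_ hO ?_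
  · rintro y ⟨z, hz, hzy⟩
    refine eq_conj hL hfg ?_
    rw [← hzy]
    exact hm z hz
  · exact ⟨x', mem_ball_self (by positivity), hx'⟩

end Pool.Agent.H47.RJ
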