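import Pool.Agent.H47.RJ.FJD
import Pool.Agent.H47.RJ.CHB
import Pool.Agent.H79.PJ.RIter

/-!
# Module CRP: converging iterates in charts

PROOF. Every point of the sphere is `io τ w` with `‖w‖ ≤ 1`: for finite `x` of norm `≤ 1` take `τ = true`; otherwise `τ = false`, `w = 1 / x` or `0` (`io false z = recip z`, `recip 0 = ∞`, `recip z = z⁻¹`). `io τ` is injective, continuous and open (for `τ = true` it is the open embedding of `ℂ`; for `false` composed with the
homeomorphism `z ↦ 1 / z` of the sphere), so an open embedding.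
Let `io τ w = x`, `io σ u = h x`, `‖w‖, ‖u‖ ≤ 1`. `io σ '' ball u 1` is an open neighbourhood of `h x`: by `hL x hx` there are `K` and an open `U ∋ x` with `(Rf v)^[n k] y ∈ io σ '' ball u 1` for `k ≥ K`, `y ∈ U`. Let `ball w (2 R)` be mapped into `U ∩ FS (Rf v)` by `io τ`. For `k ≥ K` define `F k z ∈ ball u 1` by
`io σ (F k z) = (Rf v)^[n k] (io τ z)`, `z ∈ ball w (2 R)`: `F k` is continuous there (open embedding).
`F k` is holomorphic: `(Rf v)^[n k] = rat A B`, coprime (`rat_iter`). Outside the point `0` (only if `τ = false`) `io τ z` is a finite point `t` (`t = z` or `1 / z`), `rat A B t = pt (A t) (B t)` (`rat_coe`). If `σ = true`: it is finite, so `B t ≠ 0` and `F k z = A t / B t`. If `σ = false`: `recip (F k z) = pt (A t) (B t)` gives `A t ≠ 0` and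
`F k z = B t / A t`. So `F k` is differentiable outside the point `0`, and at `0` by continuity (removable singularity: `Complex.differentiableOn_compl_singleton_and_continuousAt_iff`).
The `F k`, `k ≥ K`, are bounded by 2 on `ball w (2 R)`, so Lipschitz with a common constant on `closedBall w R` (Cauchy). `h (io τ z)` is the limit of `io σ (F k z)`, so it is in `io σ '' closedBall u 1` (compact); put `h (io τ z) = io σ (g z)`; `F k z → g z` pointwise (`io σ` is an embedding) and, by the common Lipschitz constant and total boundedness of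
the ball `ball w R`, uniformly on `ball w R`; `g` is differentiable (`TendstoLocallyUniformlyOn.differentiableOn`). Take `r = R`.
-/

set_option autoImplicit false

open Filter Topology Polynomial Metric Set

namespace Pool.Agent.H47.RJ

open Pool.Agent.H44.Fatou Pool.Agent.H32.BT Pool.Agent.H79.Eul Pool.Agent.H79.Par
open Pool.Agent.H35.EX Pool.Agent.H44.RR Pool.Agent.H56.HR Pool.Agent.H44.RC

variable {d : ℕ} {v : E d}

theorem io_emb (τ : Bool) : IsOpenEmbedding (io τ) := by
  cases τ with
  | true =>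
    have h1 : io true = fun z : ℂ => (z : OnePoint ℂ) := rfl
    rw [h1]
    exact OnePoint.isOpenEmbedding_coe
  | false =>
    obtain ⟨φ, h1, h2, -, -⟩ := exists_mob 0
    have h3 : io false = φ ∘ fun z : ℂ => (z : OnePoint ℂ) := by
      funext z
      show recip z = φ (z : OnePoint ℂ)
      unfold recip
      split_ifs with h
      · rw [h, h2]
      · rw [h1 z h, sub_zero]
    rw [h3]
    exact φ.isOpenEmbedding.comp OnePoint.isOpenEmbedding_coe

theorem io_ex (x : OnePoint ℂ) : ∃ (τ : Bool) (w : ℂ), ‖w‖ ≤ 1 ∧ io τ w = x := by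
  induction x using OnePoint.rec with
  | infty =>
    refine ⟨false, 0, by simp, ?_⟩
    show recip 0 = _
    unfold recip
    rw [if_pos rfl]
  | coe z =>
    rcases le_or_gt ‖z‖ 1 with h | h
    · exact ⟨true, z, h, rfl⟩
    · have hz : z ≠ 0 := by
        rintro rfl
        rw [norm_zero] at h
        linarith
      refine ⟨false, z⁻¹, ?_, ?_⟩
      · rw [norm_inv]
        exact inv_le_one_of_one_le₀ h.le
      · show recip z⁻¹ = _
        unfold recip
        rw [if_neg (inv_ne_zero hz), inv_inv]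

private theorem crp_pt {σ : Bool} {a X Y : ℂ} (h0 : X ≠ 0 ∨ Y ≠ 0) (h : io σ a = pt X Y) :
    (σ = true ∧ Y ≠ 0 ∧ a = X / Y) ∨ (σ = false ∧ X ≠ 0 ∧ a = Y / X) := by
  cases σ with
  | true =>
    left
    have h1 : ((a : ℂ) : OnePoint ℂ) = pt X Y := h
    unfold pt at h1
    split_ifs at h1 with h2
    · exact absurd h1 (OnePoint.coe_ne_infty a)
    · exact ⟨rfl, h2, OnePoint.coe_injective h1⟩
  | false =>
    right
    have h1 : recip a = pt X Y := h
    unfold pt recip at h1
    split_ifs at h1 with h2 h3 h3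
    · refine ⟨rfl, ?_, ?_⟩
      · rcases h0 with h4 | h4
        · exact h4
        · exact absurd h3 h4
      · rw [h2, h3, zero_div]
    · exact absurd h1.symm (OnePoint.coe_ne_infty _)
    · exact absurd h1 (OnePoint.coe_ne_infty _)
    · have h4 : a⁻¹ = X / Y := OnePoint.coe_injective h1
      refine ⟨rfl, ?_, ?_⟩
      · rintro rfl
        rw [zero_div, inv_eq_zero] at h4
        exact h2 h4
      · rw [← inv_inv a, h4, inv_div]

/-- the finite coordinate in the chart `τ` -/
private noncomputable def crp_t (τ : Bool) (z : ℂ) : ℂ := if τ then z else z⁻¹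

private theorem crp_io {τ : Bool} {z : ℂ} (hz : z ≠ 0) : io τ z = ((crp_t τ z : ℂ) : OnePoint ℂ) := by
  cases τ with
  | true => rfl
  | false =>
    show recip z = _
    unfold recip
    rw [if_neg hz]
    rfl

private theorem crp_diff {σ τ : Bool} {S : Set ℂ} (hS : IsOpen S) {G : ℂ → ℂ} (A B : Polynomial ℂ)
    (hAB : IsCoprime A B) (hc : ContinuousOn G S)
    (hG : ∀ z ∈ S, io σ (G z) = rat A B (io τ z)) : DifferentiableOn ℂ G S := by
  have ht : DifferentiableOn ℂ (crp_t τ) (S \ {0}) := by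
    cases τ with
    | true =>
      have h1 : crp_t true = id := rfl
      rw [h1]
      exact differentiableOn_id
    | false =>
      have h1 : crp_t false = fun z => z⁻¹ := rfl
      rw [h1]
      intro z hz
      exact (differentiableAt_inv hz.2).differentiableWithinAt
  have hA : DifferentiableOn ℂ (fun z => A.eval (crp_t τ z)) (S \ {0}) :=
    A.differentiable.comp_differentiableOn ht
  have hB : DifferentiableOn ℂ (fun z => B.eval (crp_t τ z)) (S \ {0}) :=
    B.differentiable.comp_differentiableOn ht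
  have h1 : ∀ z ∈ S \ {0}, (σ = true ∧ B.eval (crp_t τ z) ≠ 0 ∧
      G z = A.eval (crp_t τ z) / B.eval (crp_t τ z)) ∨
      (σ = false ∧ A.eval (crp_t τ z) ≠ 0 ∧ G z = B.eval (crp_t τ z) / A.eval (crp_t τ z)) := by
    intro z hz
    have h2 := hG z hz.1
    rw [crp_io hz.2, rat_coe] at h2
    exact crp_pt (coprime_eval hAB _) h2
  have h2 : DifferentiableOn ℂ G (S \ {0}) := by
    cases σ with
    | true =>
      have h3 : ∀ z ∈ S \ {0}, B.eval (crp_t τ z) ≠ 0 ∧
          G z = A.eval (crp_t τ z) / B.eval (crp_t τ z) := by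
        intro z hz
        rcases h1 z hz with h | h
        · exact h.2
        · exact absurd h.1 (by simp)
      exact (hA.div hB fun z hz => (h3 z hz).1).congr fun z hz => (h3 z hz).2
    | false =>
      have h3 : ∀ z ∈ S \ {0}, A.eval (crp_t τ z) ≠ 0 ∧
          G z = B.eval (crp_t τ z) / A.eval (crp_t τ z) := by
        intro z hz
        rcases h1 z hz with h | h
        · exact absurd h.1 (by simp)
        · exact h.2
      exact (hB.div hA fun z hz => (h3 z hz).1).congr fun z hz => (h3 z hz).2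
  by_cases h0 : (0 : ℂ) ∈ S
  · exact (Complex.differentiableOn_compl_singleton_and_continuousAt_iff (hS.mem_nhds h0)).1
      ⟨h2, hc.continuousAt (hS.mem_nhds h0)⟩
  · rwa [sdiff_singleton_eq_self h0] at h2

theorem crep (hd : 1 ≤ d) (hcop : IsCoprime (pol v.1) (pol v.2))
    (hdeg : max (pol v.1).natDegree (pol v.2).natDegree = d) {n : ℕ → ℕ}
    {h : OnePoint ℂ → OnePoint ℂ} (hL : Lim (Rf v) n h) {x : OnePoint ℂ} (hx : x ∈ FS (Rf v)) :
    ∃ (τ σ : Bool) (w : ℂ) (r : ℝ) (K : ℕ) (F : ℕ → ℂ → ℂ) (g : ℂ → ℂ), 0 < r ∧ io τ w = x ∧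
      (∀ z ∈ ball w r, io τ z ∈ FS (Rf v)) ∧
      (∀ k, K ≤ k → DifferentiableOn ℂ (F k) (ball w r) ∧
        ∀ z ∈ ball w r, (Rf v)^[n k] (io τ z) = io σ (F k z)) ∧
      DifferentiableOn ℂ g (ball w r) ∧ (∀ z ∈ ball w r, h (io τ z) = io σ (g z)) ∧
      TendstoUniformlyOn F g atTop (ball w r) := by
  have hdg : dg (pol v.1) (pol v.2) = d := hdeg
  have hfc : Continuous (Rf v) := rat_continuous hcop
  obtain ⟨τ, w, -, hxw⟩ := io_ex x
  obtain ⟨σ, u, -, hhu⟩ := io_ex (h x)
  have hV : io σ '' ball u 1 ∈ 𝓝 (h x) := by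
    rw [← hhu]
    exact (io_emb σ).isOpenMap.image_mem_nhds (ball_mem_nhds u one_pos)
  obtain ⟨pa, hpa, pb, hpb, hpab⟩ := eventually_prod_iff.1 ((hL x hx).eventually hV)
  obtain ⟨K, hK⟩ := eventually_atTop.1 hpa
  have hFSo : IsOpen (FS (Rf v)) := isOpen_interior
  have h2 : ∀ᶠ z in 𝓝 w, pb (io τ z) ∧ io τ z ∈ FS (Rf v) := by
    have h3 : Tendsto (io τ) (𝓝 w) (𝓝 x) := by
      have := (io_emb τ).continuous.tendsto w
      rwa [hxw] at this
    exact (h3.eventually hpb).and (h3.eventually (hFSo.mem_nhds hx))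
  obtain ⟨R, hR, hball⟩ := Metric.eventually_nhds_iff_ball.1 h2
  obtain ⟨j, hj⟩ : ∃ j : OnePoint ℂ → ℂ, ∀ a, j (io σ a) = a :=
    ⟨Function.invFun (io σ), Function.leftInverse_invFun (io_emb σ).injective⟩
  obtain ⟨F, hFdef⟩ : ∃ F : ℕ → ℂ → ℂ, F = fun k z => j ((Rf v)^[n k] (io τ z)) := ⟨_, rfl⟩
  obtain ⟨g, hgdef⟩ : ∃ g : ℂ → ℂ, g = fun z => j (h (io τ z)) := ⟨_, rfl⟩
  have hF : ∀ k, K ≤ k → ∀ z ∈ ball w R, F k z ∈ ball u 1 ∧
      io σ (F k z) = (Rf v)^[n k] (io τ z) := by
    intro k hk z hz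
    obtain ⟨a, ha, hae⟩ := hpab (hK k hk) (hball z hz).1
    have h3 : F k z = a := by
      rw [hFdef]
      show j ((Rf v)^[n k] (io τ z)) = a
      rw [← hae, hj]
    rw [h3]
    exact ⟨ha, hae⟩
  have hFc : ∀ k, K ≤ k → ContinuousOn (F k) (ball w R) := by
    intro k hk
    rw [(io_emb σ).toIsEmbedding.toIsInducing.continuousOn_iff]
    refine ((hfc.iterate (n k)).comp (io_emb τ).continuous).continuousOn.congr fun z hz => ?_
    exact (hF k hk z hz).2
  have hFd : ∀ k, K ≤ k → DifferentiableOn ℂ (F k) (ball w R) := by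
    intro k hk
    obtain ⟨A, B, hAB, -, hr⟩ := Pool.Agent.H79.PJ.rat_iter hcop (by rw [hdg]; exact hd) (n k)
    refine crp_diff (σ := σ) (τ := τ) isOpen_ball A B hAB (hFc k hk) fun z hz => ?_
    rw [(hF k hk z hz).2, hr]
    rfl
  have hpt : ∀ z ∈ ball w R, Tendsto (fun k => (Rf v)^[n k] (io τ z)) atTop (𝓝 (h (io τ z))) := by
    intro z hz
    exact (hL (io τ z) (hball z hz).2).comp (tendsto_id.prodMk tendsto_const_nhds)
  have hg : ∀ z ∈ ball w R, io σ (g z) = h (io τ z) := by
    intro z hz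
    have hcl : IsClosed (io σ '' closedBall u 1) :=
      ((isCompact_closedBall u 1).image (io_emb σ).continuous).isClosed
    have h3 : h (io τ z) ∈ io σ '' closedBall u 1 := by
      refine hcl.mem_of_tendsto (hpt z hz) ?_
      filter_upwards [eventually_ge_atTop K] with k hk
      exact ⟨F k z, ball_subset_closedBall (hF k hk z hz).1, (hF k hk z hz).2⟩
    obtain ⟨a, -, hae⟩ := h3
    rw [hgdef]
    show io σ (j (h (io τ z))) = _
    rw [← hae, hj]
  have hcc : ∀ z ∈ ball w R, Tendsto (fun q : ℕ × ℂ => F q.1 q.2) (atTop ×ˢ 𝓝 z) (𝓝 (g z)) := by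
    intro z hz
    rw [(io_emb σ).toIsEmbedding.toIsInducing.tendsto_nhds_iff, hg z hz]
    have h3 := (hL (io τ z) (hball z hz).2).comp
      (Tendsto.prodMap (tendsto_id (x := (atTop : Filter ℕ))) ((io_emb τ).continuous.tendsto z))
    refine h3.congr' ?_
    have h4 : ∀ᶠ q in (atTop : Filter ℕ) ×ˢ 𝓝 z, K ≤ q.1 ∧ q.2 ∈ ball w R :=
      (eventually_ge_atTop K).prod_mk (isOpen_ball.mem_nhds hz)
    filter_upwards [h4] with q hq
    exact (hF q.1 hq.1 q.2 hq.2).2.symm
  have hgc : ∀ z ∈ ball w R, ContinuousAt g z := by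
    intro z hz
    refine Metric.tendsto_nhds.2 fun ε hε => ?_
    have h3 := (hcc z hz).eventually (closedBall_mem_nhds (g z) (half_pos hε))
    obtain ⟨qa, hqa, qb, hqb, hqab⟩ := eventually_prod_iff.1 h3
    filter_upwards [hqb, isOpen_ball.mem_nhds hz] with z' h4 h5
    have h6 : Tendsto (fun k => F k z') atTop (𝓝 (g z')) :=
      (hcc z' h5).comp (tendsto_id.prodMk tendsto_const_nhds)
    have h7 : g z' ∈ closedBall (g z) (ε / 2) := by
      refine isClosed_closedBall.mem_of_tendsto h6 ?_
      filter_upwards [hqa] with k hk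
      exact hqab hk h4
    rw [mem_closedBall] at h7
    linarith
  have hlu : TendstoLocallyUniformlyOn F g atTop (ball w R) := by
    rw [tendstoLocallyUniformlyOn_iff_filter]
    intro z hz
    rw [tendstoUniformlyOnFilter_iff_tendsto]
    refine Tendsto.mono_right ?_ (nhds_le_uniformity (g z))
    rw [nhds_prod_eq]
    refine Tendsto.prodMk ?_ ?_
    · exact ((hgc z hz).tendsto.comp tendsto_snd).mono_left
        (Filter.prod_mono le_rfl nhdsWithin_le_nhds)
    · exact (hcc z hz).mono_left (Filter.prod_mono le_rfl nhdsWithin_le_nhds)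
  have hgd : DifferentiableOn ℂ g (ball w R) := by
    refine hlu.differentiableOn ?_ isOpen_ball
    filter_upwards [eventually_ge_atTop K] with k hk
    exact hFd k hk
  have hsub : closedBall w (R / 2) ⊆ ball w R := closedBall_subset_ball (by linarith)
  have hsub2 : ball w (R / 2) ⊆ ball w R := ball_subset_ball (by linarith)
  refine ⟨τ, σ, w, R / 2, K, F, g, half_pos hR, hxw, fun z hz => (hball z (hsub2 hz)).2,
    fun k hk => ⟨(hFd k hk).mono hsub2, fun z hz => (hF k hk z (hsub2 hz)).2.symm⟩,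
    hgd.mono hsub2, fun z hz => (hg z (hsub2 hz)).symm, ?_⟩
  exact ((tendstoLocallyUniformlyOn_iff_tendstoUniformlyOn_of_compact
    (isCompact_closedBall w (R / 2))).1 (hlu.mono hsub)).mono ball_subset_closedBall

end Pool.Agent.H47.RJ
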