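import Pool.Agent.H47.RJ.CHB

/-!
# Module IN7: small preimages along a set without critical points are injective

PROOF. `inj_unif`: otherwise there are `x k ∈ L` and `y k ≠ y' k` with `chord (x k) (y k), chord (x k) (y' k) < 1 / (k + 1)` and `f (y k) = f (y' k)`. Subsequence `x k → x ∈ L` (`ch_seq`, `hL`), then also `y k → x`, `y' k → x` (`ch_tri`, `ch_tend`). `x` is not critical: `f` is injective on a neighbourhood of `x`. Contradiction.
`inj_small`: let `ε` be given by `inj_unif`, `δ` by `hM (min ε (1 / 20))` halved such that `Sm` gives `< ε` (use `hM (min (ε / 2) (1 / 20))`). Let `V, x, n` be as in the statement, `j ≤ n`. `f^[j] '' V` is preconnected, contains `f^[j] x`, and `f^[n - j]` of its points is in the `δ`-disc about `f^[n] x ∈ L`. So `Sm (min (ε / 2) (1 / 20)) (f^[j] '' V)`.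
For `j = 0`: the second part. Injectivity: let `a, b ∈ V`, `f^[n] a = f^[n] b`. By descending induction `f^[j] a = f^[j] b` for `j ≤ n`: if `f^[j + 1] a = f^[j + 1] b`, both `f^[j] a, f^[j] b` have distance `≤ ε / 2 < ε` to `f^[j] x ∈ L`, so they are equal by `inj_unif`.
-/

set_option autoImplicit false

open Filter Topology Polynomial Metric Set

namespace Pool.Agent.H47.RJ

open Pool.Agent.H44.Fatou Pool.Agent.H32.BT Pool.Agent.H79.Eul Pool.Agent.H79.Par
open Pool.Agent.H35.EX Pool.Agent.H44.RR Pool.Agent.H56.HR Pool.Agent.H44.RC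

theorem inj_unif (f : OnePoint ℂ → OnePoint ℂ) {L : Set (OnePoint ℂ)} (hL : IsClosed L)
    (hcr : ∀ x ∈ L, ¬ IsCrit f x) :
    ∃ ε : ℝ, 0 < ε ∧ ∀ x ∈ L, InjOn f {y | chord x y < ε} := by
  by_contra hcon
  push Not at hcon
  have h1 : ∀ k : ℕ, ∃ x ∈ L, ∃ y y' : OnePoint ℂ, chord x y < 1 / ((k : ℝ) + 1) ∧
      chord x y' < 1 / ((k : ℝ) + 1) ∧ f y = f y' ∧ y ≠ y' := by
    intro k
    obtain ⟨x, hx, hni⟩ := hcon (1 / ((k : ℝ) + 1)) (by positivity)
    unfold InjOn at hni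
    push Not at hni
    obtain ⟨y, hy, y', hy', hf, hne⟩ := hni
    exact ⟨x, hx, y, y', hy, hy', hf, hne⟩
  choose x hx y y' hy hy' hf hne using h1
  obtain ⟨x0, σ, hσ, hlim⟩ := ch_seq x
  have hx0 : x0 ∈ L := hL.mem_of_tendsto hlim (Eventually.of_forall fun k => hx (σ k))
  have key : ∀ u : ℕ → OnePoint ℂ, (∀ k, chord (x k) (u k) < 1 / ((k : ℝ) + 1)) →
      Tendsto (u ∘ σ) atTop (𝓝 x0) := by
    intro u hu
    rw [ch_tend]
    intro ε hε
    have g1 := ch_tend.1 hlim (ε / 2) (by positivity)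
    have g2 : ∀ᶠ k : ℕ in atTop, 1 / ((k : ℝ) + 1) < ε / 2 :=
      (tendsto_one_div_add_atTop_nhds_zero_nat (𝕜 := ℝ)).eventually_lt_const (by positivity)
    filter_upwards [g1, hσ.tendsto_atTop.eventually g2] with k h2 h3
    calc chord x0 ((u ∘ σ) k) ≤ chord x0 (x (σ k)) + chord (x (σ k)) (u (σ k)) := ch_tri _ _ _
      _ < ε / 2 + ε / 2 := add_lt_add h2 ((hu (σ k)).trans h3)
      _ = ε := by ring
  have hnc := hcr x0 hx0
  unfold IsCrit at hnc
  push Not at hnc
  obtain ⟨U, hU, hinj⟩ := hnc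
  obtain ⟨k, h2, h3⟩ := ((key y hy).eventually hU |>.and ((key y' hy').eventually hU)).exists
  exact hne (σ k) (hinj h2 h3 (hf (σ k)))

theorem inj_small {f : OnePoint ℂ → OnePoint ℂ} (hf : Continuous f) {L : Set (OnePoint ℂ)}
    (hL : IsClosed L) (hm : MapsTo f L L) (hcr : ∀ x ∈ L, ¬ IsCrit f x)
    (hM : ∀ ε : ℝ, 0 < ε → ∃ δ : ℝ, 0 < δ ∧ ∀ w ∈ L, ∀ (n : ℕ) (A : Set (OnePoint ℂ)),
      IsPreconnected A → (∀ a ∈ A, chord w (f^[n] a) < δ) → Sm ε A) :
    ∃ δ : ℝ, 0 < δ ∧ ∀ x ∈ L, ∀ (n : ℕ) (V : Set (OnePoint ℂ)), IsPreconnected V → x ∈ V →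
      (∀ a ∈ V, chord (f^[n] x) (f^[n] a) < δ) → InjOn f^[n] V ∧ ∀ a ∈ V, chord x a < 1 / 10 := by
  obtain ⟨ε, hε, hinj⟩ := inj_unif f hL hcr
  obtain ⟨δ, hδ, hδM⟩ := hM (min (ε / 2) (1 / 20)) (by positivity)
  refine ⟨δ, hδ, fun x hx n V hV hxV hVn => ?_⟩
  have hsm : ∀ j ≤ n, Sm (min (ε / 2) (1 / 20)) (f^[j] '' V) := by
    intro j hj
    refine hδM (f^[n] x) (hm.iterate n hx) (n - j) (f^[j] '' V)
      (hV.image _ (hf.iterate j).continuousOn) ?_
    rintro _ ⟨u, hu, rfl⟩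
    rw [← Function.iterate_add_apply, Nat.sub_add_cancel hj]
    exact hVn u hu
  have hmin1 := min_le_left (ε / 2) (1 / 20 : ℝ)
  have hmin2 := min_le_right (ε / 2) (1 / 20 : ℝ)
  constructor
  · intro a ha b hb hab
    have key : ∀ i, i ≤ n → f^[n - i] a = f^[n - i] b := by
      intro i
      induction i with
      | zero =>
        intro _
        exact hab
      | succ i ih =>
        intro hi
        have h1 := ih (by omega)
        have e1 : n - i = (n - (i + 1)) + 1 := by omega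
        rw [e1, Function.iterate_succ_apply', Function.iterate_succ_apply'] at h1
        have h2 := hsm (n - (i + 1)) (by omega)
        refine hinj (f^[n - (i + 1)] x) (hm.iterate _ hx) ?_ ?_ h1
        · have h3 := h2 _ (mem_image_of_mem _ hxV) _ (mem_image_of_mem _ ha)
          show chord _ _ < ε
          linarith
        · have h3 := h2 _ (mem_image_of_mem _ hxV) _ (mem_image_of_mem _ hb)
          show chord _ _ < ε
          linarith
    have h1 := key n le_rfl
    rw [Nat.sub_self] at h1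
    exact h1
  · intro a ha
    have h1 := hsm 0 (Nat.zero_le n) x ⟨x, hxV, rfl⟩ a ⟨a, ha, rfl⟩
    linarith

end Pool.Agent.H47.RJ
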