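import Pool.Agent.H47.RJ.COV

/-!
# Module JT9: high iterates are not injective on discs centred in the Julia set

PROOF. `N, M` from `cover`. Let `D = sum_(j ≤ M) d ^ j < d ^ (M + 1)` (`d ≥ 2`) and `n ≥ M + 1`, so `D < d ^ n`. Suppose that `y ∈ JS f` and `f^[n]` is injective on the disc `{z | chord y z < η}`. By `cnt_ge` with `S = Nᶜ` there is `x ∉ N` with at least `d ^ n` preimages under `f^[n]`. Every preimage `z` is outside `N`, so `z = f^[j] b`, `j ≤ M`, `chord y b < η`
(`cover`; choose `j, b` for each `z`), and `w = f^[n] b` satisfies `f^[j] w = f^[n] z = x`. The map `z ↦ (j, w)` is injective (`w` determines `b` by injectivity, `z = f^[j] b`), with values in `{(j, w) | j ≤ M, f^[j] w = x}`, which has at most `D` elements (`cnt_le`). Contradiction.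
-/

set_option autoImplicit false

open Filter Topology Polynomial Metric Set

namespace Pool.Agent.H47.RJ

open Pool.Agent.H44.Fatou Pool.Agent.H32.BT Pool.Agent.H79.Eul Pool.Agent.H79.Par
open Pool.Agent.H35.EX Pool.Agent.H44.RR Pool.Agent.H56.HR Pool.Agent.H44.RC

variable {d : ℕ} {v : E d}

theorem jt9 (hd : 2 ≤ d) (hcop : IsCoprime (pol v.1) (pol v.2))
    (hdeg : max (pol v.1).natDegree (pol v.2).natDegree = d) :
    ∀ η : ℝ, 0 < η → ∃ N : ℕ, ∀ y ∈ JS (Rf v), ∀ n : ℕ, N ≤ n →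
      ¬ InjOn (Rf v)^[n] {z | chord y z < η} := by
  classical
  intro η hη
  obtain ⟨N, M, -, hNN, -, hNinf, hcov⟩ := cover hd hcop hdeg hη
  refine ⟨M + 1, fun y hy n hn hinj => ?_⟩
  have hd1 : 1 ≤ d := by omega
  obtain ⟨x, hxS, hcard⟩ := cnt_ge hd1 hcop hdeg n hNinf
  have hfin : ∀ k, {z | (Rf v)^[k] z = x}.Finite := fun k => (cnt_le hd1 hcop hdeg k x).1
  have hle : ∀ k, (hfin k).toFinset.card ≤ d ^ k := by
    intro k
    rw [← Set.ncard_eq_toFinset_card _ (hfin k)]
    exact (cnt_le hd1 hcop hdeg k x).2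
  have hex : ∀ z : OnePoint ℂ, ∃ jb : ℕ × OnePoint ℂ, (Rf v)^[n] z = x →
      jb.1 ≤ M ∧ chord y jb.2 < η ∧ (Rf v)^[jb.1] jb.2 = z := by
    intro z
    by_cases hz : (Rf v)^[n] z = x
    · have hzN : z ∉ N := by
        intro h
        have h1 : (Rf v)^[n] z ∈ N := hNN.iterate n h
        rw [hz] at h1
        exact hxS h1
      obtain ⟨j, hj, b, hb, hjb⟩ := hcov y hy z hzN
      exact ⟨(j, b), fun _ => ⟨hj, hb, hjb⟩⟩
    · exact ⟨(0, z), fun h => absurd h hz⟩
  choose φ hφ using hex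
  have h1 : (hfin n).toFinset.card ≤
      ((Finset.range (M + 1)).sigma (fun j => (hfin j).toFinset)).card := by
    apply Finset.card_le_card_of_injOn
      (fun z => (⟨(φ z).1, (Rf v)^[n] (φ z).2⟩ : Σ _ : ℕ, OnePoint ℂ))
    · intro z hz
      have hz' : (Rf v)^[n] z = x := by
        simpa using hz
      obtain ⟨a1, a2, a3⟩ := hφ z hz'
      simp only [Finset.coe_sigma, Set.mem_sigma_iff, Finset.mem_coe, Finset.mem_range,
        Set.Finite.mem_toFinset]
      refine ⟨by omega, ?_⟩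
      show (Rf v)^[(φ z).1] ((Rf v)^[n] (φ z).2) = x
      rw [← Function.iterate_add_apply, add_comm, Function.iterate_add_apply, a3, hz']
    · intro z hz w hw hzw
      have hz' : (Rf v)^[n] z = x := by
        simpa using hz
      have hw' : (Rf v)^[n] w = x := by
        simpa using hw
      obtain ⟨a1, a2, a3⟩ := hφ z hz'
      obtain ⟨b1, b2, b3⟩ := hφ w hw'
      simp only [Sigma.mk.injEq, heq_eq_eq] at hzw
      have h2 := hinj a2 b2 hzw.2
      rw [← a3, ← b3, hzw.1, h2]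
  rw [Finset.card_sigma] at h1
  have h2 : ∑ j ∈ Finset.range (M + 1), (hfin j).toFinset.card < d ^ (M + 1) :=
    lt_of_le_of_lt (Finset.sum_le_sum fun j _ => hle j)
      (Nat.geomSum_lt hd (fun k hk => Finset.mem_range.mp hk))
  have h3 : d ^ (M + 1) ≤ d ^ n := Nat.pow_le_pow_right hd1 hn
  rw [Set.ncard_eq_toFinset_card _ (hfin n)] at hcard
  omega

end Pool.Agent.H47.RJ
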