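import Pool.Agent.H47.RJ.LCS
import Pool.Agent.H32.BT.Crit

/-!
# Module ONT: components of preimages

`rf_it_open`: `rat_open` (H32/BT/Crit) and induction. `cc_opn`: `(Rf v)^[n] ⁻¹' D` is open (`Rf v` is continuous, `rat_continuous`), `cci_open` (LCS). `cc_ont`: `E = (Rf v)^[n] '' V`, `V = CC (Rf v) n D x`, is open, nonempty (`mem_connectedComponentIn`), contained in `D`. `E` is closed in `D`: let `y ∈ D ∩ closure E`: there is a point `u` in the closure of `V` with
`(Rf v)^[n] u = y` (the sphere is compact: `closure E ⊆ (Rf v)^[n] '' closure V`, the image of a compact set). `u ∈ (Rf v)^[n] ⁻¹' D`, `V ∪ {u}` is preconnected (between `V` and `closure V`, `IsPreconnected.subset_closure`) and contained in the preimage, so `u ∈ V` (`IsPreconnected.subset_connectedComponentIn`). `D` is preconnected, so `E = D`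
(`IsPreconnected.subset_of_closure_inter_subset`).
-/

set_option autoImplicit false

open Filter Topology Polynomial Metric Set

namespace Pool.Agent.H47.RJ

open Pool.Agent.H44.Fatou Pool.Agent.H32.BT Pool.Agent.H79.Eul Pool.Agent.H79.Par
open Pool.Agent.H35.EX Pool.Agent.H44.RR Pool.Agent.H56.HR Pool.Agent.H44.RC

variable {d : ℕ} {v : E d}

theorem rf_it_open (hd : 1 ≤ d) (hcop : IsCoprime (pol v.1) (pol v.2))
    (hdeg : max (pol v.1).natDegree (pol v.2).natDegree = d) (n : ℕ) :
    IsOpenMap (Rf v)^[n] := by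
  have ho : IsOpenMap (Rf v) := rat_open hcop (by rw [hdeg]; exact hd)
  induction n with
  | zero => exact IsOpenMap.id
  | succ n ih =>
    rw [Function.iterate_succ]
    exact ih.comp ho

theorem cc_opn (hcop : IsCoprime (pol v.1) (pol v.2)) {n : ℕ} {D : Set (OnePoint ℂ)}
    (hD : IsOpen D) (x : OnePoint ℂ) : IsOpen (CC (Rf v) n D x) := by
  have hfc : Continuous (Rf v) := rat_continuous hcop
  exact cci_open (hD.preimage (hfc.iterate n)) x

private theorem ont_sub {f : OnePoint ℂ → OnePoint ℂ} {n : ℕ} {D : Set (OnePoint ℂ)}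
    {y x : OnePoint ℂ} (h : x ∈ CC f n D y) : f^[n] x ∈ D := by
  have h1 : x ∈ f^[n] ⁻¹' D := connectedComponentIn_subset _ _ h
  exact h1

theorem cc_ont (hd : 1 ≤ d) (hcop : IsCoprime (pol v.1) (pol v.2))
    (hdeg : max (pol v.1).natDegree (pol v.2).natDegree = d) {n : ℕ} {D : Set (OnePoint ℂ)}
    (hD : IsOpen D) (hc : IsPreconnected D) {x : OnePoint ℂ} (hx : (Rf v)^[n] x ∈ D) :
    (Rf v)^[n] '' CC (Rf v) n D x = D := by
  have hfc : Continuous (Rf v) := rat_continuous hcop
  have hcn : Continuous (Rf v)^[n] := hfc.iterate n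
  have hmem : x ∈ CC (Rf v) n D x := mem_connectedComponentIn hx
  have h1 : IsOpen ((Rf v)^[n] '' CC (Rf v) n D x) := rf_it_open hd hcop hdeg n _ (cc_opn hcop hD x)
  have h2 : (Rf v)^[n] '' CC (Rf v) n D x ⊆ D := by
    rintro _ ⟨a, ha, rfl⟩
    exact ont_sub ha
  have h3 : D ∩ closure ((Rf v)^[n] '' CC (Rf v) n D x) ⊆ (Rf v)^[n] '' CC (Rf v) n D x := by
    rintro q ⟨hq, hqc⟩
    have h4 : IsClosed ((Rf v)^[n] '' closure (CC (Rf v) n D x)) :=
      (isClosed_closure.isCompact.image hcn).isClosed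
    have h5 : closure ((Rf v)^[n] '' CC (Rf v) n D x) ⊆ (Rf v)^[n] '' closure (CC (Rf v) n D x) :=
      closure_minimal (image_mono subset_closure) h4
    obtain ⟨u, hu, rfl⟩ := h5 hqc
    have h6 : IsPreconnected (insert u (CC (Rf v) n D x)) :=
      isPreconnected_connectedComponentIn.subset_closure (subset_insert _ _)
        (insert_subset hu subset_closure)
    have h7 : insert u (CC (Rf v) n D x) ⊆ (Rf v)^[n] ⁻¹' D := by
      rintro a (rfl | ha)
      · exact hq
      · exact ont_sub ha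
    have h8 := h6.subset_connectedComponentIn (mem_insert_of_mem _ hmem) h7
    exact ⟨u, h8 (mem_insert _ _), rfl⟩
  apply Subset.antisymm h2
  by_contra hcon
  rw [not_subset] at hcon
  obtain ⟨q, hq, hq'⟩ := hcon
  have h6 : D ⊆ (Rf v)^[n] '' CC (Rf v) n D x ∪ (closure ((Rf v)^[n] '' CC (Rf v) n D x))ᶜ := by
    intro q hq
    by_cases hqc : q ∈ closure ((Rf v)^[n] '' CC (Rf v) n D x)
    · exact Or.inl (h3 ⟨hq, hqc⟩)
    · exact Or.inr hqc
  have h7 := hc _ _ h1 isClosed_closure.isOpen_compl h6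
    ⟨_, hx, mem_image_of_mem _ hmem⟩
    ⟨q, hq, fun hqc => hq' (h3 ⟨hq, hqc⟩)⟩
  obtain ⟨z, -, hz1, hz2⟩ := h7
  exact hz2 (subset_closure hz1)

end Pool.Agent.H47.RJ
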