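import Pool.Agent.H47.RJ.CHI
import Pool.Agent.H47.RJ.IBR
import Pool.Agent.H47.RJ.ONT
import Pool.Agent.H47.RJ.IN7
import Pool.Agent.H47.RJ.JT9
import Pool.Agent.H80.AJ.Cover

/-!
# Module EX7: invariant subsets of the Julia set without critical points and with shrinking preimages are expanding

PROOF. Let `f = Rf v`, `δ ≤ 1` given by `inj_small` (IN7; the statement remains true for smaller `δ`), `N` by `jt9` with `η = δ / 512`. Claim: `Expd f L` with this `N` and `q = 2`. `L` is compact (closed). Let `x ∈ L`, `y0 = f^[N] x ∈ L`. Write `x = io τ x'`, `y0 = io σ w'`, `‖x'‖, ‖w'‖ ≤ 1` (`io_ex`). `D = cb σ w' δ` (the image of the ball `ball w' δ` under the open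
embedding `io σ`: open and preconnected), `chord y0 y < δ` for `y ∈ D` (`ch_io_le`). `V = CC f N D x`: open (`cc_opn`), preconnected, contains `x` (`mem_connectedComponentIn`), `f^[N] '' V = D` (`cc_ont`). `inj_small`: `f^[N]` is injective on `V`, and the points of `V` have distance `< 1 / 10` to `x`, so each is `io τ u` with `‖u‖ ≤ 2` (`ch_io_ex`).
For `z ∈ ball w' δ` choose `G z` with `io τ (G z) ∈ V`, `f^[N] (io τ (G z)) = io σ z`. `G w' = x'` (injectivity). `G` is continuous on the ball: for `z0` and an open `U ∋ G z0` the set `f^[N] '' (V ∩ io τ '' U)` is open (`rf_it_open`, `io_emb`) and contains `io σ z0`, so for `z` near `z0` it contains `io σ z`, and `G z ∈ U` by injectivity on `V`. `ibr`: `G` is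
differentiable and injective on the ball (`hloc`: `W = V`).
`‖deriv G w'‖ < 1 / 8`: otherwise `univ_cover` (H80/AJ/Cover) gives `ball x' (δ / 128) ⊆ G '' ball w' δ`. Every `y` with `chord x y < δ / 512` is `io τ y'` with `‖y'‖ ≤ 2` (`ch_io_ex`, `δ ≤ 1`), `‖x' - y'‖ < δ / 128` (`ch_io_ge`), so `y ∈ V`: `f^[N]` is injective on `{y | chord x y < δ / 512}`, contradiction to `jt9` (`x ∈ L ⊆ JS f`).
So `‖G z - G w'‖ ≤ 1 / 8 * ‖z - w'‖` for `z` near `w'` (derivative of norm `< 1 / 8`: `HasDerivAt` and its little-o). For `y` near `x`: `y ∈ V`, `f^[N] y = io σ z` with `z` near `w'` (continuity, `io_emb`), `‖z‖ ≤ 2`, `y = io τ (G z)`. `chord x y ≤ ‖G w' - G z‖ ≤ ‖w' - z‖ / 8` (`ch_io_le`) and `‖w' - z‖ ≤ 4 * chord y0 (f^[N] y)` (`ch_io_ge`), so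
`2 * chord x y ≤ chord (f^[N] x) (f^[N] y)`.
-/

set_option autoImplicit false

open Filter Topology Polynomial Metric Set

namespace Pool.Agent.H47.RJ

open Pool.Agent.H44.Fatou Pool.Agent.H32.BT Pool.Agent.H79.Eul Pool.Agent.H79.Par
open Pool.Agent.H35.EX Pool.Agent.H44.RR Pool.Agent.H56.HR Pool.Agent.H44.RC

variable {d : ℕ} {v : E d}

theorem exp7 (hd : 2 ≤ d) (hcop : IsCoprime (pol v.1) (pol v.2))
    (hdeg : max (pol v.1).natDegree (pol v.2).natDegree = d) {L : Set (OnePoint ℂ)}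
    (hL : IsClosed L) (hLJ : L ⊆ JS (Rf v)) (hm : MapsTo (Rf v) L L)
    (hcr : ∀ x ∈ L, ¬ IsCrit (Rf v) x)
    (hM : ∀ ε : ℝ, 0 < ε → ∃ δ : ℝ, 0 < δ ∧ ∀ w ∈ L, ∀ (n : ℕ) (A : Set (OnePoint ℂ)),
      IsPreconnected A → (∀ a ∈ A, chord w ((Rf v)^[n] a) < δ) → Sm ε A) :
    Expd (Rf v) L := by
  have hf : Continuous (Rf v) := rat_continuous hcop
  have hd1 : 1 ≤ d := by omega
  obtain ⟨δ0, hδ0, hsm⟩ := inj_small hf hL hm hcr hM
  obtain ⟨δ, hδ, hδ1, hδ2⟩ : ∃ δ : ℝ, 0 < δ ∧ δ ≤ δ0 ∧ δ ≤ 1 :=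
    ⟨min δ0 1, lt_min hδ0 one_pos, min_le_left _ _, min_le_right _ _⟩
  obtain ⟨N, hN⟩ := jt9 hd hcop hdeg (δ / 512) (by positivity)
  refine ⟨hL.isCompact, hm, N, 2, one_lt_two, fun x hx => ?_⟩
  obtain ⟨τ, x', hx'1, hx'⟩ := io_ex x
  obtain ⟨σ, w', hw'1, hw'⟩ := io_ex ((Rf v)^[N] x)
  obtain ⟨D, hD⟩ : ∃ D : Set (OnePoint ℂ), D = io σ '' ball w' δ := ⟨_, rfl⟩
  have hDo : IsOpen D := by
    rw [hD]
    exact (io_emb σ).isOpenMap _ isOpen_ball
  have hDc : IsPreconnected D := by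
    rw [hD]
    exact (convex_ball w' δ).isPreconnected.image _ (io_emb σ).continuous.continuousOn
  have hyD : (Rf v)^[N] x ∈ D := by
    rw [hD, ← hw']
    exact mem_image_of_mem _ (mem_ball_self hδ)
  obtain ⟨V, hV⟩ : ∃ V : Set (OnePoint ℂ), V = CC (Rf v) N D x := ⟨_, rfl⟩
  have hVo : IsOpen V := by
    rw [hV]
    exact cc_opn hcop hDo x
  have hVc : IsPreconnected V := by
    rw [hV]
    exact isPreconnected_connectedComponentIn
  have hxV : x ∈ V := by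
    rw [hV]
    exact mem_connectedComponentIn hyD
  have hVD : (Rf v)^[N] '' V = D := by
    rw [hV]
    exact cc_ont hd1 hcop hdeg hDo hDc hyD
  obtain ⟨hinj, h10⟩ := hsm x hx N V hVc hxV (by
    intro a ha
    have h1 : (Rf v)^[N] a ∈ D := by
      rw [← hVD]
      exact mem_image_of_mem _ ha
    rw [hD] at h1
    obtain ⟨z, hz, hza⟩ := h1
    rw [← hza, ← hw']
    refine (ch_io_le σ w' z).trans_lt ?_
    rw [mem_ball, dist_eq_norm] at hz
    rw [norm_sub_rev]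
    exact hz.trans_le hδ1)
  have hGex : ∀ z : ℂ, ∃ g : ℂ, z ∈ ball w' δ → io τ g ∈ V ∧ (Rf v)^[N] (io τ g) = io σ z := by
    intro z
    by_cases hz : z ∈ ball w' δ
    · have h1 : io σ z ∈ (Rf v)^[N] '' V := by
        rw [hVD, hD]
        exact mem_image_of_mem _ hz
      obtain ⟨a, ha, haz⟩ := h1
      have h2 := h10 a ha
      rw [← hx'] at h2
      obtain ⟨g, -, hg⟩ := ch_io_ex τ hx'1 h2
      exact ⟨g, fun _ => by rw [hg]; exact ⟨ha, haz⟩⟩
    · exact ⟨0, fun h => absurd h hz⟩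
  choose G hG using hGex
  have hGw : G w' = x' := by
    obtain ⟨h1, h2⟩ := hG w' (mem_ball_self hδ)
    apply (io_emb τ).injective
    rw [hx']
    exact hinj h1 hxV (h2.trans hw')
  have hGc : ContinuousOn G (ball w' δ) := by
    intro z0 hz0
    apply ContinuousAt.continuousWithinAt
    rw [continuousAt_def]
    intro A hA
    obtain ⟨U, hUA, hUo, hU⟩ := _root_.mem_nhds_iff.1 hA
    have h1 : IsOpen ((Rf v)^[N] '' (V ∩ io τ '' U)) :=
      rf_it_open hd1 hcop hdeg N _ (hVo.inter ((io_emb τ).isOpenMap _ hUo))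
    obtain ⟨h2, h3⟩ := hG z0 hz0
    have h4 : io σ z0 ∈ (Rf v)^[N] '' (V ∩ io τ '' U) :=
      ⟨io τ (G z0), ⟨h2, mem_image_of_mem _ hU⟩, h3⟩
    have h5 : io σ ⁻¹' ((Rf v)^[N] '' (V ∩ io τ '' U)) ∈ 𝓝 z0 :=
      (h1.preimage (io_emb σ).continuous).mem_nhds h4
    filter_upwards [h5, isOpen_ball.mem_nhds hz0] with z hz hzb
    obtain ⟨a, ⟨haV, u, huU, hua⟩, haz⟩ := hz
    obtain ⟨g1, g2⟩ := hG z hzb
    apply hUA
    have h6 : io τ (G z) = io τ u := by
      rw [hua]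
      exact hinj g1 haV (g2.trans haz.symm)
    rw [(io_emb τ).injective h6]
    exact huU
  obtain ⟨hGd, hGi⟩ := ibr hd1 hcop hdeg hGc (fun z hz => (hG z hz).2)
    (fun z hz => ⟨V, hVo.mem_nhds (hG z hz).1, hinj⟩)
  have hder : ‖deriv G w'‖ < 1 / 8 := by
    by_contra hcon
    push Not at hcon
    have hcov := Pool.Agent.H80.AJ.univ_cover hδ hGd hGi
    apply hN x (hLJ hx) N le_rfl
    refine hinj.mono ?_
    intro y hy
    have hy' : chord x y < δ / 512 := hy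
    rw [← hx'] at hy'
    obtain ⟨c, hc, hcy⟩ := ch_io_ex τ hx'1 (hy'.trans (by linarith))
    have h1 : ‖x' - c‖ ≤ 4 * chord (io τ x') (io τ c) := ch_io_ge τ hx'1 hc
    rw [hcy] at h1
    have h2 : c ∈ ball (G w') (δ * ‖deriv G w'‖ / 16) := by
      rw [mem_ball, dist_eq_norm, hGw, norm_sub_rev]
      have h3 : δ * (1 / 8) ≤ δ * ‖deriv G w'‖ := mul_le_mul_of_nonneg_left hcon hδ.le
      linarith
    obtain ⟨z, hz, hzc⟩ := hcov h2
    rw [← hcy, ← hzc]
    exact (hG z hz).1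
  have hdG : HasDerivAt G (deriv G w') w' :=
    (hGd.differentiableAt (ball_mem_nhds w' hδ)).hasDerivAt
  have hlip : ∀ᶠ z in 𝓝 w', ‖G z - G w'‖ ≤ 1 / 8 * ‖z - w'‖ := by
    have h1 := (hasDerivAt_iff_isLittleO.1 hdG).def (show 0 < 1 / 8 - ‖deriv G w'‖ by linarith)
    filter_upwards [h1] with z hz
    have h2 : ‖G z - G w'‖ ≤ ‖G z - G w' - (z - w') • deriv G w'‖ + ‖(z - w') • deriv G w'‖ := by
      have := norm_add_le (G z - G w' - (z - w') • deriv G w') ((z - w') • deriv G w')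
      rwa [sub_add_cancel] at this
    rw [norm_smul] at h2
    linarith
  have hS : io σ '' ({z | ‖G z - G w'‖ ≤ 1 / 8 * ‖z - w'‖} ∩ ball w' δ) ∈ 𝓝 ((Rf v)^[N] x) := by
    rw [← hw']
    exact (io_emb σ).isOpenMap.image_mem_nhds (Filter.inter_mem hlip (ball_mem_nhds w' hδ))
  filter_upwards [hVo.mem_nhds hxV, (hf.iterate N).continuousAt.preimage_mem_nhds hS] with y hyV hy
  obtain ⟨z, ⟨hz1, hz2⟩, hzy⟩ := hy
  obtain ⟨g1, g2⟩ := hG z hz2
  have hyz : y = io τ (G z) := hinj hyV g1 (hzy.symm.trans g2.symm)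
  have hzn : ‖z‖ ≤ 2 := by
    rw [mem_ball, dist_eq_norm] at hz2
    have : ‖z‖ ≤ ‖z - w'‖ + ‖w'‖ := by
      have := norm_add_le (z - w') w'
      rwa [sub_add_cancel] at this
    linarith
  have k1 : chord x y ≤ 1 / 8 * ‖z - w'‖ := by
    rw [hyz, ← hx', ← hGw]
    refine (ch_io_le τ _ _).trans ?_
    rw [norm_sub_rev]
    exact hz1
  have k2 : ‖z - w'‖ ≤ 4 * chord ((Rf v)^[N] x) ((Rf v)^[N] y) := by
    rw [← hzy, ← hw', norm_sub_rev]
    exact ch_io_ge σ hw'1 hzn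
  have k3 := norm_nonneg (z - w')
  linarith

end Pool.Agent.H47.RJ
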