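import Pool.Agent.H47.RJ.FJD
import Pool.Agent.H47.RJ.CHB

/-!
# Module EXI: an orbit which comes near a repelling fixed point leaves it along an inverse orbit

PROOF. `ρ1 = ρ / 2`. For `k ≥ K`: `chord a (z (b k)) < ρ1`. (1) For such `k` there is `l ≥ b k` with `chord a (z (l + 1)) ≥ ρ1`: otherwise all `z j`, `j ≥ b k`, are in the disc of radius `ρ1`, `z j = g (z (j + 1))` (`left`), `chord a (z j) ≤ κ chord a (z (j + 1))`, so `chord a (z (b k)) ≤ κ ^ i ρ1 → 0`, `z (b k) = a` (`chord_eqz`), against `hne`. Let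
`l k` be the least such `l` (and `l k = b k` for `k < K`). Then `chord a (z j) < ρ1` for `b k ≤ j ≤ l k` and `chord a (z (l k + 1)) ≥ ρ1`.
(2) By continuity of `G` at `a = G a` there is `ρ2 > 0` with: `chord a x < ρ2` implies `chord a (G x) < ρ1`; so `chord a (z (l k)) ≥ ρ2`.
(3) `l k - b k → ∞`: for fixed `i`, `z (b k + j) → G^[j] a = a` for all `j ≤ i + 1`, so for large `k` they are in the disc of radius `ρ1` and `l k > b k + i`.
(4) By `ch_seq` there are a strictly increasing `σ` and `u` with `z (l (σ k)) → u`; `ρ2 ≤ chord a u ≤ ρ1 < ρ` (`chord_cont`), `u ≠ a`.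
(5) For fixed `i` and large `k`: `z (l k - i) = g^[i] (z (l k))` (`left`, `b k ≤ l k - i`), and `g^[i]` is continuous on the disc of radius `ρ` (`g` maps it to itself by `contr`, `cont`): `z (l (σ k) - i) → g^[i] u`. Answer: `l ∘ σ`; it tends to infinity since `l k ≥ b k`.
-/

set_option autoImplicit false

open Filter Topology Polynomial Metric Set

namespace Pool.Agent.H47.RJ

open Pool.Agent.H44.Fatou Pool.Agent.H32.BT Pool.Agent.H79.Eul Pool.Agent.H79.Par
open Pool.Agent.H35.EX Pool.Agent.H44.RR Pool.Agent.H56.HR Pool.Agent.H44.RC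

theorem exi {G g : OnePoint ℂ → OnePoint ℂ} {a : OnePoint ℂ} {ρ κ : ℝ} (h : Rep G a ρ κ g)
    (hG : Continuous G) {z : ℕ → OnePoint ℂ} (hz : ∀ l, z (l + 1) = G (z l))
    (hne : ∀ l, z l ≠ a) {b : ℕ → ℕ} (hb : Tendsto b atTop atTop)
    (hlim : Tendsto (fun k => z (b k)) atTop (𝓝 a)) :
    ∃ (u : OnePoint ℂ) (l : ℕ → ℕ), Tendsto l atTop atTop ∧ u ≠ a ∧ chord a u < ρ ∧
      ∀ i : ℕ, Tendsto (fun k => z (l k - i)) atTop (𝓝 (g^[i] u)) := by
  obtain ⟨ρ1, hρ1⟩ : ∃ ρ1, ρ1 = ρ / 2 := ⟨_, rfl⟩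
  have hρ1p : 0 < ρ1 := by rw [hρ1]; exact half_pos h.hρ
  have hρ1l : ρ1 < ρ := by rw [hρ1]; exact half_lt_self h.hρ
  have hback : ∀ j, chord a (z j) < ρ → chord a (z (j + 1)) < ρ → z j = g (z (j + 1)) := by
    intro j h1 h2
    rw [hz] at h2 ⊢
    exact (h.left _ h1 h2).symm
  -- the exit time
  have hexit : ∀ j0, chord a (z j0) < ρ1 → ∃ l, j0 ≤ l ∧ ρ1 ≤ chord a (z (l + 1)) ∧
      ∀ j, j0 ≤ j → j ≤ l → chord a (z j) < ρ1 := by
    intro j0 h0
    have hex : ∃ l, j0 ≤ l ∧ ρ1 ≤ chord a (z (l + 1)) := by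
      by_contra hcon
      push Not at hcon
      have hall : ∀ i, chord a (z (j0 + i)) < ρ1 := by
        intro i
        rcases Nat.eq_zero_or_pos i with hi | hi
        · subst hi
          exact h0
        · obtain ⟨i', rfl⟩ : ∃ i', i = i' + 1 := ⟨i - 1, by omega⟩
          exact hcon (j0 + i') (Nat.le_add_right _ _)
      have hpow : ∀ i, chord a (z j0) ≤ κ ^ i * chord a (z (j0 + i)) := by
        intro i
        induction i with
        | zero => simp
        | succ i ih =>
          have h1 := hback (j0 + i) ((hall i).trans hρ1l) ((hall (i + 1)).trans hρ1l)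
          have h2 := h.contr (z (j0 + i + 1)) ((hall (i + 1)).trans hρ1l)
          rw [← h1] at h2
          have h3 := mul_le_mul_of_nonneg_left h2 (pow_nonneg h.hκ i)
          rw [pow_succ, mul_assoc]
          exact ih.trans h3
      have hle : ∀ i, chord a (z j0) ≤ κ ^ i * ρ1 := fun i =>
        (hpow i).trans (mul_le_mul_of_nonneg_left (hall i).le (pow_nonneg h.hκ i))
      have hlim0 : Tendsto (fun i : ℕ => κ ^ i * ρ1) atTop (𝓝 (0 * ρ1)) :=
        (tendsto_pow_atTop_nhds_zero_of_lt_one h.hκ h.hκ1).mul_const ρ1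
      rw [zero_mul] at hlim0
      have h5 : chord a (z j0) ≤ 0 := ge_of_tendsto' hlim0 hle
      exact hne j0 (chord_eqz (le_antisymm h5 (chord_nn _ _))).symm
    classical
    refine ⟨Nat.find hex, (Nat.find_spec hex).1, (Nat.find_spec hex).2, ?_⟩
    intro j hj hjl
    rcases hj.eq_or_lt with h1 | h1
    · rw [← h1]
      exact h0
    · obtain ⟨j', rfl⟩ : ∃ j', j = j' + 1 := ⟨j - 1, by omega⟩
      have h2 := Nat.find_min hex (m := j') (by omega)
      push Not at h2
      exact h2 (by omega)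
  have hK : ∀ᶠ k in atTop, chord a (z (b k)) < ρ1 := ch_tend.1 hlim ρ1 hρ1p
  obtain ⟨K, hK⟩ := eventually_atTop.1 hK
  have hex : ∀ k, ∃ l, b k ≤ l ∧ (K ≤ k → ρ1 ≤ chord a (z (l + 1)) ∧
      ∀ j, b k ≤ j → j ≤ l → chord a (z j) < ρ1) := by
    intro k
    by_cases hk : K ≤ k
    · obtain ⟨l, h1, h2, h3⟩ := hexit (b k) (hK k hk)
      exact ⟨l, h1, fun _ => ⟨h2, h3⟩⟩
    · exact ⟨b k, le_rfl, fun h1 => absurd h1 hk⟩
  choose l hl1 hl2 using hex
  -- continuity at the fixed point
  obtain ⟨ρ2, hρ2, hρ2'⟩ : ∃ ρ2 : ℝ, 0 < ρ2 ∧ ∀ x, chord a x < ρ2 → chord a (G x) < ρ1 := by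
    have h1 : {x | chord a (G x) < ρ1} ∈ 𝓝 a := by
      have h2 := hG.continuousAt (x := a)
      have h3 : {y | chord a y < ρ1} ∈ 𝓝 (G a) := by
        rw [h.fix]
        exact ch_ball a hρ1p
      exact h2 h3
    obtain ⟨ε, hε, hε'⟩ := ch_nhds h1
    exact ⟨ε, hε, fun x hx => hε' x hx⟩
  have hlow : ∀ k, K ≤ k → ρ2 ≤ chord a (z (l k)) := by
    intro k hk
    by_contra hcon
    push Not at hcon
    have h1 := hρ2' _ hcon
    rw [← hz] at h1
    exact absurd (hl2 k hk).1 (not_le.2 h1)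
  have hup : ∀ k, K ≤ k → chord a (z (l k)) < ρ1 := fun k hk => (hl2 k hk).2 _ (hl1 k) le_rfl
  -- long stay
  have hit : ∀ j m, z (j + m) = G^[m] (z j) := by
    intro j m
    induction m with
    | zero => rfl
    | succ m ih =>
      rw [Function.iterate_succ_apply', ← ih]
      exact hz (j + m)
  have hfixit : ∀ m, G^[m] a = a := fun m => Function.iterate_fixed h.fix m
  have hlong : ∀ i, ∀ᶠ k in atTop, b k + i ≤ l k := by
    intro i
    have h1 : ∀ᶠ k in atTop, ∀ j ∈ Finset.range (i + 1), chord a (z (b k + j)) < ρ1 := by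
      rw [Filter.eventually_all_finset]
      intro j _
      have h2 : Tendsto (fun k => z (b k + j)) atTop (𝓝 a) := by
        have h3 := ((hG.iterate j).tendsto a).comp hlim
        rw [hfixit] at h3
        refine h3.congr fun k => ?_
        exact (hit (b k) j).symm
      exact ch_tend.1 h2 ρ1 hρ1p
    filter_upwards [h1, eventually_ge_atTop K] with k hk hkK
    by_contra hcon
    push Not at hcon
    have h3 := hl1 k
    have h4 := hk (l k + 1 - b k) (Finset.mem_range.2 (by omega))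
    have h5 : b k + (l k + 1 - b k) = l k + 1 := by omega
    rw [h5] at h4
    exact absurd (hl2 k hkK).1 (not_le.2 h4)
  obtain ⟨u, σ, hσ, hu⟩ := ch_seq (fun k => z (l k))
  have hσt := hσ.tendsto_atTop
  have hu' : Tendsto (fun k => z (l (σ k))) atTop (𝓝 u) := hu
  have hchu : Tendsto (fun k => chord a (z (l (σ k)))) atTop (𝓝 (chord a u)) := by
    have h1 : Tendsto (fun k => (a, z (l (σ k)))) atTop (𝓝 (a, u)) :=
      tendsto_const_nhds.prodMk_nhds hu'
    exact (chord_cont.tendsto (a, u)).comp h1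
  have hu1 : ρ2 ≤ chord a u := by
    refine ge_of_tendsto hchu ?_
    filter_upwards [hσt.eventually_ge_atTop K] with k hk
    exact hlow _ hk
  have hu2 : chord a u ≤ ρ1 := by
    refine le_of_tendsto hchu ?_
    filter_upwards [hσt.eventually_ge_atTop K] with k hk
    exact (hup _ hk).le
  have hlt : Tendsto l atTop atTop := tendsto_atTop_mono hl1 hb
  refine ⟨u, fun k => l (σ k), hlt.comp hσt, ?_, hu2.trans_lt hρ1l, ?_⟩
  · rintro rfl
    rw [chord_zero] at hu1
    linarith
  · intro i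
    have hmaps : MapsTo g {x | chord a x < ρ} {x | chord a x < ρ} := by
      intro x hx
      have h1 := h.contr x hx
      have h2 : κ * chord a x ≤ 1 * chord a x :=
        mul_le_mul_of_nonneg_right h.hκ1.le (chord_nn _ _)
      rw [one_mul] at h2
      exact (h1.trans h2).trans_lt hx
    have hci : ContinuousOn g^[i] {x | chord a x < ρ} := h.cont.iterate hmaps i
    have hca : ContinuousAt g^[i] u := hci.continuousAt
      ((ch_open a ρ).mem_nhds (hu2.trans_lt hρ1l))
    have h1 : Tendsto (fun k => g^[i] (z (l (σ k)))) atTop (𝓝 (g^[i] u)) := hca.tendsto.comp hu'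
    refine h1.congr' ?_
    filter_upwards [hσt.eventually (hlong i), hσt.eventually_ge_atTop K] with k hk hkK
    have hstep : ∀ m, b (σ k) + m ≤ l (σ k) → g^[m] (z (l (σ k))) = z (l (σ k) - m) := by
      intro m
      induction m with
      | zero => intro _; rfl
      | succ m ih =>
        intro hm
        rw [Function.iterate_succ_apply', ih (by omega)]
        have h2 := (hl2 (σ k) hkK).2 (l (σ k) - m) (by omega) (by omega)
        have h3 := (hl2 (σ k) hkK).2 (l (σ k) - (m + 1)) (by omega) (by omega)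
        have h4 : l (σ k) - (m + 1) + 1 = l (σ k) - m := by omega
        have h5 := hback (l (σ k) - (m + 1)) (h3.trans hρ1l) (by rw [h4]; exact h2.trans hρ1l)
        rw [h4] at h5
        exact h5.symm
    exact hstep i hk

end Pool.Agent.H47.RJ
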