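import Pool.Agent.H47.RJ.FJD
import Pool.Agent.H47.RJ.LCS
import Pool.Agent.H47.RJ.FSI

/-!
# Module FCM: components of the Fatou set

PROOFS. `fc_lim`: `Fc f x` is an open neighbourhood of `x` (`cci_open`, `mem_connectedComponentIn`), so it contains some `u k`, which is also in `Fc f x0`: the components agree (`connectedComponentIn_eq`). `fc_img`: the image of the preconnected set `Fc f x0` under the continuous map `f^[m]` is preconnected, contained in `FS f`
(`fs_iff`, `connectedComponentIn_subset`) and contains `f^[m] x0` (`IsPreconnected.subset_connectedComponentIn`). `fc_self`: induction on `k`, `f^[p * (k + 1)] = f^[p] ∘ f^[p * k]`; `Fc f (f^[p] z0) = Fc f z0` by `hm` and `connectedComponentIn_eq`. `fc_sub`, `fc_pre`: Mathlib.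
-/

set_option autoImplicit false

open Filter Topology Polynomial Metric Set

namespace Pool.Agent.H47.RJ

open Pool.Agent.H44.Fatou Pool.Agent.H32.BT Pool.Agent.H79.Eul Pool.Agent.H79.Par
open Pool.Agent.H35.EX Pool.Agent.H44.RR Pool.Agent.H56.HR Pool.Agent.H44.RC

variable {d : ℕ} {v : E d}

theorem fc_sub (f : OnePoint ℂ → OnePoint ℂ) (x : OnePoint ℂ) : Fc f x ⊆ FS f :=
  connectedComponentIn_subset _ _

theorem fc_pre (f : OnePoint ℂ → OnePoint ℂ) (x : OnePoint ℂ) : IsPreconnected (Fc f x) :=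
  isPreconnected_connectedComponentIn

theorem fc_open (f : OnePoint ℂ → OnePoint ℂ) (x : OnePoint ℂ) : IsOpen (Fc f x) :=
  cci_open (fs_open f) x

theorem fc_lim {f : OnePoint ℂ → OnePoint ℂ} {x0 x : OnePoint ℂ} {u : ℕ → OnePoint ℂ}
    (hu : ∀ k, u k ∈ Fc f x0) (hx : Tendsto u atTop (𝓝 x)) (hF : x ∈ FS f) : x ∈ Fc f x0 := by
  have h1 : Fc f x ∈ 𝓝 x := (fc_open f x).mem_nhds (mem_connectedComponentIn hF)
  obtain ⟨k, hk⟩ := (hx.eventually h1).exists
  have h2 : Fc f x = Fc f (u k) := connectedComponentIn_eq hk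
  have h3 : Fc f x0 = Fc f (u k) := connectedComponentIn_eq (hu k)
  rw [h3, ← h2]
  exact mem_connectedComponentIn hF

theorem fc_img (hd : 1 ≤ d) (hcop : IsCoprime (pol v.1) (pol v.2))
    (hdeg : max (pol v.1).natDegree (pol v.2).natDegree = d) {x0 : OnePoint ℂ}
    (hx : x0 ∈ FS (Rf v)) (m : ℕ) : MapsTo (Rf v)^[m] (Fc (Rf v) x0) (Fc (Rf v) ((Rf v)^[m] x0)) := by
  have hcont : Continuous (Rf v) := rat_continuous hcop
  have h1 : IsPreconnected ((Rf v)^[m] '' Fc (Rf v) x0) :=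
    (fc_pre (Rf v) x0).image _ (hcont.iterate m).continuousOn
  have h2 : (Rf v)^[m] '' Fc (Rf v) x0 ⊆ FS (Rf v) := by
    rintro _ ⟨y, hy, rfl⟩
    exact (fs_iff hd hcop hdeg m y).2 (fc_sub _ _ hy)
  have h3 := h1.subset_connectedComponentIn
    (mem_image_of_mem _ (mem_connectedComponentIn hx)) h2
  intro y hy
  exact h3 (mem_image_of_mem _ hy)

theorem fc_self (hd : 1 ≤ d) (hcop : IsCoprime (pol v.1) (pol v.2))
    (hdeg : max (pol v.1).natDegree (pol v.2).natDegree = d) {p : ℕ} {z0 : OnePoint ℂ}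
    (hz : z0 ∈ FS (Rf v)) (hm : (Rf v)^[p] z0 ∈ Fc (Rf v) z0) (k : ℕ) :
    MapsTo (Rf v)^[p * k] (Fc (Rf v) z0) (Fc (Rf v) z0) := by
  have h0 : Fc (Rf v) ((Rf v)^[p] z0) = Fc (Rf v) z0 := (connectedComponentIn_eq hm).symm
  have h1 : MapsTo (Rf v)^[p] (Fc (Rf v) z0) (Fc (Rf v) z0) := by
    have h2 := fc_img hd hcop hdeg hz p
    rwa [h0] at h2
  rw [Function.iterate_mul]
  exact h1.iterate k

end Pool.Agent.H47.RJ
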