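import Pool.Agent.H47.RJ.RTI
import Pool.Agent.H47.RJ.REP
import Pool.Agent.H47.RJ.EXI

/-!
# Module FCO: on a periodic component no limit function has a value in the Julia set

`f = Rf v`, `Ω = Fc f z0`, `G = f^[p]`; `h z0 ∈ JS f` is assumed for a limit function `h` of `f^[p * b k]`, `b k → ∞`.
(1) `a = h z0`: `h = a` on `Ω` (`j_val`), `f^[p] a = a` (`lim_fix`). `att_or_rep`: `a ∉ FS f`, so `Rep (f^[p]) a ρ κ g`.
(2) `z l = f^[p * l] z0 ∈ Ω` (`fc_self`), so `z l ≠ a` (`a ∉ FS f`). `exi` with `G` (continuous): `u, l`, `u ≠ a`, `chord a u < ρ`, `z (l k - i) → g^[i] u` for all `i`. All `g^[i] u` are in the disc of radius `ρ` (`contr`) and `≠ a` (`g^[i+1] u = a` would give `g^[i] u = G a = a`).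
(3) `g^[i] u ∈ Ω`: by `lf_sub` for `k ↦ p * (l k - i)` there is a limit function `h_i` of `f^[p * (l (σ k) - i)]`, `h_i z0 = g^[i] u`. If `g^[i] u ∈ JS f` then `j_val`, `lim_fix` give `f^[p] (g^[i] u) = g^[i] u`, against `rep_iso`. So `g^[i] u ∈ FS f`, and `fc_lim` gives `g^[i] u ∈ Ω`.
(4) `i = 0`: `h_0 z0 = u ∈ Ω`. `h_0` is not constant near `z0`: otherwise `h_0 = u` on `Ω` (`sh_ident`, `lf_hol`, `shol_const`) and `lim_fix` gives `f^[p] u = u`, against `rep_iso`. `ret_id`: `b', ψ`, `ψ = id` on `Ω`, `f^[p * k]` injective on `Ω`.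
(5) `lf_hur` for `ψ` at `u ∈ Ω` (`ψ = id` near `u` is not constant: a neighbourhood of `u` is infinite): for every neighbourhood `U ⊆ Ω` of `u` and large `j` there is `u_j ∈ U` with `f^[p * b' j] u_j = ψ u = u`. Also `f^[p * b' j] (g^[b' j] u) = u` (`right`, `b' j` times) and `g^[b' j] u ∈ Ω`; by injectivity `u_j = g^[b' j] u`, which tends to
`a` (`chord a (g^[i] u) ≤ κ ^ i chord a u`, `ch_tend`). Take `U` a neighbourhood of `u` whose points have chordal distance from `a` larger than `chord a u / 2`: contradiction.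
-/

set_option autoImplicit false

open Filter Topology Polynomial Metric Set

namespace Pool.Agent.H47.RJ

open Pool.Agent.H44.Fatou Pool.Agent.H32.BT Pool.Agent.H79.Eul Pool.Agent.H79.Par
open Pool.Agent.H35.EX Pool.Agent.H44.RR Pool.Agent.H56.HR Pool.Agent.H44.RC

variable {d : ℕ} {v : E d}

theorem no_js_lim_ar (hd : 1 ≤ d) (hcop : IsCoprime (pol v.1) (pol v.2))
    (hdeg : max (pol v.1).natDegree (pol v.2).natDegree = d) (hN : AR v)
    {p : ℕ} (hp : 0 < p) {z0 : OnePoint ℂ} (hz : z0 ∈ FS (Rf v))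
    (hm : (Rf v)^[p] z0 ∈ Fc (Rf v) z0) {b : ℕ → ℕ} (hb : Tendsto b atTop atTop)
    {h : OnePoint ℂ → OnePoint ℂ} (hL : Lim (Rf v) (fun k => p * b k) h)
    (hJ : h z0 ∈ JS (Rf v)) : False := by
  have hcont : Continuous (Rf v) := rat_continuous hcop
  obtain ⟨f, hf⟩ : ∃ f, f = Rf v := ⟨_, rfl⟩
  obtain ⟨a, ha⟩ : ∃ a, a = h z0 := ⟨_, rfl⟩
  have hJ' : a ∉ FS (Rf v) := by
    rw [ha]
    exact hJ
  have hconst : ∀ x ∈ Fc (Rf v) z0, h x = a := by
    intro x hx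
    rw [ha]
    exact j_val hd hcop hdeg hL hz hJ x hx
  have hfix : (Rf v)^[p] a = a := lim_fix hd hcop hdeg hL hz hm hconst
  obtain ⟨ρ, κ, g, hR⟩ := (hN p hp _ hfix).resolve_left
    (fun h1 => hJ' h1.2)
  have hz0c : z0 ∈ Fc (Rf v) z0 := mem_connectedComponentIn hz
  obtain ⟨z, hzd⟩ : ∃ z : ℕ → OnePoint ℂ, ∀ l, z l = (Rf v)^[p * l] z0 := ⟨_, fun _ => rfl⟩
  have hzc : ∀ l, z l ∈ Fc (Rf v) z0 := by
    intro l
    rw [hzd]
    exact fc_self hd hcop hdeg hz hm l hz0c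
  have hzs : ∀ l, z (l + 1) = (Rf v)^[p] (z l) := by
    intro l
    rw [hzd, hzd, ← Function.iterate_add_apply, Nat.mul_succ, Nat.add_comm]
  have hzne : ∀ l, z l ≠ a := fun l h1 => hJ' (h1 ▸ fc_sub _ _ (hzc l))
  have hpt : ∀ {n : ℕ → ℕ} {h : OnePoint ℂ → OnePoint ℂ}, Lim (Rf v) n h →
      Tendsto (fun k => (Rf v)^[n k] z0) atTop (𝓝 (h z0)) := by
    intro n h hL
    have h1 : Tendsto (fun k : ℕ => (k, z0)) atTop (atTop ×ˢ 𝓝 z0) :=
      tendsto_id.prodMk tendsto_const_nhds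
    exact (hL z0 hz).comp h1
  have hlim : Tendsto (fun k => z (b k)) atTop (𝓝 a) := by
    rw [ha]
    refine (hpt hL).congr fun k => ?_
    rw [hzd]
  obtain ⟨u, l, hl, hua, huρ, hui⟩ := exi hR (hcont.iterate p) hzs hzne hb hlim
  -- the inverse orbit of u
  have hin : ∀ i, chord a (g^[i] u) < ρ ∧ g^[i] u ≠ a ∧
      chord a (g^[i] u) ≤ κ ^ i * chord a u := by
    intro i
    induction i with
    | zero => exact ⟨huρ, hua, by simp⟩
    | succ i ih =>
      obtain ⟨h1, h2, h3⟩ := ih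
      have h4 := hR.contr _ h1
      have h5 : κ * chord a (g^[i] u) ≤ 1 * chord a (g^[i] u) :=
        mul_le_mul_of_nonneg_right hR.hκ1.le (chord_nn _ _)
      rw [one_mul] at h5
      rw [Function.iterate_succ_apply']
      refine ⟨(h4.trans h5).trans_lt h1, ?_, ?_⟩
      · intro h6
        have h7 := hR.right _ h1
        rw [h6, hR.fix] at h7
        exact h2 h7.symm
      · refine h4.trans ?_
        rw [pow_succ', mul_assoc]
        exact mul_le_mul_of_nonneg_left h3 hR.hκ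
  have hmem : ∀ i, g^[i] u ∈ Fc (Rf v) z0 ∧ ∃ (σ : ℕ → ℕ) (hi : OnePoint ℂ → OnePoint ℂ),
      StrictMono σ ∧ Lim (Rf v) (fun k => p * (l (σ k) - i)) hi ∧ hi z0 = g^[i] u := by
    intro i
    obtain ⟨σ, hi, hσ, hLi⟩ := lf_sub (Rf v) (fun k => p * (l k - i))
    have hLi' : Lim (Rf v) (fun k => p * (l (σ k) - i)) hi := hLi
    have h1 : hi z0 = g^[i] u := by
      refine tendsto_nhds_unique (hpt hLi') ?_
      refine ((hui i).comp hσ.tendsto_atTop).congr fun k => ?_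
      rw [Function.comp_apply, hzd]
    have hFS : g^[i] u ∈ FS (Rf v) := by
      by_contra hcon
      have h2 : hi z0 ∈ JS (Rf v) := by
        rw [h1]
        exact hcon
      have h3 := j_val hd hcop hdeg hLi' hz h2
      have h4 := lim_fix hd hcop hdeg hLi' hz hm h3
      rw [h1] at h4
      exact (hin i).2.1 (rep_iso hR (hin i).1 h4)
    exact ⟨fc_lim (fun k => hzc (l k - i)) (hui i) hFS, σ, hi, hσ, hLi', h1⟩
  obtain ⟨hu0, σ, h0, hσ, hL0, hh0⟩ := hmem 0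
  have hu0' : u ∈ Fc (Rf v) z0 := hu0
  have hh0' : h0 z0 = u := hh0
  have hL0' : Lim (Rf v) (fun k => p * l (σ k)) h0 := hL0
  have hnc : ¬ ∀ᶠ y in 𝓝 z0, h0 y = h0 z0 := by
    intro hcon
    have h1 : ∀ x ∈ Fc (Rf v) z0, h0 x = h0 z0 :=
      sh_ident (fc_open _ _) (fc_pre _ _)
        (fun x hx => lf_hol hd hcop hdeg hL0' (fc_sub _ _ hx)) (fun x _ => shol_const _ x) hz0c
        hcon
    have h2 := lim_fix hd hcop hdeg hL0' hz hm h1
    rw [hh0'] at h2
    exact hua (rep_iso hR huρ h2)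
  obtain ⟨b', ψ, hb', hLψ, hψ, hinj⟩ := ret_id hd hcop hdeg hz hm hL0'
    (hl.comp hσ.tendsto_atTop) (by rw [hh0']; exact hu0') hnc
  -- Hurwitz
  have hchu : 0 < chord a u := by
    rcases (chord_nn a u).eq_or_lt with h1 | h1
    · exact absurd (chord_eqz h1.symm).symm hua
    · exact h1
  have hUn : Fc (Rf v) z0 ∩ {y | chord a u / 2 < chord a y} ∈ 𝓝 u := by
    refine inter_mem ((fc_open _ _).mem_nhds hu0') ?_
    have h1 : Continuous fun y => chord a y :=
      chord_cont.comp (continuous_const.prodMk continuous_id)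
    exact (isOpen_lt continuous_const h1).mem_nhds (half_lt_self hchu)
  have hnid : ¬ ∀ᶠ y in 𝓝 u, ψ y = ψ u := by
    intro hcon
    have h1 : ∀ᶠ y in 𝓝 u, y = u := by
      filter_upwards [hcon, (fc_open _ _).mem_nhds hu0'] with y hy hy'
      rw [hψ y hy', hψ u hu0'] at hy
      exact hy
    have h2 : (𝓝[≠] u).NeBot := inferInstance
    have h3 : ∀ᶠ y in 𝓝[≠] u, y = u := h1.filter_mono nhdsWithin_le_nhds
    have h4 : ∀ᶠ y in 𝓝[≠] u, y ≠ u := eventually_mem_nhdsWithin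
    obtain ⟨y, hy, hy'⟩ := (h3.and h4).exists
    exact hy' hy
  have h5 := lf_hur hd hcop hdeg hLψ (fc_sub _ _ hu0') hnid hUn
  have h6 : Tendsto (fun k => κ ^ b' k * chord a u) atTop (𝓝 (0 * chord a u)) :=
    ((tendsto_pow_atTop_nhds_zero_of_lt_one hR.hκ hR.hκ1).comp hb').mul_const _
  rw [zero_mul] at h6
  have h7 := h6.eventually (Iio_mem_nhds (half_pos hchu))
  obtain ⟨k, ⟨y, ⟨hy1, hy2⟩, hy3⟩, hk⟩ := (h5.and h7).exists
  rw [hψ u hu0'] at hy3
  have h8 : ∀ m, ((Rf v)^[p])^[m] (g^[m] u) = u := by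
    intro m
    induction m with
    | zero => rfl
    | succ m ih =>
      rw [Function.iterate_succ_apply, Function.iterate_succ_apply' g, hR.right _ (hin m).1]
      exact ih
  have h9 : (Rf v)^[p * b' k] (g^[b' k] u) = u := by
    rw [Function.iterate_mul]
    exact h8 (b' k)
  have h10 : y = g^[b' k] u := hinj (b' k) hy1 (hmem (b' k)).1 (hy3.trans h9.symm)
  have h11 : chord a u / 2 < chord a y := hy2
  rw [h10] at h11
  have h12 : κ ^ b' k * chord a u < chord a u / 2 := hk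
  linarith [(hin (b' k)).2.2]

theorem no_js_lim (hd : 1 ≤ d) (hcop : IsCoprime (pol v.1) (pol v.2))
    (hdeg : max (pol v.1).natDegree (pol v.2).natDegree = d) (hN : Pool.Agent.H47.NN.NNeu v)
    {p : ℕ} (hp : 0 < p) {z0 : OnePoint ℂ} (hz : z0 ∈ FS (Rf v))
    (hm : (Rf v)^[p] z0 ∈ Fc (Rf v) z0) {b : ℕ → ℕ} (hb : Tendsto b atTop atTop)
    {h : OnePoint ℂ → OnePoint ℂ} (hL : Lim (Rf v) (fun k => p * b k) h)
    (hJ : h z0 ∈ JS (Rf v)) : False :=
  no_js_lim_ar hd hcop hdeg (ar_of_nneu hd hcop hdeg hN) hp hz hm hb hL hJ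

end Pool.Agent.H47.RJ
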