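import Pool.Agent.H44.RC.RCD
import Pool.Agent.H47.NN.Defs

/-!
# THEOREM RC, the dynamics on the Fatou set: definitions

`Lim f n h`: the iterates `f^[n k]` converge to `h` locally uniformly on the Fatou set. `SHol ψ x`: `ψ` is holomorphic at `x` as a map of the sphere. `Fc f x`: the component of the Fatou set which contains `x`.
`Rep G a ρ κ g`: `a` is a repelling fixed point of `G`, `g` the local inverse on the disc of radius `ρ`, which contracts the distance to `a` by `κ`.
-/

set_option autoImplicit false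

open Filter Topology Polynomial Metric Set

namespace Pool.Agent.H47.RJ

open Pool.Agent.H44.Fatou Pool.Agent.H32.BT Pool.Agent.H79.Eul Pool.Agent.H79.Par
open Pool.Agent.H35.EX Pool.Agent.H44.RR Pool.Agent.H56.HR Pool.Agent.H44.RC

/-- locally uniform convergence of the iterates on the Fatou set -/
def Lim (f : OnePoint ℂ → OnePoint ℂ) (n : ℕ → ℕ) (h : OnePoint ℂ → OnePoint ℂ) : Prop :=
  ∀ x ∈ FS f, Tendsto (fun w : ℕ × OnePoint ℂ => f^[n w.1] w.2) (atTop ×ˢ 𝓝 x) (𝓝 (h x))

/-- `ψ` is holomorphic at `x` as a map of the sphere -/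
def SHol (ψ : OnePoint ℂ → OnePoint ℂ) (x : OnePoint ℂ) : Prop :=
  ∃ (τ σ : Bool) (w : ℂ) (g : ℂ → ℂ), io τ w = x ∧ AnalyticAt ℂ g w ∧
    ∀ᶠ z in 𝓝 w, ψ (io τ z) = io σ (g z)

/-- the component of the Fatou set which contains `x` -/
def Fc (f : OnePoint ℂ → OnePoint ℂ) (x : OnePoint ℂ) : Set (OnePoint ℂ) :=
  connectedComponentIn (FS f) x

/-- a repelling fixed point with its local inverse -/
structure Rep (G : OnePoint ℂ → OnePoint ℂ) (a : OnePoint ℂ) (ρ κ : ℝ)
    (g : OnePoint ℂ → OnePoint ℂ) : Prop where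
  hρ : 0 < ρ
  hκ : 0 ≤ κ
  hκ1 : κ < 1
  fix : G a = a
  contr : ∀ x, chord a x < ρ → chord a (g x) ≤ κ * chord a x
  right : ∀ x, chord a x < ρ → G (g x) = x
  left : ∀ x, chord a x < ρ → chord a (G x) < ρ → g (G x) = x
  cont : ContinuousOn g {x | chord a x < ρ}

end Pool.Agent.H47.RJ
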