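import Pool.Agent.H47.RJ.FJD
import Pool.Agent.H47.RJ.CHB

/-!
# Module FLA: a subsequence of the iterates converges on the Fatou set (Ascoli)

PROOF. Let `D` be countable and dense (`ch_dense`). By a diagonal argument (`ch_seq` for each point of `D`; or: the countable product of copies of the sphere is compact and first countable, so sequentially compact) there is a strictly increasing `σ` such that `f^[n (σ k)] q` converges for every `q ∈ D`.
Let `x ∈ FS f` and `u k = f^[n (σ k)] x`. `x` is a point of equicontinuity (`interior_subset`). `u` converges: let `y` be the limit of a subsequence (`ch_seq`); given `ε`, there is `q ∈ D` with `chord (f^[m] x) (f^[m] q) < ε` for all `m`; with the limit `q'` of `f^[n (σ k)] q`, `chord (u k) q' < 2 ε` for large `k`, so `chord y q' ≤ 2 ε` and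
`chord (u k) y ≤ 4 ε` for large `k` (`ch_tri`, `chord_comm`, `chord_cont`). Put `h x = y` (and arbitrary outside `FS f`, by choice). Joint convergence: `chord (h x) (f^[n (σ k)] y') ≤ chord (h x) (u k) + chord (u k) (f^[n (σ k)] y') < ε + ε` for large `k` and `y'` in the neighbourhood of `x` given by `EqAt`; `ch_tend`.
-/

set_option autoImplicit false

open Filter Topology Polynomial Metric Set

namespace Pool.Agent.H47.RJ

open Pool.Agent.H44.Fatou Pool.Agent.H32.BT Pool.Agent.H79.Eul Pool.Agent.H79.Par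
open Pool.Agent.H35.EX Pool.Agent.H44.RR Pool.Agent.H56.HR Pool.Agent.H44.RC

theorem lf_sub (f : OnePoint ℂ → OnePoint ℂ) (n : ℕ → ℕ) :
    ∃ (σ : ℕ → ℕ) (h : OnePoint ℂ → OnePoint ℂ), StrictMono σ ∧ Lim f (n ∘ σ) h := by
  haveI : FirstCountableTopology (OnePoint ℂ) := by
    refine ⟨fun x => ?_⟩
    have hb : (𝓝 x).HasBasis (fun _ : ℕ => True) fun k : ℕ => {y | chord x y < 1 / ((k : ℝ) + 1)} := by
      refine ⟨fun U => ⟨fun hU => ?_, ?_⟩⟩
      · obtain ⟨ε, hε, h1⟩ := ch_nhds hU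
        obtain ⟨k, hk⟩ := exists_nat_one_div_lt hε
        exact ⟨k, trivial, fun y hy => h1 y (lt_trans hy hk)⟩
      · rintro ⟨k, -, hk⟩
        exact mem_of_superset (ch_ball x (by positivity)) hk
    exact hb.isCountablyGenerated
  obtain ⟨D, hDc, hD⟩ := ch_dense
  haveI : Countable D := hDc.to_subtype
  obtain ⟨a, σ, hσ, ha⟩ := CompactSpace.tendsto_subseq
    (fun (k : ℕ) (q : D) => f^[n k] (q : OnePoint ℂ))
  have haq : ∀ q : D, Tendsto (fun k => f^[n (σ k)] (q : OnePoint ℂ)) atTop (𝓝 (a q)) :=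
    fun q => (tendsto_pi_nhds.1 ha) q
  have hlim : ∀ x ∈ FS f, ∃ y, Tendsto (fun k => f^[n (σ k)] x) atTop (𝓝 y) := by
    intro x hx
    have hE : EqAt f x := interior_subset hx
    obtain ⟨y, τ, hτ, hy⟩ := ch_seq (fun k => f^[n (σ k)] x)
    refine ⟨y, ch_tend.2 fun ε hε => ?_⟩
    obtain ⟨q, hq1, hq2⟩ := hD.inter_nhds_nonempty (hE (ε / 5) (by positivity))
    have hq2' : ∀ m : ℕ, chord (f^[m] x) (f^[m] q) < ε / 5 := hq2
    have h1 : ∀ᶠ k in atTop, chord (a ⟨q, hq1⟩) (f^[n (σ k)] q) < ε / 5 :=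
      ch_tend.1 (haq ⟨q, hq1⟩) (ε / 5) (by positivity)
    have h2 : ∀ᶠ k in atTop, chord (a ⟨q, hq1⟩) (f^[n (σ k)] x) < 2 * ε / 5 := by
      filter_upwards [h1] with k hk
      have h3 := ch_tri (a ⟨q, hq1⟩) (f^[n (σ k)] q) (f^[n (σ k)] x)
      have h4 := hq2' (n (σ k))
      rw [chord_comm] at h4
      linarith
    have h3 : ∀ᶠ k in atTop, chord y (f^[n (σ (τ k))] x) < ε / 5 :=
      ch_tend.1 hy (ε / 5) (by positivity)
    obtain ⟨k, hk1, hk2⟩ := (h3.and (hτ.tendsto_atTop.eventually h2)).exists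
    have h4 : chord y (a ⟨q, hq1⟩) < 3 * ε / 5 := by
      have h5 := ch_tri y (f^[n (σ (τ k))] x) (a ⟨q, hq1⟩)
      rw [chord_comm (f^[n (σ (τ k))] x)] at h5
      linarith
    filter_upwards [h2] with k hk
    have h5 := ch_tri y (a ⟨q, hq1⟩) (f^[n (σ k)] x)
    linarith
  choose! h hh using hlim
  refine ⟨σ, h, hσ, ?_⟩
  intro x hx
  have hE : EqAt f x := interior_subset hx
  refine ch_tend.2 fun ε hε => ?_
  have h1 : ∀ᶠ k in atTop, chord (h x) (f^[n (σ k)] x) < ε / 2 :=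
    ch_tend.1 (hh x hx) (ε / 2) (by positivity)
  have h2 := hE (ε / 2) (by positivity)
  filter_upwards [h1.prod_mk h2] with w hw
  obtain ⟨hw1, hw2⟩ := hw
  have h3 := ch_tri (h x) (f^[n (σ w.1)] x) (f^[n (σ w.1)] w.2)
  have h4 := hw2 (n (σ w.1))
  show chord (h x) (f^[n (σ w.1)] w.2) < ε
  linarith

end Pool.Agent.H47.RJ
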