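import Pool.Agent.H47.RJ.CRP

/-!
# Module IDN: identity theorem and open mapping theorem for maps of the sphere

`SHol ψ x` implies that `ψ` is continuous at `x` (`io_emb`). `shol_const`, `shol_id`: `io_ex`; `g` constant, `g = id`.
`sh_open`: let `τ, σ, w, g` be as in `SHol`. `g` is not constant near `w` (`hn`, `io_emb`). `AnalyticAt.eventually_constant_or_nhds_le_map_nhds`: `g` maps neighbourhoods of `w` to neighbourhoods of `g w`; `io τ`, `io σ` are open embeddings.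
`sh_ident`: let `A` be the set of the `x ∈ Ω` with `ψ1 = ψ2` near `x`: open, contains `x0`. `A` is closed in `Ω`: let `x ∈ Ω` be in the closure of `A`. `ψ1 x = ψ2 x` by continuity (points of `A` accumulate at `x`). Change the charts so that both `ψ1, ψ2` are given by the same `τ, w` and the same `σ`: if the charts at `x` differ, `x` is neither 0 nor
infinity and the transition `z ↦ 1 / z` is holomorphic near `w ≠ 0`; the same in the image. Then `g1, g2` are analytic at `w` and equal at points accumulating at `w`, different from `w` (an open subset of every neighbourhood), so equal near `w` (`AnalyticAt.frequently_eq_iff_eventually_eq`): `x ∈ A`. `Ω` is preconnected: `A = Ω`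
(`IsPreconnected.subset_of_closure_inter_subset`).
-/

set_option autoImplicit false

open Filter Topology Polynomial Metric Set

namespace Pool.Agent.H47.RJ

open Pool.Agent.H44.Fatou Pool.Agent.H32.BT Pool.Agent.H79.Eul Pool.Agent.H79.Par
open Pool.Agent.H35.EX Pool.Agent.H44.RR Pool.Agent.H56.HR Pool.Agent.H44.RC

private theorem idn_true (z : ℂ) : io true z = (z : OnePoint ℂ) := by
  unfold io
  rw [if_pos rfl]

private theorem idn_false {z : ℂ} (hz : z ≠ 0) : io false z = ((z⁻¹ : ℂ) : OnePoint ℂ) := by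
  unfold io recip
  rw [if_neg (by simp), if_neg hz]

private theorem idn_zero : io false 0 = OnePoint.infty := by
  unfold io recip
  rw [if_neg (by simp), if_pos rfl]

private theorem idn_ne {w w' : ℂ} (h : io true w = io false w') : w' ≠ 0 ∧ w = w'⁻¹ := by
  have h1 : w' ≠ 0 := by
    rintro rfl
    rw [idn_true, idn_zero] at h
    exact OnePoint.coe_ne_infty _ h
  rw [idn_true, idn_false h1] at h
  exact ⟨h1, OnePoint.coe_eq_coe.1 h⟩

private theorem idn_tr {τ τ' : Bool} {w w' : ℂ} (h : io τ w = io τ' w') :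
    ∃ t : ℂ → ℂ, AnalyticAt ℂ t w ∧ t w = w' ∧ ∀ᶠ z in 𝓝 w, io τ' (t z) = io τ z := by
  by_cases hτ : τ = τ'
  · subst hτ
    refine ⟨fun z => z, analyticAt_id, (io_emb τ).injective h, Eventually.of_forall fun z => rfl⟩
  · cases τ with
    | true =>
      have hτ' : τ' = false := by
        cases τ'
        · rfl
        · exact absurd rfl hτ
      subst hτ'
      obtain ⟨h1, h2⟩ := idn_ne h
      have hw : w ≠ 0 := by
        rw [h2]
        exact inv_ne_zero h1
      refine ⟨fun z => z⁻¹, analyticAt_inv hw, ?_, ?_⟩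
      · show w⁻¹ = w'
        rw [h2, inv_inv]
      · filter_upwards [isOpen_ne.mem_nhds hw] with z hz
        rw [idn_false (inv_ne_zero hz), inv_inv, idn_true]
    | false =>
      have hτ' : τ' = true := by
        cases τ'
        · exact absurd rfl hτ
        · rfl
      subst hτ'
      obtain ⟨hw, h2⟩ := idn_ne h.symm
      refine ⟨fun z => z⁻¹, analyticAt_inv hw, h2.symm, ?_⟩
      filter_upwards [isOpen_ne.mem_nhds hw] with z hz
      rw [idn_false hz, idn_true]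

private theorem idn_rep {ψ : OnePoint ℂ → OnePoint ℂ} {x : OnePoint ℂ} (h : SHol ψ x)
    {τ σ : Bool} {w u : ℂ} (hw : io τ w = x) (hu : io σ u = ψ x) :
    ∃ g : ℂ → ℂ, AnalyticAt ℂ g w ∧ ∀ᶠ z in 𝓝 w, ψ (io τ z) = io σ (g z) := by
  obtain ⟨τ0, σ0, w0, g0, h1, h2, h3⟩ := h
  obtain ⟨t, ht1, ht2, ht3⟩ := idn_tr (hw.trans h1.symm)
  have h4 : io σ0 (g0 w0) = io σ u := by
    rw [hu, ← h1]
    exact h3.self_of_nhds.symm
  obtain ⟨t', hs1, hs2, hs3⟩ := idn_tr h4
  have h2' : AnalyticAt ℂ g0 (t w) := by rw [ht2]; exact h2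
  have h5 : AnalyticAt ℂ (fun z => g0 (t z)) w := h2'.comp ht1
  have hs1' : AnalyticAt ℂ t' (g0 (t w)) := by rw [ht2]; exact hs1
  have c1 : Tendsto t (𝓝 w) (𝓝 w0) := by
    have := ht1.continuousAt.tendsto
    rwa [ht2] at this
  have c2 : Tendsto (fun z => g0 (t z)) (𝓝 w) (𝓝 (g0 w0)) := by
    have := h5.continuousAt.tendsto
    rwa [ht2] at this
  refine ⟨fun z => t' (g0 (t z)), AnalyticAt.comp (g := t') (f := fun z => g0 (t z)) hs1' h5, ?_⟩
  filter_upwards [ht3, c1.eventually h3, c2.eventually hs3] with z e1 e2 e3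
  rw [← e1, e2, e3]

private theorem idn_cont {ψ : OnePoint ℂ → OnePoint ℂ} {x : OnePoint ℂ} (h : SHol ψ x) :
    ContinuousAt ψ x := by
  obtain ⟨τ, σ, w, g, rfl, h2, h3⟩ := h
  have h4 : ψ (io τ w) = io σ (g w) := h3.self_of_nhds
  unfold ContinuousAt
  rw [← (io_emb τ).map_nhds_eq w, tendsto_map'_iff, h4]
  have h5 : Tendsto (fun z => io σ (g z)) (𝓝 w) (𝓝 (io σ (g w))) :=
    ((io_emb σ).continuous.tendsto (g w)).comp h2.continuousAt.tendsto
  refine h5.congr' ?_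
  filter_upwards [h3] with z hz
  exact hz.symm

theorem shol_const (a x : OnePoint ℂ) : SHol (fun _ => a) x := by
  obtain ⟨τ, w, -, hw⟩ := io_ex x
  obtain ⟨σ, b, -, hb⟩ := io_ex a
  exact ⟨τ, σ, w, fun _ => b, hw, analyticAt_const, Eventually.of_forall fun _ => hb.symm⟩

theorem shol_id (x : OnePoint ℂ) : SHol (fun y => y) x := by
  obtain ⟨τ, w, -, hw⟩ := io_ex x
  exact ⟨τ, τ, w, fun z => z, hw, analyticAt_id, Eventually.of_forall fun _ => rfl⟩

theorem sh_open {ψ : OnePoint ℂ → OnePoint ℂ} {x : OnePoint ℂ} (h : SHol ψ x)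
    (hn : ¬ ∀ᶠ y in 𝓝 x, ψ y = ψ x) {U : Set (OnePoint ℂ)} (hU : U ∈ 𝓝 x) :
    ψ '' U ∈ 𝓝 (ψ x) := by
  obtain ⟨τ, σ, w, g, rfl, h2, h3⟩ := h
  have h4 : ψ (io τ w) = io σ (g w) := h3.self_of_nhds
  rcases h2.eventually_constant_or_nhds_le_map_nhds with h5 | h5
  · exfalso
    apply hn
    rw [← (io_emb τ).map_nhds_eq w, eventually_map]
    filter_upwards [h3, h5] with z h6 h7
    rw [h6, h7, h4]
  · have hV : {z | io τ z ∈ U ∧ ψ (io τ z) = io σ (g z)} ∈ 𝓝 w := by
      filter_upwards [(io_emb τ).continuous.continuousAt.preimage_mem_nhds hU, h3] with z h6 h7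
      exact ⟨h6, h7⟩
    have h6 := h5 (image_mem_map hV)
    have h7 := (io_emb σ).isOpenMap.image_mem_nhds h6
    rw [h4]
    refine mem_of_superset h7 ?_
    rintro _ ⟨_, ⟨z, ⟨hz1, hz2⟩, rfl⟩, rfl⟩
    exact ⟨io τ z, hz1, hz2⟩

theorem sh_ident {Ω : Set (OnePoint ℂ)} (hΩ : IsOpen Ω) (hc : IsPreconnected Ω)
    {ψ1 ψ2 : OnePoint ℂ → OnePoint ℂ} (h1 : ∀ x ∈ Ω, SHol ψ1 x) (h2 : ∀ x ∈ Ω, SHol ψ2 x)
    {x0 : OnePoint ℂ} (hx0 : x0 ∈ Ω) (he : ∀ᶠ y in 𝓝 x0, ψ1 y = ψ2 y) :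
    ∀ x ∈ Ω, ψ1 x = ψ2 x := by
  have hA : IsOpen {x | ∀ᶠ y in 𝓝 x, ψ1 y = ψ2 y} := by
    rw [isOpen_iff_eventually]
    intro x hx
    exact eventually_eventually_nhds.2 hx
  have hsub : Ω ⊆ {x | ∀ᶠ y in 𝓝 x, ψ1 y = ψ2 y} := by
    refine hc.subset_of_closure_inter_subset hA ⟨x0, hx0, he⟩ ?_
    rintro x ⟨hx1, hx2⟩
    have hfr : ∃ᶠ y in 𝓝 x, y ∈ {x | ∀ᶠ y in 𝓝 x, ψ1 y = ψ2 y} := mem_closure_iff_frequently.1 hx1
    have hval : ψ1 x = ψ2 x := by
      by_contra hne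
      obtain ⟨U1, U2, o1, o2, m1, m2, hdis⟩ := t2_separation hne
      have h3 := (idn_cont (h1 x hx2)).tendsto.eventually (o1.mem_nhds m1)
      have h4 := (idn_cont (h2 x hx2)).tendsto.eventually (o2.mem_nhds m2)
      obtain ⟨y, hy1, hy2, hy2'⟩ := (hfr.and_eventually (h3.and h4)).exists
      have hy3 : ∀ᶠ y' in 𝓝 y, ψ1 y' = ψ2 y' := hy1
      rw [← hy3.self_of_nhds] at hy2'
      exact Set.disjoint_left.1 hdis hy2 hy2'
    obtain ⟨τ, w, -, hw⟩ := io_ex x
    obtain ⟨σ, u, -, hu⟩ := io_ex (ψ1 x)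
    obtain ⟨g1, ha1, hb1⟩ := idn_rep (h1 x hx2) hw hu
    obtain ⟨g2, ha2, hb2⟩ := idn_rep (h2 x hx2) hw (hu.trans hval)
    have hfreq : ∃ᶠ z in 𝓝[≠] w, g1 z = g2 z := by
      intro hcon
      rw [eventually_nhdsWithin_iff] at hcon
      obtain ⟨V, hV1, hV2, hV3⟩ :=
        _root_.eventually_nhds_iff.1 (hcon.and (hb1.and hb2))
      have h5 : io τ '' V ∈ 𝓝 x := by
        rw [← hw]
        exact (io_emb τ).isOpenMap.image_mem_nhds (hV2.mem_nhds hV3)
      obtain ⟨y, hy1, z0, hz0, rfl⟩ := (hfr.and_eventually h5).exists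
      have hy3 : ∀ᶠ y' in 𝓝 (io τ z0), ψ1 y' = ψ2 y' := hy1
      have hy4 : ∀ᶠ z in 𝓝 z0, ψ1 (io τ z) = ψ2 (io τ z) :=
        (io_emb τ).continuous.continuousAt.eventually hy3
      have hy5 : ∀ᶠ z in 𝓝 z0, z = w := by
        filter_upwards [hy4, hV2.mem_nhds hz0] with z hz1 hz2
        by_contra hzw
        obtain ⟨c1, c2, c3⟩ := hV1 z hz2
        apply c1 hzw
        rw [c2, c3] at hz1
        exact (io_emb σ).injective hz1
      have hy6 : z0 = w := hy5.self_of_nhds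
      have hy7 : ∀ᶠ z in 𝓝[≠] z0, False := by
        rw [eventually_nhdsWithin_iff]
        filter_upwards [hy5] with z hz hz'
        exact hz' (hz.trans hy6.symm)
      exact hy7.exists.choose_spec
    have h6 := (ha1.frequently_eq_iff_eventually_eq ha2).1 hfreq
    show ∀ᶠ y in 𝓝 x, ψ1 y = ψ2 y
    rw [← hw, ← (io_emb τ).map_nhds_eq w, eventually_map]
    filter_upwards [h6, hb1, hb2] with z e1 e2 e3
    rw [e2, e3, e1]
  intro x hx
  have h3 : ∀ᶠ y in 𝓝 x, ψ1 y = ψ2 y := hsub hx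
  exact h3.self_of_nhds

end Pool.Agent.H47.RJ
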