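import Pool.Agent.H47.RJ.LHU
import Pool.Agent.H47.RJ.IDN
import Pool.Agent.H47.RJ.FCM

/-!
# Module JVL: a limit function with a value in the Julia set is constant; constant limits are fixed points

`j_val`: if `h` is not constant near `y` then `lf_hur` with `U = FS f` (open) gives `h y ∈ f^[n k] '' FS f ⊆ FS f` (`fs_iff`): contradiction. So `h = h y` near `y`, and by `sh_ident` (`lf_hol`, `shol_const`, `fc_open`, `fc_pre`) on `Fc f y`.
`lim_fix`: `z1 = f^[p] z0 ∈ Fc f z0`. `f^[p * b k] z1 → h z1 = a` and `f^[p * b k] z1 = f^[p] (f^[p * b k] z0) → f^[p] (h z0) = f^[p] a` (continuity of `f^[p]`, iterates commute). Limits are unique. (`hL` at `z0`, `z1` gives the pointwise convergence: compose with `k ↦ (k, z)`.)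
-/

set_option autoImplicit false

open Filter Topology Polynomial Metric Set

namespace Pool.Agent.H47.RJ

open Pool.Agent.H44.Fatou Pool.Agent.H32.BT Pool.Agent.H79.Eul Pool.Agent.H79.Par
open Pool.Agent.H35.EX Pool.Agent.H44.RR Pool.Agent.H56.HR Pool.Agent.H44.RC

variable {d : ℕ} {v : E d}

theorem j_val (hd : 1 ≤ d) (hcop : IsCoprime (pol v.1) (pol v.2))
    (hdeg : max (pol v.1).natDegree (pol v.2).natDegree = d) {n : ℕ → ℕ}
    {h : OnePoint ℂ → OnePoint ℂ} (hL : Lim (Rf v) n h) {y : OnePoint ℂ} (hy : y ∈ FS (Rf v))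
    (hJ : h y ∈ JS (Rf v)) : ∀ x ∈ Fc (Rf v) y, h x = h y := by
  by_cases hn : ∀ᶠ x in 𝓝 y, h x = h y
  · exact sh_ident (fc_open _ y) (fc_pre _ y)
      (fun x hx => lf_hol hd hcop hdeg hL (fc_sub _ _ hx)) (fun x _ => shol_const (h y) x)
      (mem_connectedComponentIn hy) hn
  · exfalso
    obtain ⟨k, u, hu, hk⟩ := (lf_hur hd hcop hdeg hL hy hn ((fs_open (Rf v)).mem_nhds hy)).exists
    apply hJ
    rw [← hk, fs_iff hd hcop hdeg]
    exact hu

theorem lim_fix (hd : 1 ≤ d) (hcop : IsCoprime (pol v.1) (pol v.2))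
    (hdeg : max (pol v.1).natDegree (pol v.2).natDegree = d) {p : ℕ} {b : ℕ → ℕ}
    {h : OnePoint ℂ → OnePoint ℂ} (hL : Lim (Rf v) (fun k => p * b k) h) {z0 a : OnePoint ℂ}
    (hz : z0 ∈ FS (Rf v)) (hm : (Rf v)^[p] z0 ∈ Fc (Rf v) z0)
    (hc : ∀ x ∈ Fc (Rf v) z0, h x = a) : (Rf v)^[p] a = a := by
  have hcont : Continuous (Rf v) := rat_continuous hcop
  have hpt : ∀ z ∈ FS (Rf v), Tendsto (fun k => (Rf v)^[p * b k] z) atTop (𝓝 (h z)) := by
    intro z hz
    exact (hL z hz).comp (tendsto_id.prodMk tendsto_const_nhds)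
  have h0 := hpt z0 hz
  rw [hc z0 (mem_connectedComponentIn hz)] at h0
  have h1 := hpt _ (fc_sub _ _ hm)
  rw [hc _ hm] at h1
  have h2 : Tendsto (fun k => (Rf v)^[p] ((Rf v)^[p * b k] z0)) atTop (𝓝 ((Rf v)^[p] a)) :=
    ((hcont.iterate p).tendsto a).comp h0
  have e1 : (fun k => (Rf v)^[p] ((Rf v)^[p * b k] z0)) =
      fun k => (Rf v)^[p * b k] ((Rf v)^[p] z0) := by
    funext k
    rw [← Function.iterate_add_apply, ← Function.iterate_add_apply, add_comm]
  rw [e1] at h2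
  exact tendsto_nhds_unique h2 h1

end Pool.Agent.H47.RJ
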