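import Pool.Agent.H47.RJ.CRP

/-!
# Module LHU: limit functions are holomorphic, Hurwitz's theorem

`lf_hol`: from `crep` (`DifferentiableOn.analyticAt` on the open ball).
`lf_hur`: `crep` at `x`: `io τ w = x`, `F k → g` uniformly on `ball w r`. `g` is not constant near `w` (otherwise `h` is constant near `x`: `io τ` is open). So there is `s > 0`, `closedBall w s ⊆ ball w r`, `io τ '' closedBall w s ⊆ U`, with `g z ≠ g w` on the circle `‖z - w‖ = s` (isolated zeros of `g - g w`); let `m > 0` be the minimum of `‖g z - g w‖` on the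
circle. For large `k`: `‖F k z - g z‖ < m / 4` on the ball. If `F k z ≠ g w` for all `z ∈ closedBall w s` then `1 / (F k z - g w)` is holomorphic in the disc, continuous on the closed disc, of modulus `≤ 4 / (3 m)` on the circle (`‖F k z - g w‖ ≥ m - m / 4`), but at `w` its modulus is `≥ 4 / m`: contradiction to the maximum principle
(`Complex.norm_le_of_forall_mem_frontier_norm_le`). So `F k z = g w` for some `z`, that is `(Rf v)^[n k] (io τ z) = io σ (g w) = h x`.
-/

set_option autoImplicit false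

open Filter Topology Polynomial Metric Set

namespace Pool.Agent.H47.RJ

open Pool.Agent.H44.Fatou Pool.Agent.H32.BT Pool.Agent.H79.Eul Pool.Agent.H79.Par
open Pool.Agent.H35.EX Pool.Agent.H44.RR Pool.Agent.H56.HR Pool.Agent.H44.RC

variable {d : ℕ} {v : E d}

theorem lf_hol (hd : 1 ≤ d) (hcop : IsCoprime (pol v.1) (pol v.2))
    (hdeg : max (pol v.1).natDegree (pol v.2).natDegree = d) {n : ℕ → ℕ}
    {h : OnePoint ℂ → OnePoint ℂ} (hL : Lim (Rf v) n h) {x : OnePoint ℂ} (hx : x ∈ FS (Rf v)) :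
    SHol h x := by
  obtain ⟨τ, σ, w, r, K, F, g, hr, hw, -, -, hg, hh, -⟩ := crep hd hcop hdeg hL hx
  exact ⟨τ, σ, w, g, hw, hg.analyticAt (isOpen_ball.mem_nhds (mem_ball_self hr)),
    eventually_of_mem (ball_mem_nhds w hr) hh⟩

theorem lf_hur (hd : 1 ≤ d) (hcop : IsCoprime (pol v.1) (pol v.2))
    (hdeg : max (pol v.1).natDegree (pol v.2).natDegree = d) {n : ℕ → ℕ}
    {h : OnePoint ℂ → OnePoint ℂ} (hL : Lim (Rf v) n h) {x : OnePoint ℂ} (hx : x ∈ FS (Rf v))
    (hn : ¬ ∀ᶠ y in 𝓝 x, h y = h x) {U : Set (OnePoint ℂ)} (hU : U ∈ 𝓝 x) :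
    ∀ᶠ k in atTop, h x ∈ (Rf v)^[n k] '' U := by
  obtain ⟨τ, σ, w, r, K, F, g, hr, hw, -, hF, hg, hh, hlim⟩ := crep hd hcop hdeg hL hx
  have hga : AnalyticAt ℂ g w := hg.analyticAt (isOpen_ball.mem_nhds (mem_ball_self hr))
  have hxw : h x = io σ (g w) := by
    rw [← hw]
    exact hh w (mem_ball_self hr)
  -- `g` is not constant near `w`
  have hne : ∀ᶠ z in 𝓝[≠] w, g z ≠ g w := by
    rcases hga.eventually_eq_or_eventually_ne (analyticAt_const (v := g w)) with h1 | h1
    · exfalso
      apply hn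
      rw [← hw, ← (io_emb τ).map_nhds_eq, Filter.eventually_map]
      filter_upwards [h1, ball_mem_nhds w hr] with z h2 h3
      rw [hh z h3, hh w (mem_ball_self hr), h2]
    · exact h1
  have hUw : io τ ⁻¹' U ∈ 𝓝 w := by
    apply (io_emb τ).continuous.continuousAt
    rw [hw]
    exact hU
  obtain ⟨s, hs, hsr, hsU, hsne⟩ : ∃ s : ℝ, 0 < s ∧ closedBall w s ⊆ ball w r ∧
      (∀ z ∈ closedBall w s, io τ z ∈ U) ∧ ∀ z ∈ closedBall w s, z ≠ w → g z ≠ g w := by
    rw [eventually_nhdsWithin_iff] at hne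
    obtain ⟨ε, hε, h1⟩ := Metric.mem_nhds_iff.1 (Filter.inter_mem hUw hne)
    refine ⟨min (ε / 2) (r / 2), by positivity, ?_, ?_, ?_⟩
    · refine closedBall_subset_ball ?_
      have := min_le_right (ε / 2) (r / 2)
      linarith
    · intro z hz
      have hz' : z ∈ ball w ε := by
        refine closedBall_subset_ball ?_ hz
        have := min_le_left (ε / 2) (r / 2)
        linarith
      exact (h1 hz').1
    · intro z hz hzw
      have hz' : z ∈ ball w ε := by
        refine closedBall_subset_ball ?_ hz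
        have := min_le_left (ε / 2) (r / 2)
        linarith
      exact (h1 hz').2 hzw
  obtain ⟨m, hm, hmin⟩ : ∃ m : ℝ, 0 < m ∧ ∀ z ∈ sphere w s, m ≤ ‖g z - g w‖ := by
    have hc : ContinuousOn (fun z => ‖g z - g w‖) (sphere w s) := by
      have h1 : ContinuousOn g (sphere w s) :=
        hg.continuousOn.mono ((sphere_subset_closedBall).trans hsr)
      exact (h1.sub continuousOn_const).norm
    obtain ⟨z0, hz0, hz1⟩ := (isCompact_sphere w s).exists_isMinOn
      ((NormedSpace.sphere_nonempty (x := w)).2 hs.le) hc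
    refine ⟨‖g z0 - g w‖, ?_, fun z hz => hz1 hz⟩
    rw [norm_pos_iff, sub_ne_zero]
    refine hsne z0 (sphere_subset_closedBall hz0) ?_
    intro h2
    rw [h2, mem_sphere, dist_self] at hz0
    exact hs.ne hz0
  have hev := Metric.tendstoUniformlyOn_iff.1 hlim (m / 4) (by positivity)
  filter_upwards [hev, eventually_ge_atTop K] with k hk hkK
  obtain ⟨hFd, hFe⟩ := hF k hkK
  by_contra hcon
  have hnz : ∀ z ∈ closedBall w s, F k z - g w ≠ 0 := by
    intro z hz h0
    apply hcon
    refine ⟨io τ z, hsU z hz, ?_⟩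
    rw [hFe z (hsr hz), sub_eq_zero.1 h0, hxw]
  have hcl : closure (ball w s) = closedBall w s := closure_ball w hs.ne'
  have hdc : DiffContOnCl ℂ (fun z => (F k z - g w)⁻¹) (ball w s) := by
    have h1 : DifferentiableOn ℂ (fun z => (F k z - g w)⁻¹) (closedBall w s) := by
      intro z hz
      have h2 : DifferentiableWithinAt ℂ (F k) (closedBall w s) z :=
        (hFd z (hsr hz)).mono hsr
      exact (h2.sub_const (g w)).inv (hnz z hz)
    rw [← hcl] at h1
    exact h1.diffContOnCl
  have hbd : ∀ z ∈ frontier (ball w s), ‖(F k z - g w)⁻¹‖ ≤ 4 / (3 * m) := by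
    intro z hz
    rw [frontier_ball w hs.ne'] at hz
    have h1 := hmin z hz
    have h2 := hk z (hsr (sphere_subset_closedBall hz))
    rw [dist_eq_norm] at h2
    have h3 : 3 * m / 4 ≤ ‖F k z - g w‖ := by
      have h4 : ‖g z - g w‖ ≤ ‖g z - F k z‖ + ‖F k z - g w‖ := norm_sub_le_norm_sub_add_norm_sub _ _ _
      linarith
    rw [norm_inv]
    have h5 : 4 / (3 * m) = (3 * m / 4)⁻¹ := by
      field_simp
    rw [h5]
    exact inv_anti₀ (by positivity) h3
  have hw1 := Complex.norm_le_of_forall_mem_frontier_norm_le isBounded_ball hdc hbd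
    (z := w) (subset_closure (mem_ball_self hs))
  have hw2 := hk w (mem_ball_self hr)
  rw [dist_eq_norm, norm_sub_rev] at hw2
  have hw3 : 0 < ‖F k w - g w‖ := norm_pos_iff.2 (hnz w (mem_closedBall_self hs.le))
  simp only [norm_inv] at hw1
  have hw4 : (m / 4)⁻¹ < ‖F k w - g w‖⁻¹ := (inv_lt_inv₀ (by positivity) hw3).2 hw2
  have hw5 : 4 / (3 * m) < (m / 4)⁻¹ := by
    rw [inv_div, div_lt_div_iff₀ (by positivity) hm]
    nlinarith
  linarith

end Pool.Agent.H47.RJ
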