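import Pool.Agent.H47.RJ.R2M
import Pool.Agent.H47.RJ.ENR
import Pool.Agent.H47.RJ.FJM
import Pool.Agent.H47.RJ.CNT
import Pool.Agent.H47.RJ.REP
import Pool.Agent.H47.NN.FIN
import Pool.Agent.H44.RR.RAR

/-!
# Module RCF: THEOREM RC

`att_fs`: an attracted point is in the Fatou set. `rc_det`: THEOREM RC for one map. `rc_ae`: THEOREM RC, from Sullivan's theorem (`hS`) and Mañé's theorem (`hM`).
PROOF. `att_fs`: `Att f c` gives a sink whose basin contains `c`; the basin is open and the iterates are equicontinuous on it (sinks are in `FS f`: `att_or_rep`, REP, needs `NNeu`: a sink `a` of period `p` is in `FS f` or has a local inverse `g` as in `Rep`; the second is impossible: let `G = f^[p]`, `G^[k] w → a` for all `w` in a neighbourhood `U` of `a`. Then `G^[k] w` is in the disc `ρ` for `k ≥ K`, and by `left`, `contr` `chord a (G^[K] w) ≤ κ ^ j * chord a (G^[K + j] w) → 0`,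
so `G^[K] w = a`: `U` would be contained in the countable set `⋃ K, {w | G^[K] w = a}` (`cnt_le`, CNT), but `{z : ℂ | io τ z ∈ S}` has dense complement for countable `S` (`Set.Countable.dense_compl ℂ`, `io_emb`)). Then `f^[n] c ∈ FS f` for some `n` and `fs_iff`.
`rc_det`: suppose no non-attracted critical point is recurrent. There is no critical point in `JS f`: by `rc2_det` there would be a recurrent critical `r ∈ JS f`, and `r` is not attracted (`att_fs`). So `exp7` applies to `L = JS f` (`js_closed`, `js_iff` with `n = 1`, `hM (JS f)`, `RL f (JS f)` by `rl_of`: the hypothesis is void), `Expd f (JS f)`. Let `c` be critical and not attracted: `c ∈ FS f`,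
`rot_of_nonatt` (RCR) gives `RotD`, contradiction to `exp_norot`. So all critical points are attracted. `FJ f`: `fj_of_nw`.
`rc_ae`: the exceptional set is contained in the union of the two null sets of `nn` (H47/NN/FIN) and `rare` (H44/RR/RAR) by `rc_det`. `rc2_ae` in the same way with `rc2_det`.
-/

set_option autoImplicit false

open Filter Topology Polynomial Metric Set MeasureTheory

namespace Pool.Agent.H47.RJ

open Pool.Agent.H44.Fatou Pool.Agent.H32.BT Pool.Agent.H79.Eul Pool.Agent.H79.Par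
open Pool.Agent.H35.EX Pool.Agent.H44.RR Pool.Agent.H56.HR Pool.Agent.H44.RC

variable {d : ℕ} {v : E d}

private theorem rcf_back {G g : OnePoint ℂ → OnePoint ℂ} {a : OnePoint ℂ} {ρ κ : ℝ}
    (h : Rep G a ρ κ g) {u : ℕ → OnePoint ℂ} (hu : ∀ k, G (u k) = u (k + 1))
    (hρ : ∀ k, chord a (u k) < ρ) : u 0 = a := by
  have h1 : ∀ k, chord a (u k) ≤ κ * chord a (u (k + 1)) := by
    intro k
    have h2 := h.left (u k) (hρ k) (by rw [hu k]; exact hρ (k + 1))
    have h3 := h.contr (u (k + 1)) (hρ (k + 1))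
    rw [hu k] at h2
    rw [h2] at h3
    exact h3
  have h2 : ∀ j, chord a (u 0) ≤ κ ^ j * ρ := by
    have h3 : ∀ j, chord a (u 0) ≤ κ ^ j * chord a (u j) := by
      intro j
      induction j with
      | zero => rw [pow_zero, one_mul]
      | succ j ih =>
        refine ih.trans ?_
        rw [pow_succ, mul_assoc]
        exact mul_le_mul_of_nonneg_left (h1 j) (pow_nonneg h.hκ j)
    intro j
    exact (h3 j).trans (mul_le_mul_of_nonneg_left (hρ j).le (pow_nonneg h.hκ j))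
  have h4 : Tendsto (fun j : ℕ => κ ^ j * ρ) atTop (𝓝 0) := by
    have h5 := (tendsto_pow_atTop_nhds_zero_of_lt_one h.hκ h.hκ1).mul_const ρ
    rwa [zero_mul] at h5
  have h6 : chord a (u 0) ≤ 0 := ge_of_tendsto' h4 h2
  exact (chord_eqz (le_antisymm h6 (chord_nn a (u 0)))).symm

theorem att_fs (hd : 1 ≤ d) (hcop : IsCoprime (pol v.1) (pol v.2))
    (hdeg : max (pol v.1).natDegree (pol v.2).natDegree = d) (hN : Pool.Agent.H47.NN.NNeu v)
    {c : OnePoint ℂ} (hc : Att (Rf v) c) : c ∈ FS (Rf v) := by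
  obtain ⟨a, p, hs, ht⟩ := hc
  obtain ⟨hp, hfix, U, hU, hUt⟩ := hs
  rcases att_or_rep hd hcop hdeg hN hp hfix with h1 | ⟨ρ, κ, g, hR⟩
  · obtain ⟨k, hk⟩ := (ht.eventually ((fs_open (Rf v)).mem_nhds h1.2)).exists
    exact (fs_iff hd hcop hdeg (p * k) c).1 hk
  · exfalso
    obtain ⟨x, m, hx, -, -⟩ := Pool.Agent.H47.NN.nneu_cyc hN hp hfix
    have ha0 : a = (x 0 : OnePoint ℂ) := hx 0
    have hsub : U ⊆ ⋃ K : ℕ, {w | (Rf v)^[p * K] w = a} := by
      intro w hw
      obtain ⟨K, hK⟩ := eventually_atTop.1 (ch_tend.1 (hUt w hw) ρ hR.hρ)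
      refine mem_iUnion.2 ⟨K, ?_⟩
      have h2 := rcf_back hR (u := fun k => (Rf v)^[p * (K + k)] w) (fun k => by
        show (Rf v)^[p] ((Rf v)^[p * (K + k)] w) = (Rf v)^[p * (K + (k + 1))] w
        rw [← Function.iterate_add_apply]
        congr 1
        have : p * (K + (k + 1)) = p + p * (K + k) := by ring
        rw [this]) (fun k => hK (K + k) (by omega))
      exact h2
    have hcnt : (⋃ K : ℕ, {w | (Rf v)^[p * K] w = a}).Countable :=
      countable_iUnion fun K => (cnt_le hd hcop hdeg (p * K) a).1.countable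
    have hcnt2 : ((fun z : ℂ => (z : OnePoint ℂ)) ⁻¹' (⋃ K : ℕ, {w | (Rf v)^[p * K] w = a})).Countable :=
      hcnt.preimage_of_injOn OnePoint.coe_injective.injOn
    have hden := hcnt2.dense_compl ℂ
    have hnb : (fun z : ℂ => (z : OnePoint ℂ)) ⁻¹' U ∈ 𝓝 (x 0) := by
      rw [ha0, OnePoint.nhds_coe_eq] at hU
      exact hU
    obtain ⟨y, hy1, hy2⟩ := mem_closure_iff_nhds.1 (hden (x 0)) _ hnb
    exact hy2 (hsub hy1)

theorem rc_det (hd : 2 ≤ d) (hcop : IsCoprime (pol v.1) (pol v.2))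
    (hdeg : max (pol v.1).natDegree (pol v.2).natDegree = d) (hN : Pool.Agent.H47.NN.NNeu v)
    (hW : NW (Rf v)) (hM : ManeC (Rf v))
    (hrare : ∀ c, IsCrit (Rf v) c → ¬ ∃ K : Set (OnePoint ℂ), Expd (Rf v) K ∧
      ∃ m : ℕ, (Rf v)^[m] c ∈ K) :
    HypMap (Rf v) ∨ ∃ c, IsCrit (Rf v) c ∧ ¬ Att (Rf v) c ∧ c ∈ Om (Rf v) c := by
  have hd1 : 1 ≤ d := by omega
  by_contra hcon
  push Not at hcon
  obtain ⟨hnh, hrec⟩ := hcon
  have hF : FJ (Rf v) := fj_of_nw hd1 hcop hdeg hN hW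
  have hnoJ : ∀ c, IsCrit (Rf v) c → c ∉ JS (Rf v) := by
    intro c hc hJ
    obtain ⟨r, hr, hrJ, hrr, -⟩ := rc2_det hd hcop hdeg hF hM hrare hc hJ
    exact hrec r hr (fun hatt => hrJ (att_fs hd1 hcop hdeg hN hatt)) hrr
  have hmt : MapsTo (Rf v) (JS (Rf v)) (JS (Rf v)) := fun x hx => (js_iff hd1 hcop hdeg 1 x).2 hx
  have hE : Expd (Rf v) (JS (Rf v)) :=
    exp7 hd hcop hdeg (js_closed _) subset_rfl hmt (fun x hx hcr => hnoJ x hcr hx)
      (hM _ (js_closed _) subset_rfl hmt (rl_of (rat_continuous hcop) hF (js_closed _) subset_rfl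
        (fun c hc _ hJ => absurd hJ (hnoJ c hc))))
  apply hnh
  intro c hc
  by_contra hna
  have hcF : c ∈ FS (Rf v) := by
    by_contra h
    exact hnoJ c hc h
  obtain ⟨p, z0, b, ψ, hR⟩ := rot_of_nonatt hd1 hcop hdeg hN hW hcF hna
  exact exp_norot hd hcop hdeg hF hE hR

theorem rc2_ae (hd : 2 ≤ d)
    (hS : ∀ v : E d, IsCoprime (pol v.1) (pol v.2) →
      max (pol v.1).natDegree (pol v.2).natDegree = d → NW (Rf v))
    (hM : ∀ v : E d, IsCoprime (pol v.1) (pol v.2) →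
      max (pol v.1).natDegree (pol v.2).natDegree = d → Pool.Agent.H47.NN.NNeu v →
        FJ (Rf v) → ManeC (Rf v)) :
    volume {v : E d | IsCoprime (pol v.1) (pol v.2) ∧
      max (pol v.1).natDegree (pol v.2).natDegree = d ∧ ∃ c, IsCrit (Rf v) c ∧ c ∈ JS (Rf v) ∧
        ∀ r, IsCrit (Rf v) r → r ∈ JS (Rf v) → r ∈ Om (Rf v) r →
          Om (Rf v) c ∩ Om (Rf v) r = ∅} = 0 := by
  refine measure_mono_null ?_ (measure_union_null (Pool.Agent.H47.NN.nn hd) (rare hd))
  rintro v ⟨hcop, hdeg, c, hc, hJ, hall⟩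
  by_cases hN : Pool.Agent.H47.NN.NNeu v
  · by_cases hr : ∃ c, IsCrit (Rf v) c ∧
        ∃ K : Set (OnePoint ℂ), Expd (Rf v) K ∧ ∃ m : ℕ, (Rf v)^[m] c ∈ K
    · exact Or.inr ⟨hcop, hdeg, hr⟩
    · exfalso
      have hF : FJ (Rf v) := fj_of_nw (by omega) hcop hdeg hN (hS v hcop hdeg)
      obtain ⟨r, h1, h2, h3, h4⟩ := rc2_det hd hcop hdeg hF (hM v hcop hdeg hN hF)
        (fun c hc hK => hr ⟨c, hc, hK⟩) hc hJ
      rw [hall r h1 h2 h3] at h4
      exact Set.not_nonempty_empty h4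
  · exact Or.inl ⟨hcop, hdeg, hN⟩

theorem rc_ae (hd : 2 ≤ d)
    (hS : ∀ v : E d, IsCoprime (pol v.1) (pol v.2) →
      max (pol v.1).natDegree (pol v.2).natDegree = d → NW (Rf v))
    (hM : ∀ v : E d, IsCoprime (pol v.1) (pol v.2) →
      max (pol v.1).natDegree (pol v.2).natDegree = d → Pool.Agent.H47.NN.NNeu v →
        FJ (Rf v) → ManeC (Rf v)) :
    volume {v : E d | IsCoprime (pol v.1) (pol v.2) ∧
      max (pol v.1).natDegree (pol v.2).natDegree = d ∧ ¬ HypMap (Rf v) ∧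
        ∀ c, IsCrit (Rf v) c → ¬ Att (Rf v) c → c ∉ Om (Rf v) c} = 0 := by
  refine measure_mono_null ?_ (measure_union_null (Pool.Agent.H47.NN.nn hd) (rare hd))
  rintro v ⟨hcop, hdeg, hnh, hall⟩
  by_cases hN : Pool.Agent.H47.NN.NNeu v
  · by_cases hr : ∃ c, IsCrit (Rf v) c ∧
        ∃ K : Set (OnePoint ℂ), Expd (Rf v) K ∧ ∃ m : ℕ, (Rf v)^[m] c ∈ K
    · exact Or.inr ⟨hcop, hdeg, hr⟩
    · exfalso
      have hW := hS v hcop hdeg
      have hF : FJ (Rf v) := fj_of_nw (by omega) hcop hdeg hN hW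
      rcases rc_det hd hcop hdeg hN hW (hM v hcop hdeg hN hF)
        (fun c hc hK => hr ⟨c, hc, hK⟩) with h1 | ⟨c, h1, h2, h3⟩
      · exact hnh h1
      · exact hall c h1 h2 h3
  · exact Or.inl ⟨hcop, hdeg, hN⟩

end Pool.Agent.H47.RJ
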