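import Pool.Agent.H47.RJ.FCO

/-!
# Module RCR: a point of the Fatou set which is not attracted lies over a rotation domain

`f = Rf v`, `c ∈ FS f` not attracted. `NW f`: `m0 < n0`, `z0 = f^[m0] c ∈ FS f`, `p = n0 - m0`, `f^[p] z0 ∈ Fc f z0`. By `lf_sub` for `k ↦ p * k`: `Lim f (fun k => p * σ k) h`, `σ` strictly increasing. `u = h z0`. `u ∉ JS f` by `no_js_lim`, so `u ∈ FS f` and (`fc_lim`, `fc_self`) `u ∈ Fc f z0`.
`h` is not constant near `z0`: otherwise `h = u` on `Fc f z0` (`sh_ident`, `lf_hol`, `shol_const`) and `f^[p] u = u` (`lim_fix`). `att_or_rep`: if `IsSink f u p`: some `f^[p * σ k] z0` is in the attracted neighbourhood of `u`, so `f^[p * j] z0 → u` and `z0` is attracted, hence `c` is (`att_map`, H32/BT/Top, iterated), contradiction. If `Rep`: `u ∈ FS f` is a point of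
equicontinuity, but points `y ≠ u` near `u` leave the disc of radius `ρ / 2`: (as in `exi` (1): as long as the iterates of `y` under `f^[p]` stay in the disc, their distance to `u` grows by `1 / κ`), against `EqAt f u` with `ε = ρ / 2` (`f^[p * j] u = u`; if `κ = 0`: `chord u y ≤ 0` directly).
So `ret_id` (with `l = σ`) applies.
-/

set_option autoImplicit false

open Filter Topology Polynomial Metric Set

namespace Pool.Agent.H47.RJ

open Pool.Agent.H44.Fatou Pool.Agent.H32.BT Pool.Agent.H79.Eul Pool.Agent.H79.Par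
open Pool.Agent.H35.EX Pool.Agent.H44.RR Pool.Agent.H56.HR Pool.Agent.H44.RC

variable {d : ℕ} {v : E d}

/-- `z0` lies in a rotation domain of period `p` -/
structure RotD (f : OnePoint ℂ → OnePoint ℂ) (p : ℕ) (z0 : OnePoint ℂ) (b : ℕ → ℕ)
    (ψ : OnePoint ℂ → OnePoint ℂ) : Prop where
  hp : 0 < p
  hz : z0 ∈ FS f
  hm : f^[p] z0 ∈ Fc f z0
  hb : Tendsto b atTop atTop
  hL : Lim f (fun j => p * b j) ψ
  id : ∀ x ∈ Fc f z0, ψ x = x
  inj : ∀ k : ℕ, InjOn f^[p * k] (Fc f z0)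

theorem rot_of_nonatt_ar (hd : 1 ≤ d) (hcop : IsCoprime (pol v.1) (pol v.2))
    (hdeg : max (pol v.1).natDegree (pol v.2).natDegree = d) (hN : AR v)
    (hW : NW (Rf v)) {c : OnePoint ℂ} (hc : c ∈ FS (Rf v)) (hna : ¬ Att (Rf v) c) :
    ∃ (p : ℕ) (z0 : OnePoint ℂ) (b : ℕ → ℕ) (ψ : OnePoint ℂ → OnePoint ℂ),
      RotD (Rf v) p z0 b ψ := by
  have hf : Continuous (Rf v) := rat_continuous hcop
  obtain ⟨m0, n0, hmn, hn0⟩ := hW c hc
  obtain ⟨z0, hz0⟩ : ∃ z0, z0 = (Rf v)^[m0] c := ⟨_, rfl⟩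
  obtain ⟨p, hpe⟩ : ∃ p, p = n0 - m0 := ⟨_, rfl⟩
  have hp : 0 < p := by omega
  have hz : z0 ∈ FS (Rf v) := by
    rw [hz0]
    exact (fs_iff hd hcop hdeg m0 c).2 hc
  have hm : (Rf v)^[p] z0 ∈ Fc (Rf v) z0 := by
    have e : (Rf v)^[p] z0 = (Rf v)^[n0] c := by
      rw [hz0, ← Function.iterate_add_apply]
      congr 2
      omega
    rw [e, hz0]
    exact hn0
  have hna0 : ¬ Att (Rf v) z0 := by
    rw [hz0, att_iter hf]
    exact hna
  have hself : z0 ∈ Fc (Rf v) z0 := mem_connectedComponentIn hz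
  obtain ⟨σ, h, hσ, hL'⟩ := lf_sub (Rf v) (fun k => p * k)
  have hL : Lim (Rf v) (fun k => p * σ k) h := hL'
  have hσt : Tendsto σ atTop atTop := hσ.tendsto_atTop
  have hconv : Tendsto (fun k => (Rf v)^[p * σ k] z0) atTop (𝓝 (h z0)) :=
    (hL z0 hz).comp (tendsto_id.prodMk (tendsto_const_nhds (x := z0)))
  have huF : h z0 ∈ FS (Rf v) := by
    by_contra hJ
    exact no_js_lim_ar hd hcop hdeg hN hp hz hm hσt hL hJ
  have huc : h z0 ∈ Fc (Rf v) z0 :=
    fc_lim (fun k => fc_self hd hcop hdeg hz hm (σ k) hself) hconv huF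
  have hnc : ¬ ∀ᶠ y in 𝓝 z0, h y = h z0 := by
    intro hcst
    have h1 := sh_ident (fc_open (Rf v) z0) (fc_pre (Rf v) z0)
      (fun x hx => lf_hol hd hcop hdeg hL (fc_sub _ _ hx)) (fun x _ => shol_const (h z0) x)
      hself hcst
    have hfix := lim_fix hd hcop hdeg hL hz hm h1
    rcases hN p hp _ hfix with ⟨hs, -⟩ | ⟨ρ, κ, g, hR⟩
    · have hsk := hs
      obtain ⟨-, -, U, hU, hUc⟩ := hsk
      obtain ⟨k, hk⟩ := (hconv.eventually hU).exists
      have h2 : Att (Rf v) ((Rf v)^[p * σ k] z0) := ⟨h z0, p, hs, hUc _ hk⟩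
      rw [att_iter hf] at h2
      exact hna0 h2
    · have hρ := hR.hρ
      have hκ := hR.hκ
      have hκ1 := hR.hκ1
      have hE : EqAt (Rf v) (h z0) := interior_subset huF
      have h2 := hE (ρ / 2) (by linarith)
      have h3 : ∀ᶠ y in 𝓝[≠] (h z0), ∀ n : ℕ,
          chord ((Rf v)^[n] (h z0)) ((Rf v)^[n] y) < ρ / 2 := h2.filter_mono nhdsWithin_le_nhds
      obtain ⟨y, hy1, hy2⟩ := (h3.and self_mem_nhdsWithin).exists
      have hfixk : ∀ j : ℕ, (Rf v)^[p * j] (h z0) = h z0 := by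
        intro j
        rw [Function.iterate_mul]
        exact Function.iterate_fixed hfix j
      have h4 : ∀ j : ℕ, chord (h z0) ((Rf v)^[p * j] y) < ρ / 2 := by
        intro j
        have h5 := hy1 (p * j)
        rw [hfixk] at h5
        exact h5
      have h5 : ∀ j : ℕ, chord (h z0) ((Rf v)^[p * j] y) ≤
          κ * chord (h z0) ((Rf v)^[p * (j + 1)] y) := by
        intro j
        have e : (Rf v)^[p * (j + 1)] y = (Rf v)^[p] ((Rf v)^[p * j] y) := by
          rw [← Function.iterate_add_apply]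
          congr 2
          ring
        have h6 := hR.left ((Rf v)^[p * j] y) ((h4 j).trans (by linarith))
          (by rw [← e]; exact (h4 (j + 1)).trans (by linarith))
        have h7 := hR.contr ((Rf v)^[p] ((Rf v)^[p * j] y))
          (by rw [← e]; exact (h4 (j + 1)).trans (by linarith))
        rw [h6] at h7
        rw [e]
        exact h7
      have h6 : ∀ j : ℕ, chord (h z0) y ≤ κ ^ j * (ρ / 2) := by
        have h7 : ∀ j : ℕ, chord (h z0) y ≤ κ ^ j * chord (h z0) ((Rf v)^[p * j] y) := by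
          intro j
          induction j with
          | zero => simp
          | succ j ih =>
            refine ih.trans ?_
            rw [pow_succ, mul_assoc]
            exact mul_le_mul_of_nonneg_left (h5 j) (pow_nonneg hκ j)
        exact fun j => (h7 j).trans (mul_le_mul_of_nonneg_left (h4 j).le (pow_nonneg hκ j))
      have h7 : Tendsto (fun j : ℕ => κ ^ j * (ρ / 2)) atTop (𝓝 (0 * (ρ / 2))) :=
        (tendsto_pow_atTop_nhds_zero_of_lt_one hκ hκ1).mul_const _
      rw [zero_mul] at h7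
      have h8 : chord (h z0) y ≤ 0 := ge_of_tendsto' h7 h6
      exact hy2 (chord_eqz (le_antisymm h8 (chord_nn _ _))).symm
  obtain ⟨b, ψ, hb, hLb, hid, hinj⟩ := ret_id hd hcop hdeg hz hm hL hσt huc hnc
  exact ⟨p, z0, b, ψ, hp, hz, hm, hb, hLb, hid, hinj⟩

theorem rot_of_nonatt (hd : 1 ≤ d) (hcop : IsCoprime (pol v.1) (pol v.2))
    (hdeg : max (pol v.1).natDegree (pol v.2).natDegree = d) (hN : Pool.Agent.H47.NN.NNeu v)
    (hW : NW (Rf v)) {c : OnePoint ℂ} (hc : c ∈ FS (Rf v)) (hna : ¬ Att (Rf v) c) :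
    ∃ (p : ℕ) (z0 : OnePoint ℂ) (b : ℕ → ℕ) (ψ : OnePoint ℂ → OnePoint ℂ),
      RotD (Rf v) p z0 b ψ :=
  rot_of_nonatt_ar hd hcop hdeg (ar_of_nneu hd hcop hdeg hN) hW hc hna

end Pool.Agent.H47.RJ
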