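import Pool.Agent.H47.RJ.RCR
import Pool.Agent.H47.RJ.CNT

/-!
# Module RNR: orbits in a rotation domain near the boundary stay near the Julia set

PROOF. Let `f = Rf v`, `Ω = Fc f z0`. `rot_bd`: `Ω` is open (`fc_open`) and contains `z0` (`mem_connectedComponentIn`). `Ω ≠ univ`: otherwise `f^[p * 1]` is injective on the sphere (`hR.inj 1`), but `cnt_ge` (CNT) with `S = univ` gives a point with at least `d ^ p ≥ 2` preimages. The sphere is connected, so `Ω` is not closed (`isClopen_iff`): there is `w ∈ closure Ω`, `w ∉ Ω`. `w ∉ FS f`: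
`w` is the limit of points `u k ∈ Ω` (`mem_closure_iff_seq_limit`; the sphere is metrizable, or use `ch_ball`), `fc_lim` would give `w ∈ Ω`. So `w ∈ JS f`, and every disc about `w` contains a point of `Ω`.
`rot_near`: `FJ f` holds (`fj_of_nw`). All `f^[i]`, `i < p`, are uniformly continuous (`ch_uc`): there is `κ0 > 0` with `chord x y < κ0 → chord (f^[i] x) (f^[i] y) < κ` for all `i < p`. `Y = {x ∈ Ω | ∀ y ∈ JS f, κ0 ≤ chord x y}` is closed (a limit `x` of points of `Y` satisfies the inequality, so it is not in `JS f` (`chord_zero`), and is in `Ω` by `fc_lim`), so compact, and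
`Y ⊆ FS f`: `FJ f` gives `η > 0` with `η ≤ chord (f^[n] y) x` for `y ∈ Y`, `x ∈ JS f`. Let `x ∈ Ω` with `chord x y1 < η`, `y1 ∈ JS f`. For all `n`: `f^[p * n] x ∈ Ω` (`fc_self`, `hR.hm`), and `f^[p * n] x ∉ Y`: otherwise for all `j` with `b j ≥ n` (`hR.hb`) `f^[p * b j] x = f^[p * (b j - n)] (f^[p * n] x)` has distance `≥ η` to `y1`, and `f^[p * b j] x → ψ x = x`
(`hR.hL` at `x`, `hR.id`), so `η ≤ chord x y1`, contradiction. So there is `y ∈ JS f` with `chord (f^[p * n] x) y < κ0`, and `f^[p * n + i] x` has distance `< κ` to `f^[i] y ∈ JS f` (`js_iff`) for `i < p`. Every `m` is `p * n + i`.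
-/

set_option autoImplicit false

open Filter Topology Polynomial Metric Set

namespace Pool.Agent.H47.RJ

open Pool.Agent.H44.Fatou Pool.Agent.H32.BT Pool.Agent.H79.Eul Pool.Agent.H79.Par
open Pool.Agent.H35.EX Pool.Agent.H44.RR Pool.Agent.H56.HR Pool.Agent.H44.RC

variable {d : ℕ} {v : E d}

private theorem rnr_seq {A : Set (OnePoint ℂ)} {x : OnePoint ℂ} (hx : x ∈ closure A) :
    ∃ u : ℕ → OnePoint ℂ, (∀ k, u k ∈ A) ∧ Tendsto u atTop (𝓝 x) := by
  have h1 : ∀ k : ℕ, ∃ y, chord x y < 1 / ((k : ℝ) + 1) ∧ y ∈ A := by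
    intro k
    obtain ⟨y, hy, hyA⟩ := mem_closure_iff_nhds.1 hx _
      (ch_ball x (show (0 : ℝ) < 1 / ((k : ℝ) + 1) by positivity))
    exact ⟨y, hy, hyA⟩
  choose u hu huA using h1
  refine ⟨u, huA, ?_⟩
  rw [ch_tend]
  intro ε hε
  have g2 : ∀ᶠ k : ℕ in atTop, 1 / ((k : ℝ) + 1) < ε :=
    (tendsto_one_div_add_atTop_nhds_zero_nat (𝕜 := ℝ)).eventually_lt_const hε
  filter_upwards [g2] with k hk
  exact (hu k).trans hk

theorem rot_bd (hd : 2 ≤ d) (hcop : IsCoprime (pol v.1) (pol v.2))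
    (hdeg : max (pol v.1).natDegree (pol v.2).natDegree = d) {p : ℕ} {z0 : OnePoint ℂ}
    {b : ℕ → ℕ} {ψ : OnePoint ℂ → OnePoint ℂ} (hR : RotD (Rf v) p z0 b ψ) :
    ∀ η : ℝ, 0 < η → ∃ x ∈ Fc (Rf v) z0, ∃ y ∈ JS (Rf v), chord x y < η := by
  have hself : z0 ∈ Fc (Rf v) z0 := mem_connectedComponentIn hR.hz
  have hopen := fc_open (Rf v) z0
  have hnu : Fc (Rf v) z0 ≠ univ := by
    intro hu
    have hinf : (univ : Set (OnePoint ℂ)).Infinite := by
      have : Infinite (OnePoint ℂ) := Infinite.of_injective ((↑) : ℂ → OnePoint ℂ)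
        OnePoint.coe_injective
      exact Set.infinite_univ
    obtain ⟨x, -, hx⟩ := cnt_ge (by omega : 1 ≤ d) hcop hdeg (p * 1) hinf
    have h1 : {z | (Rf v)^[p * 1] z = x}.ncard ≤ 1 := by
      have hs : {z | (Rf v)^[p * 1] z = x}.Subsingleton := by
        intro z hz z' hz'
        exact hR.inj 1 (by rw [hu]; trivial) (by rw [hu]; trivial)
          ((show (Rf v)^[p * 1] z = x from hz).trans (show (Rf v)^[p * 1] z' = x from hz').symm)
      rcases hs.eq_empty_or_singleton with h | ⟨a, h⟩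
      · rw [h, Set.ncard_empty]
        exact Nat.zero_le 1
      · rw [h, Set.ncard_singleton]
    have h2 : 2 ≤ d ^ (p * 1) := by
      have hp := hR.hp
      calc 2 ≤ d := hd
        _ = d ^ 1 := (pow_one d).symm
        _ ≤ d ^ (p * 1) := Nat.pow_le_pow_right (by omega) (by omega)
    omega
  have hnc : ¬ IsClosed (Fc (Rf v) z0) := by
    intro hc
    rcases isClopen_iff.1 (⟨hc, hopen⟩ : IsClopen (Fc (Rf v) z0)) with h1 | h1
    · rw [h1] at hself
      exact hself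
    · exact hnu h1
  obtain ⟨w, hw, hwn⟩ : ∃ w, w ∈ closure (Fc (Rf v) z0) ∧ w ∉ Fc (Rf v) z0 := by
    by_contra hcon
    push Not at hcon
    exact hnc (closure_subset_iff_isClosed.1 hcon)
  have hwJ : w ∈ JS (Rf v) := by
    intro hF
    obtain ⟨u, hu, hlim⟩ := rnr_seq hw
    exact hwn (fc_lim hu hlim hF)
  intro η hη
  obtain ⟨x, hx, hxF⟩ := mem_closure_iff_nhds.1 hw _ (ch_ball w hη)
  exact ⟨x, hxF, w, hwJ, by rw [chord_comm]; exact hx⟩

private theorem rnr_unif {f : OnePoint ℂ → OnePoint ℂ} (hf : Continuous f) {κ : ℝ} (hκ : 0 < κ)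
    (p : ℕ) : ∃ κ0 : ℝ, 0 < κ0 ∧ ∀ i < p, ∀ x y, chord x y < κ0 →
      chord (f^[i] x) (f^[i] y) < κ := by
  induction p with
  | zero => exact ⟨1, one_pos, fun i hi => absurd hi (Nat.not_lt_zero i)⟩
  | succ p ih =>
    obtain ⟨a, ha, h1⟩ := ih
    obtain ⟨c, hc, h2⟩ := ch_uc (hf.iterate p) hκ
    refine ⟨min a c, lt_min ha hc, fun i hi x y hxy => ?_⟩
    rcases Nat.lt_succ_iff_lt_or_eq.1 hi with h | h
    · exact h1 i h x y (hxy.trans_le (min_le_left _ _))
    · rw [h]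
      exact h2 x y (hxy.trans_le (min_le_right _ _))

theorem rot_near (hd : 2 ≤ d) (hcop : IsCoprime (pol v.1) (pol v.2))
    (hdeg : max (pol v.1).natDegree (pol v.2).natDegree = d) (hF : FJ (Rf v)) {p : ℕ}
    {z0 : OnePoint ℂ} {b : ℕ → ℕ} {ψ : OnePoint ℂ → OnePoint ℂ} (hR : RotD (Rf v) p z0 b ψ) :
    ∀ κ : ℝ, 0 < κ → ∃ η : ℝ, 0 < η ∧ ∀ x ∈ Fc (Rf v) z0, (∃ y ∈ JS (Rf v), chord x y < η) →
      ∀ m : ℕ, ∃ y ∈ JS (Rf v), chord ((Rf v)^[m] x) y < κ := by
  intro κ hκ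
  have hf : Continuous (Rf v) := rat_continuous hcop
  have hd1 : 1 ≤ d := by omega
  obtain ⟨κ0, hκ0, hun⟩ := rnr_unif hf hκ p
  obtain ⟨Y, hY⟩ : ∃ Y : Set (OnePoint ℂ), Y = {x | x ∈ Fc (Rf v) z0 ∧
      ∀ y ∈ JS (Rf v), κ0 ≤ chord x y} := ⟨_, rfl⟩
  have hYF : Y ⊆ FS (Rf v) := by
    rw [hY]
    rintro x ⟨hx, -⟩
    exact fc_sub _ _ hx
  have hYc : IsClosed Y := by
    apply isClosed_of_closure_subset
    intro x hx
    obtain ⟨u, hu, hlim⟩ := rnr_seq hx
    rw [hY] at hu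
    have h1 : ∀ y ∈ JS (Rf v), κ0 ≤ chord x y := by
      intro y hy
      have h2 : Tendsto (fun k => chord (u k) y) atTop (𝓝 (chord x y)) :=
        (chord_cont.tendsto (x, y)).comp (hlim.prodMk_nhds tendsto_const_nhds)
      exact ge_of_tendsto' h2 fun k => (hu k).2 y hy
    have h3 : x ∈ FS (Rf v) := by
      by_contra hxJ
      have h4 := h1 x hxJ
      rw [chord_zero] at h4
      linarith
    rw [hY]
    exact ⟨fc_lim (fun k => (hu k).1) hlim h3, h1⟩
  obtain ⟨η, hη, hFJ⟩ := hF Y hYF hYc.isCompact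
  refine ⟨η, hη, ?_⟩
  rintro x hx ⟨y1, hy1, hxy1⟩ m
  have hin : ∀ n : ℕ, (Rf v)^[p * n] x ∈ Fc (Rf v) z0 := fun n =>
    fc_self hd1 hcop hdeg hR.hz hR.hm n hx
  have hnY : ∀ n : ℕ, (Rf v)^[p * n] x ∉ Y := by
    intro n hn
    have h1 : Tendsto (fun j => (Rf v)^[p * b j] x) atTop (𝓝 x) := by
      have h2 : Tendsto (fun j => (Rf v)^[p * b j] x) atTop (𝓝 (ψ x)) :=
        (hR.hL x (fc_sub _ _ hx)).comp (tendsto_id.prodMk tendsto_const_nhds)
      rwa [hR.id x hx] at h2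
    have h3 : Tendsto (fun j => chord ((Rf v)^[p * b j] x) y1) atTop (𝓝 (chord x y1)) :=
      (chord_cont.tendsto (x, y1)).comp (h1.prodMk_nhds tendsto_const_nhds)
    have h4 : η ≤ chord x y1 := by
      refine ge_of_tendsto h3 ?_
      filter_upwards [hR.hb.eventually_ge_atTop n] with j hj
      have e1 : p * b j = p * (b j - n) + p * n := by
        rw [← mul_add]
        congr 1
        omega
      rw [e1, Function.iterate_add_apply]
      exact hFJ _ hn _ y1 hy1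
    linarith
  have hnear : ∀ n : ℕ, ∃ y ∈ JS (Rf v), chord ((Rf v)^[p * n] x) y < κ0 := by
    intro n
    by_contra hcon
    push Not at hcon
    apply hnY n
    rw [hY]
    exact ⟨hin n, hcon⟩
  obtain ⟨y, hy, hyd⟩ := hnear (m / p)
  refine ⟨(Rf v)^[m % p] y, (js_iff hd1 hcop hdeg _ _).2 hy, ?_⟩
  have e1 : (Rf v)^[m] x = (Rf v)^[m % p] ((Rf v)^[p * (m / p)] x) := by
    rw [← Function.iterate_add_apply, Nat.mod_add_div]
  rw [e1]
  exact hun _ (Nat.mod_lt _ hR.hp) _ _ hyd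

end Pool.Agent.H47.RJ
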