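import Pool.Agent.H47.RJ.JVL
import Pool.Agent.H47.RJ.FLA

/-!
# Module RTI: a non-constant limit function with a value in the component: the iterates return to the identity

`f = Rf v`, `Ω = Fc f z0`, `G = f^[p]`, `Ω` is open, `G^[k] = f^[p * k]` maps `Ω` to `Ω` (`fc_self`). `h` is the limit of `f^[p * l k]` on `FS f`, `h z0 ∈ Ω`.
(1) Choose a strictly increasing `s : ℕ → ℕ` with `l (s (j + 1)) ≥ l (s j) + j + 1` (`hl`), `c j = l (s (j + 1)) - l (s j) ≥ j + 1`. By `lf_sub` (for `j ↦ p * c j`) there are a strictly increasing `t` and `ψ` with `Lim f (fun j => p * c (t j)) ψ`. Put `b j = c (t j)`, which tends to infinity, `b j ≥ 1`.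
(2) `h` is holomorphic at `z0` (`lf_hol`), in particular continuous, so there is an open `U0 ∋ z0`, `U0 ⊆ Ω`, with `h '' U0 ⊆ Ω`; by `sh_open` `V = h '' U0` is a neighbourhood of `h z0`. For `w = h x`, `x ∈ U0`: `f^[p * b j] (f^[p * l (s (t j))] x) = f^[p * l (s (t j + 1))] x`. The right side tends to `h x`. On the left side
`f^[p * l (s (t j))] x → h x ∈ Ω ⊆ FS f` and by the joint convergence in `Lim` at the point `h x` the left side tends to `ψ (h x)`. So `ψ w = w` for `w ∈ V`, that is near `h z0`. By `sh_ident` (`lf_hol`, `shol_id`, `fc_open`, `fc_pre`; `Fc f (h z0) = Ω`) `ψ x = x` on `Ω`.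
(3) `InjOn`: if `x, x' ∈ Ω`, `f^[p] x = f^[p] x'` then `f^[p * b j] x = f^[p * b j] x'` for all `j` (`b j ≥ 1`), and in the limit `x = ψ x = ψ x' = x'`. `htu`: `p * b j` for all `j` directly; the same for `(f^[p])` replaced by `f^[p * k]`: `InjOn` of the iterates follows by composition (`fc_self`).
-/

set_option autoImplicit false

open Filter Topology Polynomial Metric Set

namespace Pool.Agent.H47.RJ

open Pool.Agent.H44.Fatou Pool.Agent.H32.BT Pool.Agent.H79.Eul Pool.Agent.H79.Par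
open Pool.Agent.H35.EX Pool.Agent.H44.RR Pool.Agent.H56.HR Pool.Agent.H44.RC

variable {d : ℕ} {v : E d}

private theorem rti_cont {ψ : OnePoint ℂ → OnePoint ℂ} {x : OnePoint ℂ} (h : SHol ψ x) :
    ContinuousAt ψ x := by
  obtain ⟨τ, σ, w, g, hw, hg, he⟩ := h
  have h1 : ψ x = io σ (g w) := by
    rw [← hw]
    exact he.self_of_nhds
  show Tendsto ψ (𝓝 x) (𝓝 (ψ x))
  rw [h1, ← hw, ← (io_emb τ).map_nhds_eq, Filter.tendsto_map'_iff]
  have h2 : Tendsto (fun z => io σ (g z)) (𝓝 w) (𝓝 (io σ (g w))) :=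
    ((io_emb σ).continuous.tendsto (g w)).comp hg.continuousAt
  exact h2.congr' (he.mono fun z hz => hz.symm)

private theorem rti_seq {l : ℕ → ℕ} (hl : Tendsto l atTop atTop) :
    ∃ s : ℕ → ℕ, StrictMono s ∧ ∀ j, l (s j) + j + 1 ≤ l (s (j + 1)) := by
  have h1 : ∀ j N : ℕ, ∃ m, N < m ∧ l N + j + 1 ≤ l m := fun j N =>
    ((eventually_gt_atTop N).and (hl.eventually_ge_atTop (l N + j + 1))).exists
  choose S hS1 hS2 using h1
  refine ⟨fun j => Nat.rec 0 (fun j N => S j N) j, ?_, fun j => ?_⟩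
  · exact strictMono_nat_of_lt_succ fun j => hS1 j _
  · exact hS2 j _

theorem ret_id (hd : 1 ≤ d) (hcop : IsCoprime (pol v.1) (pol v.2))
    (hdeg : max (pol v.1).natDegree (pol v.2).natDegree = d) {p : ℕ} {z0 : OnePoint ℂ}
    (hz : z0 ∈ FS (Rf v)) (hm : (Rf v)^[p] z0 ∈ Fc (Rf v) z0) {l : ℕ → ℕ}
    {h : OnePoint ℂ → OnePoint ℂ} (hL : Lim (Rf v) (fun k => p * l k) h)
    (hl : Tendsto l atTop atTop) (hu : h z0 ∈ Fc (Rf v) z0)
    (hn : ¬ ∀ᶠ y in 𝓝 z0, h y = h z0) :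
    ∃ (b : ℕ → ℕ) (ψ : OnePoint ℂ → OnePoint ℂ), Tendsto b atTop atTop ∧
      Lim (Rf v) (fun j => p * b j) ψ ∧ (∀ x ∈ Fc (Rf v) z0, ψ x = x) ∧
      ∀ k : ℕ, InjOn (Rf v)^[p * k] (Fc (Rf v) z0) := by
  have hpt : ∀ (n : ℕ → ℕ) (h : OnePoint ℂ → OnePoint ℂ), Lim (Rf v) n h →
      ∀ z ∈ FS (Rf v), Tendsto (fun k => (Rf v)^[n k] z) atTop (𝓝 (h z)) := by
    intro n h hL z hz
    exact (hL z hz).comp (tendsto_id.prodMk tendsto_const_nhds)
  obtain ⟨s, hs, hsl⟩ := rti_seq hl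
  obtain ⟨c, hc⟩ : ∃ c : ℕ → ℕ, c = fun j => l (s (j + 1)) - l (s j) := ⟨_, rfl⟩
  have hc1 : ∀ j, l (s j) + c j = l (s (j + 1)) := by
    intro j
    have := hsl j
    rw [hc]
    show l (s j) + (l (s (j + 1)) - l (s j)) = _
    omega
  have hc2 : ∀ j, j + 1 ≤ c j := by
    intro j
    have := hsl j
    have := hc1 j
    omega
  obtain ⟨t, ψ, ht, hψ⟩ := lf_sub (Rf v) (fun j => p * c j)
  obtain ⟨b, hb⟩ : ∃ b : ℕ → ℕ, b = fun j => c (t j) := ⟨_, rfl⟩
  have hψ' : Lim (Rf v) (fun j => p * b j) ψ := by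
    rw [hb]
    exact hψ
  have hbt : Tendsto b atTop atTop := by
    refine tendsto_atTop_mono (fun j => ?_) tendsto_id
    have h1 := hc2 (t j)
    have h2 := ht.id_le j
    rw [hb]
    show j ≤ c (t j)
    have h3 : j ≤ t j := h2
    omega
  have hid : ∀ x ∈ Fc (Rf v) z0, ψ x = x := by
    have hU0 : h ⁻¹' Fc (Rf v) z0 ∩ Fc (Rf v) z0 ∈ 𝓝 z0 :=
      Filter.inter_mem
        ((rti_cont (lf_hol hd hcop hdeg hL hz)).preimage_mem_nhds ((fc_open _ z0).mem_nhds hu))
        ((fc_open _ z0).mem_nhds (mem_connectedComponentIn hz))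
    have hV := sh_open (lf_hol hd hcop hdeg hL hz) hn hU0
    have hev : ∀ᶠ y in 𝓝 (h z0), ψ y = y := by
      filter_upwards [hV] with y hy
      obtain ⟨x, ⟨hx1, hx2⟩, rfl⟩ := hy
      have hxF : x ∈ FS (Rf v) := fc_sub _ _ hx2
      have hhF : h x ∈ FS (Rf v) := fc_sub _ _ hx1
      have g0 := hpt _ h hL x hxF
      have g1 : Tendsto (fun j => (Rf v)^[p * l (s (t j + 1))] x) atTop (𝓝 (h x)) := by
        refine g0.comp (f := fun j => s (t j + 1)) ?_
        exact hs.tendsto_atTop.comp ((tendsto_add_atTop_nat 1).comp ht.tendsto_atTop)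
      have g2 : Tendsto (fun j => (Rf v)^[p * l (s (t j))] x) atTop (𝓝 (h x)) :=
        g0.comp (f := fun j => s (t j)) (hs.tendsto_atTop.comp ht.tendsto_atTop)
      have g3 : Tendsto (fun j => (Rf v)^[p * b j] ((Rf v)^[p * l (s (t j))] x)) atTop
          (𝓝 (ψ (h x))) :=
        (hψ' (h x) hhF).comp (tendsto_id.prodMk g2)
      have e1 : (fun j => (Rf v)^[p * b j] ((Rf v)^[p * l (s (t j))] x)) =
          fun j => (Rf v)^[p * l (s (t j + 1))] x := by
        funext j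
        rw [← Function.iterate_add_apply, ← mul_add]
        have : b j + l (s (t j)) = l (s (t j + 1)) := by
          rw [hb, ← hc1 (t j)]
          show c (t j) + l (s (t j)) = _
          omega
        rw [this]
      rw [e1] at g3
      exact tendsto_nhds_unique g3 g1
    have hFc : ∀ x ∈ Fc (Rf v) z0, SHol ψ x := fun x hx =>
      lf_hol hd hcop hdeg hψ' (fc_sub _ _ hx)
    exact sh_ident (fc_open _ z0) (fc_pre _ z0) hFc (fun x _ => shol_id x) hu hev
  refine ⟨b, ψ, hbt, hψ', hid, fun k x hx x' hx' hxx => ?_⟩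
  have g1 := hpt _ ψ hψ' x (fc_sub _ _ hx)
  have g2 := hpt _ ψ hψ' x' (fc_sub _ _ hx')
  have g3 : (fun j => (Rf v)^[p * b j] x) =ᶠ[atTop] fun j => (Rf v)^[p * b j] x' := by
    filter_upwards [hbt.eventually_ge_atTop k] with j hj
    have e1 : p * b j = p * (b j - k) + p * k := by
      rw [← mul_add]
      congr 1
      omega
    rw [e1, Function.iterate_add_apply, Function.iterate_add_apply, hxx]
  rw [← hid x hx, ← hid x' hx']
  exact tendsto_nhds_unique (g1.congr' g3) g2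

end Pool.Agent.H47.RJ
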