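import Pool.Agent.H47.RJ.RCF
import Pool.Agent.H47.RJ.JT6
import Pool.Agent.H44.RC.MANE
import Pool.Agent.H76.SU.MAI

/-!
# THEOREM RC

For almost every rational map of degree `d ≥ 2`: the map is hyperbolic or a non-attracted critical point is recurrent (`rc`); the limit set of every critical point of the Julia set
meets the limit set of a recurrent critical point of the Julia set (`rc2`).
-/

set_option autoImplicit false

open Filter Topology Polynomial Metric Set MeasureTheory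

namespace Pool.Agent.H47.RJ

open Pool.Agent.H44.Fatou Pool.Agent.H32.BT Pool.Agent.H79.Eul Pool.Agent.H79.Par
open Pool.Agent.H35.EX Pool.Agent.H44.RR Pool.Agent.H56.HR Pool.Agent.H44.RC

variable {d : ℕ} {v : E d}

theorem nw_all (hd : 2 ≤ d) (hcop : IsCoprime (pol v.1) (pol v.2))
    (hdeg : max (pol v.1).natDegree (pol v.2).natDegree = d) : NW (Rf v) := by
  intro x hx
  obtain ⟨m, n, hmn, he⟩ := Pool.Agent.H76.SU.sullivan hd hcop hdeg hx
  refine ⟨m, n, hmn, ?_⟩
  rw [he]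
  exact mem_connectedComponentIn ((fs_iff (by omega) hcop hdeg n x).2 hx)

theorem manec (hd : 2 ≤ d) (hcop : IsCoprime (pol v.1) (pol v.2))
    (hdeg : max (pol v.1).natDegree (pol v.2).natDegree = d) (hF : FJ (Rf v)) :
    ManeC (Rf v) := by
  intro L _ hLJ _ hR
  exact mane hcop (by rw [hdeg]; omega) hR hLJ (jt6 hd hcop hdeg) hF

theorem rc (hd : 2 ≤ d) :
    volume {v : E d | IsCoprime (pol v.1) (pol v.2) ∧
      max (pol v.1).natDegree (pol v.2).natDegree = d ∧ ¬ HypMap (Rf v) ∧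
        ∀ c, IsCrit (Rf v) c → ¬ Att (Rf v) c → c ∉ Om (Rf v) c} = 0 :=
  rc_ae hd (fun _ hcop hdeg => nw_all hd hcop hdeg)
    fun _ hcop hdeg _ hF => manec hd hcop hdeg hF

theorem rc2 (hd : 2 ≤ d) :
    volume {v : E d | IsCoprime (pol v.1) (pol v.2) ∧
      max (pol v.1).natDegree (pol v.2).natDegree = d ∧ ∃ c, IsCrit (Rf v) c ∧ c ∈ JS (Rf v) ∧
        ∀ r, IsCrit (Rf v) r → r ∈ JS (Rf v) → r ∈ Om (Rf v) r →
          Om (Rf v) c ∩ Om (Rf v) r = ∅} = 0 :=
  rc2_ae hd (fun _ hcop hdeg => nw_all hd hcop hdeg)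
    fun _ hcop hdeg _ hF => manec hd hcop hdeg hF

end Pool.Agent.H47.RJ
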